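import Pool.Agent.P.MP_db6017_lc.Q1.Base

/-!
Angles given by binary expansions; a computable test for averages of trigonometric polynomials.
-/

namespace Pool.Agent.P.MP_db6017_lc.Q1

open Pool.Agent.Lib.Comp Real

/-- The point of the unit circle with angle `2 π t`. -/
noncomputable def ee (t : ℝ) : ℂ := Complex.exp (Complex.I * (2 * π * t : ℝ))

theorem norm_ee (t : ℝ) : ‖ee t‖ = 1 := by
  rw [ee, mul_comm, Complex.norm_exp_ofReal_mul_I]

theorem ee_add (s t : ℝ) : ee (s + t) = ee s * ee t := by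
  rw [ee, ee, ee, ← Complex.exp_add]
  congr 1
  push_cast; ring

theorem ee_pow (t : ℝ) (b : ℕ) : ee t ^ b = ee (b * t) := by
  rw [ee, ee, ← Complex.exp_nat_mul]
  congr 1
  push_cast; ring

theorem ee_int (n : ℤ) : ee n = 1 := by
  rw [ee, ← Complex.exp_int_mul_two_pi_mul_I n]
  congr 1
  push_cast; ring

theorem norm_ee_sub (s t : ℝ) : ‖ee s - ee t‖ ≤ 8 * |s - t| := by
  have h : ee s - ee t = ee t * (ee (s - t) - 1) := by
    rw [mul_sub, ← ee_add]; simp
  rw [h, norm_mul, norm_ee, one_mul]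
  refine Real.norm_exp_I_mul_ofReal_sub_one_le.trans ?_
  rw [Real.norm_eq_abs, abs_mul, abs_of_pos two_pi_pos]
  exact mul_le_mul_of_nonneg_right (by linarith [pi_le_four]) (abs_nonneg _)

theorem exists_ee {z : ℂ} (hz : ‖z‖ = 1) : ∃ t, 0 ≤ t ∧ t < 1 ∧ ee t = z := by
  obtain ⟨θ, rfl⟩ := (Complex.norm_eq_one_iff z).1 hz
  refine ⟨Int.fract (θ / (2 * π)), Int.fract_nonneg _, Int.fract_lt_one _, ?_⟩
  rw [← mul_one (ee _), ← ee_int ⌊θ / (2 * π)⌋, ← ee_add, Int.fract_add_floor, ee,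
    mul_div_cancel₀ _ two_pi_pos.ne', mul_comm]

/-- `P` is a binary expansion of `t`. -/
def Rep (P : ℕ → Bool) (t : ℝ) : Prop :=
  ∀ M, (bv (res P M) : ℝ) ≤ 2 ^ M * t ∧ 2 ^ M * t ≤ bv (res P M) + 1

theorem exists_rep_val (P : ℕ → Bool) : ∃ t, Rep P t := by
  have key : ∀ L d, (2 : ℝ) ^ d * bv (res P L) ≤ bv (res P (L + d)) ∧
      (bv (res P (L + d)) : ℝ) + 1 ≤ 2 ^ d * (bv (res P L) + 1) := by
    intro L d
    rw [← bv_div P L d]
    exact ⟨by exact_mod_cast Nat.mul_div_le _ _,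
      by exact_mod_cast Nat.lt_mul_div_succ _ (by positivity)⟩
  obtain ⟨t, h1, h2⟩ := exists_between_of_forall_le
    (s := Set.range fun M => (bv (res P M) : ℝ) / 2 ^ M)
    (t := Set.range fun M => ((bv (res P M) : ℝ) + 1) / 2 ^ M) (Set.range_nonempty _)
    (Set.range_nonempty _) (by
      rintro _ ⟨M, rfl⟩ _ ⟨L, rfl⟩
      simp only
      rw [div_le_div_iff₀ (by positivity) (by positivity)]
      rcases le_total M L with h | h <;> obtain ⟨d, rfl⟩ := Nat.exists_eq_add_of_le h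
      · have := mul_le_mul_of_nonneg_left (key M d).1 (by positivity : (0 : ℝ) ≤ 2 ^ M)
        have h0 : (0 : ℝ) ≤ 2 ^ M := by positivity
        rw [pow_add]; linarith
      · have := mul_le_mul_of_nonneg_left (key L d).2 (by positivity : (0 : ℝ) ≤ 2 ^ L)
        have h0 : (0 : ℝ) ≤ 2 ^ L := by positivity
        rw [pow_add]; linarith)
  refine ⟨t, fun M => ⟨?_, ?_⟩⟩
  · have := h1 ⟨M, rfl⟩
    rwa [div_le_iff₀' (by positivity)] at this
  · have := h2 ⟨M, rfl⟩
    rwa [le_div_iff₀' (by positivity)] at this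

theorem exists_rep_seq {t : ℝ} (h0 : 0 ≤ t) (h1 : t < 1) : ∃ P, Rep P t := by
  have key : ∀ M, bv (res (fun i => eqb (⌊2 ^ (i + 1) * t⌋₊ % 2) 1) M) = ⌊2 ^ M * t⌋₊ := by
    intro M
    induction M with
    | zero => rw [bv_zero, pow_zero, one_mul, eq_comm, Nat.floor_eq_zero]; exact h1
    | succ M ih =>
      have e : ⌊2 ^ M * t⌋₊ = ⌊2 ^ (M + 1) * t⌋₊ / 2 := by
        rw [← Nat.floor_div_ofNat]; congr 1; ring
      rw [bv_succ, ih, e]
      generalize ⌊2 ^ (M + 1) * t⌋₊ = c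
      rcases Nat.mod_two_eq_zero_or_one c with e | e
      · have : eqb (c % 2) 1 = false := by simp [e]
        rw [this]; simp; omega
      · have : eqb (c % 2) 1 = true := by simp [e]
        rw [this]; simp; omega
  refine ⟨fun i => eqb (⌊2 ^ (i + 1) * t⌋₊ % 2) 1, fun M => ?_⟩
  rw [key]
  exact ⟨Nat.floor_le (by positivity), (Nat.lt_floor_add_one _).le⟩

theorem Rep.near {P Q : ℕ → Bool} {s t : ℝ} (hs : Rep P s) (ht : Rep Q t) {M : ℕ}
    (h : res P M = res Q M) : 2 ^ M * |s - t| ≤ 1 := by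
  have h1 := hs M
  have h2 := ht M
  rw [h] at h1
  rw [← abs_of_pos (by positivity : (0 : ℝ) < 2 ^ M), ← abs_mul, abs_le]
  constructor <;> linarith [h1.1, h1.2, h2.1, h2.2]

/-- The columns of a sequence. -/
def col (P : ℕ → Bool) (j n : ℕ) : Bool := P (Nat.pair j n)

/-- An approximation of `K b t`, where `P` is a binary expansion of `t`. -/
def ph (K : ℕ) (P : ℕ → Bool) (b : ℕ) : ℕ := K * b * bv (res P (b + K)) / 2 ^ (b + K)

theorem ph_near {K : ℕ} (hK : 0 < K) {P : ℕ → Bool} {t : ℝ} (h : Rep P t) (b : ℕ) :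
    |(ph K P b : ℝ) / K - b * t| ≤ 2 / K := by
  have hK' : (0 : ℝ) < K := by exact_mod_cast hK
  obtain ⟨h1, h2⟩ := h (b + K)
  have h3 : (2 : ℝ) ^ (b + K) * ph K P b ≤ K * b * bv (res P (b + K)) := by
    exact_mod_cast Nat.mul_div_le _ _
  have h4 : (K : ℝ) * b * bv (res P (b + K)) ≤ 2 ^ (b + K) * (ph K P b + 1) := by
    exact_mod_cast (Nat.lt_mul_div_succ _ (by positivity)).le
  have h5 : (K : ℝ) * b ≤ 2 ^ (b + K) := by
    rw [pow_add, mul_comm]
    exact_mod_cast Nat.mul_le_mul Nat.lt_two_pow_self.le Nat.lt_two_pow_self.le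
  have h6 : (0 : ℝ) < 2 ^ (b + K) := by positivity
  have h7 := mul_le_mul_of_nonneg_left h1 (by positivity : (0 : ℝ) ≤ K * b)
  have h8 := mul_le_mul_of_nonneg_left h2 (by positivity : (0 : ℝ) ≤ K * b)
  have e : (ph K P b : ℝ) / K - b * t = (ph K P b - K * b * t) / K := by field_simp
  rw [e, abs_div, abs_of_pos hK']
  gcongr
  rw [abs_le]
  constructor <;> refine le_of_mul_le_mul_left ?_ h6 <;> linarith

/-- An integer approximation of `K (A + Re (a e(u / K)))`. -/
noncomputable def apx (A K : ℕ) (a : ℂ) (u : ℕ) : ℕ := ⌊(K : ℝ) * (A + (a * ee (u / K)).re)⌋₊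

theorem pr_apx (A : ℕ) {K : ℕ} (hK : 0 < K) (a : ℂ) : Primrec (apx A K a) := by
  have h : Primrec fun u => ((List.range K).map (apx A K a)).getD (u % K) 0 := by fun_prop
  refine h.of_eq fun u => ?_
  have hK' : (K : ℝ) ≠ 0 := by exact_mod_cast hK.ne'
  have e : (u : ℝ) / K = ((u % K : ℕ) : ℝ) / K + ((u / K : ℕ) : ℤ) := by
    conv_lhs => rw [← Nat.mod_add_div u K]
    rw [Int.cast_natCast, Nat.cast_add, Nat.cast_mul]
    field_simp
  rw [List.getD_eq_getElem?_getD, List.getElem?_map, List.getElem?_range (Nat.mod_lt _ hK)]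
  simp only [Option.map_some, Option.getD_some, apx]
  rw [e, ee_add, ee_int, mul_one]

theorem apx_near {A K : ℕ} (hK : 0 < K) {a : ℂ} (ha : ‖a‖ ≤ A) {P : ℕ → Bool} {t : ℝ}
    (h : Rep P t) (b : ℕ) :
    |(apx A K a (ph K P b) : ℝ) - K * (A + (a * ee t ^ b).re)| ≤ 1 + 16 * A := by
  have hK' : (0 : ℝ) < K := by exact_mod_cast hK
  set w := ee ((ph K P b : ℝ) / K)
  have h1 : |(a * w).re| ≤ A := (Complex.abs_re_le_norm _).trans (by
    rw [norm_mul, norm_ee, mul_one]; exact ha)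
  have h2 : (0 : ℝ) ≤ K * (A + (a * w).re) := mul_nonneg hK'.le (by linarith [(abs_le.1 h1).1])
  have h3 : |(a * w).re - (a * ee t ^ b).re| ≤ A * (8 * (2 / K)) := by
    rw [← Complex.sub_re, ← mul_sub, ee_pow]
    refine (Complex.abs_re_le_norm _).trans ?_
    rw [norm_mul]
    refine mul_le_mul ha ((norm_ee_sub _ _).trans ?_) (norm_nonneg _) (by positivity)
    gcongr
    exact ph_near hK h b
  have h4 := mul_le_mul_of_nonneg_left h3 hK'.le
  rw [show (K : ℝ) * (A * (8 * (2 / K))) = 16 * A by field_simp; ring,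
    ← abs_of_pos hK', ← abs_mul, abs_le] at h4
  have h5 := Nat.floor_le h2
  have h6 := Nat.lt_floor_add_one ((K : ℝ) * (A + (a * w).re))
  rw [abs_le]
  unfold apx
  constructor <;> linarith [h4.1, h4.2]

theorem ci_finsetSum {α ι : Type} [Primcodable α] {Z : ℕ → Bool} (T : Finset ι) (f : ι → α → ℕ)
    (h : ∀ j, CI Z (f j)) : CI Z fun x => ∑ j ∈ T, f j x := by
  classical
  induction T using Finset.induction_on with
  | empty => exact ci_const 0
  | insert j T hj ih => exact (ci_add (h j) ih).of_eq fun x => by rw [Finset.sum_insert hj]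

/-- The sum over `b < N` in `X` of the real part of a trigonometric polynomial. -/
noncomputable def trig (X : ℕ → Bool) (r : ℕ) (a z : ℕ → ℂ) (N : ℕ) : ℝ :=
  ∑ b ∈ Finset.range N, if X b = true then (∑ j ∈ Finset.range r, a j * z j ^ b).re else 0

theorem exists_test (X : ℕ → Bool) (r : ℕ) (a : ℕ → ℂ) (v : ℝ) {ζ : ℝ} (hζ : 0 < ζ) :
    ∃ Ts : (ℕ → Bool) → ℕ → Bool, ∃ K : ℕ,
      (∀ P P' N, (∀ i < (r + N + K) ^ 2, P i = P' i) → Ts P N = Ts P' N) ∧
      (∀ Z, CI Z X → CI Z fun w : List Bool × ℕ => Ts (fun i => w.1.getD i false) w.2) ∧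
      ∀ (P : ℕ → Bool) (t : ℕ → ℝ) (N : ℕ), (∀ j < r, Rep (col P j) (t j)) →
        (Ts P N = true → |trig X r a (fun j => ee (t j)) N - v * N| ≤ ζ * N) ∧
        (|trig X r a (fun j => ee (t j)) N - v * N| ≤ ζ / 2 * N → Ts P N = true) := by
  obtain ⟨A, hA⟩ := exists_nat_ge (∑ j ∈ Finset.range r, ‖a j‖)
  have hA' : ∀ j ∈ Finset.range r, ‖a j‖ ≤ A := fun j hj =>
    (Finset.single_le_sum (f := fun j => ‖a j‖) (fun _ _ => norm_nonneg _) hj).trans hA
  obtain ⟨B, hB⟩ := exists_nat_ge |v|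
  obtain ⟨E, hE⟩ : ∃ E : ℕ, E = r * (1 + 16 * A) := ⟨_, rfl⟩
  obtain ⟨K, hK⟩ := exists_nat_gt ((2 * E + 3) / (ζ / 2))
  have hK0 : (0 : ℝ) < K := lt_trans (by positivity) hK
  have hK1 : 0 < K := by exact_mod_cast hK0
  rw [div_lt_iff₀ (by positivity)] at hK
  obtain ⟨w, hw⟩ : ∃ w : ℕ, w = ⌊(K : ℝ) * (B + v)⌋₊ := ⟨_, rfl⟩
  obtain ⟨m, hm⟩ : ∃ m : ℕ, m = E + 1 + ⌈K * (ζ / 2)⌉₊ := ⟨_, rfl⟩
  let G : (ℕ → Bool) → ℕ → ℕ := fun P b =>
    ∑ j ∈ Finset.range r, apx A K (a j) (ph K (col P j) b)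
  let S : (ℕ → Bool) → ℕ → ℕ := fun P N => ∑ b ∈ Finset.range N, cond (X b) (G P b) (K * r * A)
  refine ⟨fun P N => leb (S P N + K * B * N) (K * r * A * N + w * N + m * N) &&
    leb (K * r * A * N + w * N) (S P N + K * B * N + m * N), K, fun P P' N h => ?_,
    fun Z hX => ?_, fun P t N hP => ?_⟩
  · have : S P N = S P' N := by
      refine Finset.sum_congr rfl fun b hb => congrArg (cond (X b) · (K * r * A)) ?_
      refine Finset.sum_congr rfl fun j hj => ?_
      rw [Finset.mem_range] at hb hj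
      rw [ph, ph, res_congr (D := col P j) (D' := col P' j) fun n hn => h _
        ((Nat.pair_lt_max_add_one_sq _ _).trans_le (Nat.pow_le_pow_left (by omega) 2))]
    simp only [this]
  · have hG : CI Z fun p : List Bool × ℕ => G (fun i => p.1.getD i false) p.2 := by
      refine ci_finsetSum _ _ fun j => ci_comp (ci_of_primrec (pr_apx A hK1 (a j))) ?_
      unfold ph col
      fun_prop
    have hS : CI Z fun p : List Bool × ℕ => S (fun i => p.1.getD i false) p.2 := by
      refine ci_sum (by fun_prop) (ci_cond (by fun_prop) ?_ (by fun_prop))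
      exact ci_comp hG (g := fun p : (List Bool × ℕ) × ℕ => (p.1.1, p.2)) (by fun_prop)
    have h1 : CI Z fun p : List Bool × ℕ => S (fun i => p.1.getD i false) p.2 + K * B * p.2 :=
      ci_add hS (by fun_prop)
    exact ci_and (ci_leb h1 (by fun_prop)) (ci_leb (by fun_prop) (ci_add h1 (by fun_prop)))
  · set F := trig X r a (fun j => ee (t j)) N with hF
    have h1 : |(S P N : ℝ) - K * r * A * N - K * F| ≤ E * N := by
      have e : (S P N : ℝ) - K * r * A * N - K * F = ∑ b ∈ Finset.range N,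
          if X b = true then ∑ j ∈ Finset.range r, ((apx A K (a j) (ph K (col P j) b) : ℝ) -
            K * (A + (a j * ee (t j) ^ b).re)) else 0 := by
        have : (K : ℝ) * r * A * N = ∑ _b ∈ Finset.range N, (K : ℝ) * r * A := by simp [mul_comm]
        rw [this, hF, trig, Finset.mul_sum, Nat.cast_sum, ← Finset.sum_sub_distrib,
          ← Finset.sum_sub_distrib]
        refine Finset.sum_congr rfl fun b _ => ?_
        cases X b
        · simp
        · simp only [cond_true, if_true, G, Nat.cast_sum, Complex.re_sum, Finset.sum_sub_distrib,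
            mul_add, Finset.sum_add_distrib, Finset.mul_sum, Finset.sum_const, Finset.card_range,
            nsmul_eq_mul]
          ring
      rw [e]
      refine (Finset.abs_sum_le_sum_abs _ _).trans
        ((Finset.sum_le_card_nsmul _ _ (E : ℝ) fun b _ => ?_).trans (by simp [mul_comm]))
      split_ifs
      · refine (Finset.abs_sum_le_sum_abs _ _).trans ((Finset.sum_le_card_nsmul _ _ _
          fun j hj => apx_near hK1 (hA' j hj) (hP j (Finset.mem_range.1 hj)) b).trans ?_)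
        simp [hE, mul_add]
      · simp
    have hN : (0 : ℝ) ≤ N := by positivity
    have h2 : (w : ℝ) * N ≤ K * (B + v) * N := mul_le_mul_of_nonneg_right
      (hw ▸ Nat.floor_le (mul_nonneg hK0.le (by linarith [(abs_le.1 hB).1]))) hN
    have h3 : K * (B + v) * N ≤ (w + 1) * N := mul_le_mul_of_nonneg_right
      (hw ▸ (Nat.lt_floor_add_one _).le) hN
    have h4 : (E + 1 + K * (ζ / 2)) * N ≤ m * N := mul_le_mul_of_nonneg_right
      (by rw [hm]; push_cast; linarith [Nat.le_ceil (K * (ζ / 2))]) hN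
    have h5 : ((m : ℝ) + E + 1) * N ≤ K * ζ * N := mul_le_mul_of_nonneg_right
      (by rw [hm]; push_cast
          linarith [Nat.ceil_lt_add_one (by positivity : 0 ≤ K * (ζ / 2))]) hN
    rw [abs_le] at h1
    simp only [Bool.and_eq_true, leb_true, ← Nat.cast_le (α := ℝ), abs_le]
    push_cast
    refine ⟨fun h => ⟨le_of_mul_le_mul_left ?_ hK0, le_of_mul_le_mul_left ?_ hK0⟩, fun h => ?_⟩
    · linarith [h.1, h.2, h1.1, h1.2]
    · linarith [h.1, h.2, h1.1, h1.2]
    · have h6 := mul_le_mul_of_nonneg_left h.1 hK0.le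
      have h7 := mul_le_mul_of_nonneg_left h.2 hK0.le
      constructor <;> linarith [h1.1, h1.2]

end Pool.Agent.P.MP_db6017_lc.Q1
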