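import Pool.Agent.P.MP_db6017_lc.Q1.Comp

/-!
Densities along an ultrafilter, codes of random sets.
-/

namespace Pool.Agent.P.MP_db6017_lc.Q1

open Pool.Agent.Lib.Comp Filter Topology

/-- The number of elements of `X` below `N`. -/
def cnt (X : ℕ → Bool) (N : ℕ) : ℕ := ∑ y ∈ Finset.range N, cond (X y) 1 0

/-- `X` has positive upper density. -/
def PosDens (X : ℕ → Bool) : Prop := ∃ K : ℕ, ∀ n, ∃ N, n ≤ N ∧ N ≤ K * cnt X N

/-- The density of `X` along the ultrafilter `𝒰`. -/
noncomputable def dens (𝒰 : Ultrafilter ℕ) (X : ℕ → Bool) : ℝ :=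
  limUnder (𝒰 : Filter ℕ) fun N => (cnt X N : ℝ) / N

/-- The elements `y` of `X` such that `b + y` lies in `γ` for all `b` in `F`. -/
def cut (γ X : ℕ → Bool) (F : List ℕ) (y : ℕ) : Bool := X y && F.all fun b => γ (b + y)

/-- The number of random bits that decide whether `b` belongs to the random set. -/
def lev (b : ℕ) : ℕ := 2 * b + 2

/-- The random set with code `S` at the sample point `ω`. -/
def rs (S ω : ℕ → Bool) (b : ℕ) : Bool := S (Nat.pair b (bv (res ω (lev b))))

/-- The number of strings of length `lev b` that put `b` into the random set. -/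
def cs (S : ℕ → Bool) (b : ℕ) : ℕ := ∑ a ∈ Finset.range (2 ^ lev b), cond (S (Nat.pair b a)) 1 0

/-- The probability that `b` belongs to the random set. -/
noncomputable def lam (S : ℕ → Bool) (b : ℕ) : ℝ := (cs S b : ℝ) / 2 ^ lev b

/-- The expected number of elements of `X` below `N` in the random set is at least `N / K`. -/
def Good (K : ℕ) (X S : ℕ → Bool) (N : ℕ) : Bool :=
  leb (N * 2 ^ lev N)
    (K * ∑ b ∈ Finset.range N, cond (X b) (cs S b * 2 ^ (lev N - lev b)) 0)

theorem good_iff {K N : ℕ} {X S : ℕ → Bool} : Good K X S N = true ↔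
    (N : ℝ) ≤ K * ∑ b ∈ Finset.range N, if X b = true then lam S b else 0 := by
  have h2 : (0 : ℝ) < 2 ^ lev N := by positivity
  rw [Good, leb_true, ← mul_le_mul_iff_left₀ h2, mul_assoc, Finset.sum_mul,
    ← Nat.cast_le (α := ℝ)]
  push_cast
  refine iff_of_eq (congrArg _ (congrArg _ (Finset.sum_congr rfl fun b hb => ?_)))
  have hb' : lev b ≤ lev N := by
    have := Finset.mem_range.1 hb
    unfold lev; omega
  cases X b
  · simp
  · obtain ⟨d, hd⟩ := Nat.exists_eq_add_of_le hb'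
    simp only [cond_true, if_true, lam, hd, Nat.add_sub_cancel_left, pow_add]
    push_cast
    field_simp

theorem cnt_le (X : ℕ → Bool) (N : ℕ) : cnt X N ≤ N := by
  unfold cnt
  refine (Finset.sum_le_card_nsmul _ _ 1 fun y _ => ?_).trans (by simp)
  cases X y <;> simp

theorem cnt_cast (X : ℕ → Bool) (N : ℕ) :
    (cnt X N : ℝ) = ∑ y ∈ Finset.range N, if X y = true then (1 : ℝ) else 0 := by
  unfold cnt
  push_cast
  refine Finset.sum_congr rfl fun y _ => ?_
  cases X y <;> simp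

/-- Bounded sequences converge along an ultrafilter. -/
theorem tendsto_limUnder {E : Type} [NormedAddCommGroup E] [ProperSpace E] (𝒰 : Ultrafilter ℕ)
    {f : ℕ → E} {C : ℝ} (h : ∀ N, ‖f N‖ ≤ C) :
    Tendsto f (𝒰 : Filter ℕ) (𝓝 (limUnder (𝒰 : Filter ℕ) f)) := by
  obtain ⟨x, -, hx⟩ := (isCompact_closedBall (0 : E) C).ultrafilter_le_nhds (𝒰.map f) (by
    rw [Ultrafilter.coe_map, le_principal_iff, mem_map]
    exact Eventually.of_forall fun N => by simpa using h N)
  exact tendsto_nhds_limUnder ⟨x, hx⟩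

theorem tendsto_dens (𝒰 : Ultrafilter ℕ) (X : ℕ → Bool) :
    Tendsto (fun N => (cnt X N : ℝ) / N) (𝒰 : Filter ℕ) (𝓝 (dens 𝒰 X)) := by
  refine tendsto_limUnder 𝒰 (C := 1) fun N => ?_
  rw [Real.norm_of_nonneg (by positivity)]
  exact div_le_one_of_le₀ (by exact_mod_cast cnt_le X N) (by positivity)

theorem posDens_of_dens {𝒰 : Ultrafilter ℕ} (h𝒰 : (𝒰 : Filter ℕ) ≤ atTop) {X : ℕ → Bool}
    (h : 0 < dens 𝒰 X) : PosDens X := by
  obtain ⟨K, hK⟩ := exists_nat_one_div_lt h
  refine ⟨K + 1, fun n => ?_⟩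
  obtain ⟨N, h1, h2⟩ := (((tendsto_dens 𝒰 X).eventually (lt_mem_nhds hK)).and
    (h𝒰 (eventually_ge_atTop (n + 1)))).exists
  refine ⟨N, by omega, ?_⟩
  have hN : (0 : ℝ) < N := by exact_mod_cast (by omega : 0 < N)
  rw [div_lt_div_iff₀ (by positivity) hN] at h1
  have : (N : ℝ) ≤ ((K + 1 : ℕ) : ℝ) * cnt X N := by push_cast; linarith
  exact_mod_cast this

end Pool.Agent.P.MP_db6017_lc.Q1
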