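import Pool.Agent.P.MP_db6017_lc.Q1.Comp

/-!
The basis theorem: a nonempty effectively closed class has a member that keeps admissibility.
-/

namespace Pool.Agent.P.MP_db6017_lc.Q1

open Pool.Agent.Lib.Comp Filter Topology

theorem res_near (P : ℕ → Bool) (l : ℕ) : ∀ᶠ Q in 𝓝 P, res Q l = res P l := by
  have h : ∀ i ∈ Finset.range l, ∀ᶠ Q : ℕ → Bool in 𝓝 P, Q i = P i := fun i _ =>
    ((continuous_apply i).tendsto P).eventually (p := fun b => b = P i) (by simp [nhds_discrete])
  filter_upwards [(Finset.eventually_all _).2 h] with Q hQ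
  exact res_congr fun i hi => hQ i (Finset.mem_range.2 hi)

theorem isOpen_res (B : List Bool → Prop) (l : ℕ) : IsOpen {P : ℕ → Bool | B (res P l)} :=
  isOpen_iff_mem_nhds.2 fun P hP => (res_near P l).mono fun Q hQ => by
    rw [hQ]; exact hP

/-- The class of sequences with no initial segment in `B`. -/
def cls (B : List Bool → Bool) : Set (ℕ → Bool) := {P | ∀ l, B (res P l) = false}

theorem isClosed_cls (B : List Bool → Bool) : IsClosed (cls B) := by
  have : cls B = ⋂ l, {P : ℕ → Bool | B (res P l) = true}ᶜ := by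
    ext P; simp [cls]
  rw [this]
  exact isClosed_iInter fun l => (isOpen_res (fun s => B s = true) l).isClosed_compl

/-- Every string of length `L` has an initial segment in `B`. -/
def lvl (B : List Bool → Bool) (L : ℕ) : Bool :=
  (List.range (2 ^ L)).all fun a => (List.range (L + 1)).any fun l => B (res (bits L a) l)

theorem lvl_iff {B : List Bool → Bool} {L : ℕ} :
    lvl B L = true ↔ ∀ P : ℕ → Bool, ∃ l ≤ L, B (res P l) = true := by
  simp only [lvl, List.all_eq_true, List.any_eq_true, List.mem_range, Nat.lt_succ_iff]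
  refine ⟨fun h P => ?_, fun h a _ => h _⟩
  obtain ⟨l, hl, h⟩ := h _ (bv_lt P L)
  exact ⟨l, hl, by rwa [res_congr fun i hi => bits_bv P (hi.trans_le hl)] at h⟩

theorem exists_lvl {B : List Bool → Bool} (h : ¬ (cls B).Nonempty) : ∃ L, lvl B L = true := by
  obtain ⟨t, ht⟩ := isCompact_univ.elim_finite_subcover
    (fun l => {P : ℕ → Bool | B (res P l) = true}) (isOpen_res fun s => B s = true)
    fun P _ => by
      by_contra hP
      exact h ⟨P, fun l => by simpa using fun e => hP (Set.mem_iUnion.2 ⟨l, e⟩)⟩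
  refine ⟨t.sup id, lvl_iff.2 fun P => ?_⟩
  obtain ⟨l, hl, hP⟩ := Set.mem_iUnion₂.1 (ht (Set.mem_univ P))
  exact ⟨l, Finset.le_sup (f := id) hl, hP⟩

variable {g : Bool → ℕ → ℕ} {Z : ℕ → Bool}

theorem ci_lvl {B : ℕ → List Bool → Bool} (hB : CI Z fun w : ℕ × List Bool => B w.1 w.2) :
    CI Z fun w : ℕ × ℕ => lvl (B w.1) w.2 := by
  unfold lvl
  fun_prop

theorem basis_step (hZ : Adm g Z) {B : List Bool → Bool} (hB : CI Z B) (hne : (cls B).Nonempty)
    {C : ℕ × List Bool → Bool} (hC : CI Z C) : ∃ B' : List Bool → Bool, CI Z B' ∧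
      (cls B').Nonempty ∧ cls B' ⊆ cls B ∧ ∀ P ∈ cls B', (∀ n, ∃ s, C (n, res P s) = true) →
        ∀ j, ∃ n s, s < g j n ∧ C (n, res P s) = true := by
  by_cases h : ∃ n, (cls fun τ => B τ || C (n, τ)).Nonempty
  · obtain ⟨n, hn⟩ := h
    refine ⟨_, by fun_prop, hn, fun P hP l => (Bool.or_eq_false_iff.1 (hP l)).1,
      fun P hP ht => ?_⟩
    obtain ⟨s, hs⟩ := ht n
    rw [(Bool.or_eq_false_iff.1 (hP s)).2] at hs
    exact absurd hs (by simp)
  · refine ⟨B, hB, hne, subset_rfl, fun P hP _ j => ?_⟩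
    obtain ⟨n, L, hL, h1⟩ := hZ (fun n L => lvl (fun τ => B τ || C (n, τ)) L)
      (by unfold lvl; fun_prop) (fun n => exists_lvl fun e => h ⟨n, e⟩) j
    obtain ⟨l, hl, h2⟩ := lvl_iff.1 h1 P
    rw [hP l, Bool.false_or] at h2
    exact ⟨n, l, hl.trans_lt hL, h2⟩

theorem basis_cls (hZ : Adm g Z) {B : List Bool → Bool} (hB : CI Z B) (hne : (cls B).Nonempty) :
    ∃ P ∈ cls B, Adm g (J Z P) := by
  obtain ⟨en, h1, h2⟩ := exists_enum (ℕ × List Bool) Z
  have step : ∀ (k : ℕ) (b : {B : List Bool → Bool // CI Z B ∧ (cls B).Nonempty}),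
      ∃ b' : {B : List Bool → Bool // CI Z B ∧ (cls B).Nonempty}, cls b'.1 ⊆ cls b.1 ∧
        ∀ P ∈ cls b'.1, (∀ n, ∃ s, en k (n, res P s) = true) →
          ∀ j, ∃ n s, s < g j n ∧ en k (n, res P s) = true := by
    intro k b
    obtain ⟨B', a1, a2, a3, a4⟩ := basis_step hZ b.2.1 b.2.2 (h1 k)
    exact ⟨⟨B', a1, a2⟩, a3, a4⟩
  choose nx hsub hreq using step
  let sq : ℕ → {B : List Bool → Bool // CI Z B ∧ (cls B).Nonempty} :=
    fun k => Nat.rec ⟨B, hB, hne⟩ nx k
  obtain ⟨P, hP⟩ := IsCompact.nonempty_iInter_of_sequence_nonempty_isCompact_isClosed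
    (fun k => cls (sq k).1) (fun k => hsub k (sq k)) (fun k => (sq k).2.2)
    (isClosed_cls _).isCompact fun k => isClosed_cls _
  rw [Set.mem_iInter] at hP
  refine ⟨P, hP 0, adm_join fun C hC => ?_⟩
  obtain ⟨k, rfl⟩ := h2 C hC
  exact hreq k (sq k) P (hP (k + 1))

/-- A uniform sequence of effectively closed classes: some class has a member that keeps
admissibility, or all are empty and this is seen at a computable stage. -/
theorem basis (hZ : Adm g Z) (W : (ℕ → Bool) → ℕ → ℕ → Bool) (bd : ℕ → ℕ) (hbd : CI Z bd)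
    (hloc : ∀ P P' n t, (∀ i < bd t, P i = P' i) → W P n t = W P' n t)
    (hW : CI Z fun w : List Bool × ℕ × ℕ => W (fun i => w.1.getD i false) w.2.1 w.2.2) :
    (∃ n P, (∀ t, W P n t = false) ∧ Adm g (J Z P)) ∨
    ∃ R : ℕ → ℕ → Bool, CI Z (fun w : ℕ × ℕ => R w.1 w.2) ∧ (∀ n, ∃ v, R n v = true) ∧
      ∀ n v, R n v = true → ∀ P, ∃ t ≤ v, W P n t = true := by
  let B : ℕ → List Bool → Bool := fun n τ => (List.range τ.length).any fun t =>
    leb (bd t) τ.length && W (fun i => τ.getD i false) n t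
  have hB : CI Z fun w : ℕ × List Bool => B w.1 w.2 := by
    refine ci_any (by fun_prop) (ci_and (by fun_prop) ?_)
    exact ci_comp hW (g := fun p : (ℕ × List Bool) × ℕ => (p.1.2, p.1.1, p.2)) (by fun_prop)
  have key : ∀ n P l, B n (res P l) = true ↔ ∃ t < l, bd t ≤ l ∧ W P n t = true := by
    intro n P l
    simp only [B, length_res, List.any_eq_true, List.mem_range, Bool.and_eq_true, leb_true]
    refine exists_congr fun t => and_congr_right fun _ => and_congr_right fun h => ?_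
    rw [hloc _ P n t fun i hi => getD_res P (hi.trans_le h) false]
  by_cases h : ∃ n, (cls (B n)).Nonempty
  · obtain ⟨n, hn⟩ := h
    obtain ⟨P, hP, ha⟩ := basis_cls hZ (B := B n)
      (ci_comp hB (g := fun τ => (n, τ)) (by fun_prop)) hn
    refine Or.inl ⟨n, P, fun t => ?_, ha⟩
    by_contra ht
    have := (key n P (max (bd t) t + 1)).2 ⟨t, by omega, by omega, by simpa using ht⟩
    rw [hP] at this
    exact absurd this (by simp)
  · refine Or.inr ⟨fun n L => lvl (B n) L, ci_lvl hB, fun n => exists_lvl fun e => h ⟨n, e⟩,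
      fun n v hv P => ?_⟩
    obtain ⟨l, hl, h1⟩ := lvl_iff.1 hv P
    obtain ⟨t, ht, -, h2⟩ := (key n P l).1 h1
    exact ⟨t, by omega, h2⟩

end Pool.Agent.P.MP_db6017_lc.Q1
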