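import Pool.Agent.P.MP_db6017_lc.Q1.Base

/-!
Fourier coefficients along an ultrafilter; Bessel's inequality.
-/

namespace Pool.Agent.P.MP_db6017_lc.Q1

open Filter Topology ComplexConjugate

/-- The Fourier coefficient of `x` at `z` along `𝒰`. -/
noncomputable def coef (𝒰 : Ultrafilter ℕ) (x : ℕ → ℝ) (z : ℂ) : ℂ :=
  limUnder (𝒰 : Filter ℕ) fun N : ℕ => (∑ b ∈ Finset.range N, (x b : ℂ) * z ^ b) / N

theorem tendsto_coef (𝒰 : Ultrafilter ℕ) {x : ℕ → ℝ} (hx : ∀ t, |x t| ≤ 1) {z : ℂ}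
    (hz : ‖z‖ = 1) : Tendsto (fun N : ℕ => (∑ b ∈ Finset.range N, (x b : ℂ) * z ^ b) / N)
      (𝒰 : Filter ℕ) (𝓝 (coef 𝒰 x z)) := by
  refine tendsto_limUnder 𝒰 (C := 1) fun N => ?_
  rw [norm_div, Complex.norm_natCast]
  refine div_le_one_of_le₀ ((norm_sum_le _ _).trans ?_) (by positivity)
  refine (Finset.sum_le_card_nsmul _ _ 1 fun b _ => ?_).trans (by simp)
  simpa [hz] using hx b

theorem tendsto_geom {w : ℂ} (hw : ‖w‖ = 1) (h1 : w ≠ 1) :
    Tendsto (fun N : ℕ => (∑ b ∈ Finset.range N, w ^ b) / N) atTop (𝓝 0) := by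
  refine squeeze_zero_norm (fun N => ?_) (tendsto_const_div_atTop_nhds_zero_nat (2 / ‖w - 1‖))
  rw [geom_sum_eq h1, norm_div, norm_div, Complex.norm_natCast]
  gcongr
  exact (norm_sub_le _ _).trans (by simp [hw]; norm_num)

theorem tendsto_orth {z w : ℂ} (hz : ‖z‖ = 1) (hw : ‖w‖ = 1) :
    Tendsto (fun N : ℕ => (∑ b ∈ Finset.range N, (z * conj w) ^ b) / N) atTop
      (𝓝 (if z = w then 1 else 0)) := by
  have h : w * conj w = 1 := by rw [Complex.mul_conj, Complex.normSq_eq_norm_sq, hw]; simp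
  split_ifs with e
  · rw [e, h]
    refine tendsto_const_nhds.congr' ((eventually_gt_atTop 0).mono fun N hN => ?_)
    have : (N : ℂ) ≠ 0 := by exact_mod_cast hN.ne'
    simp [this]
  · refine tendsto_geom (by simp [hz, hw]) fun h1 => e ?_
    calc z = z * (w * conj w) := by rw [h, mul_one]
      _ = w * (z * conj w) := by ring
      _ = w := by rw [h1, mul_one]

theorem bessel (𝒰 : Ultrafilter ℕ) (h𝒰 : (𝒰 : Filter ℕ) ≤ atTop) {x : ℕ → ℝ}
    (hx : ∀ t, |x t| ≤ 1) (T : Finset ℂ) (hT : ∀ z ∈ T, ‖z‖ = 1) :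
    ∑ z ∈ T, ‖coef 𝒰 x z‖ ^ 2 ≤ 1 := by
  set c := coef 𝒰 x
  have hcc : ∀ z, conj (c z) * c z = ((‖c z‖ ^ 2 : ℝ) : ℂ) := fun z => by
    rw [mul_comm, Complex.mul_conj, Complex.normSq_eq_norm_sq]
  let q : ℕ → ℂ := fun b => ∑ z ∈ T, conj (c z) * z ^ b
  have h1 : Tendsto (fun N : ℕ => (∑ b ∈ Finset.range N, (x b : ℂ) * q b) / N) (𝒰 : Filter ℕ)
      (𝓝 ((∑ z ∈ T, ‖c z‖ ^ 2 : ℝ) : ℂ)) := by
    rw [Complex.ofReal_sum]
    simp only [← hcc]
    refine (tendsto_finsetSum T fun z hz =>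
      (tendsto_coef 𝒰 hx (hT z hz)).const_mul (conj (c z))).congr fun N => ?_
    simp only [q, Finset.mul_sum, Finset.sum_div]
    rw [Finset.sum_comm]
    exact Finset.sum_congr rfl fun b _ => Finset.sum_congr rfl fun z _ => by ring
  have h2 : Tendsto (fun N : ℕ => (∑ b ∈ Finset.range N, q b * conj (q b)) / N) (𝒰 : Filter ℕ)
      (𝓝 ((∑ z ∈ T, ‖c z‖ ^ 2 : ℝ) : ℂ)) := by
    have e : ((∑ z ∈ T, ‖c z‖ ^ 2 : ℝ) : ℂ) =
        ∑ z ∈ T, ∑ w ∈ T, conj (c z) * c w * if z = w then 1 else 0 := by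
      rw [Complex.ofReal_sum]
      refine Finset.sum_congr rfl fun z hz => ?_
      simp only [mul_ite, mul_one, mul_zero, Finset.sum_ite_eq, if_pos hz, hcc]
    rw [e]
    refine ((tendsto_finsetSum T fun z hz => tendsto_finsetSum T fun w hw =>
      (tendsto_orth (hT z hz) (hT w hw)).const_mul (conj (c z) * c w)).mono_left h𝒰).congr
      fun N => ?_
    simp only [q, map_sum, map_mul, map_pow, Complex.conj_conj, Finset.mul_sum, Finset.sum_div,
      Finset.sum_mul]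
    rw [Finset.sum_comm]
    symm
    rw [Finset.sum_comm]
    refine Finset.sum_congr rfl fun w _ => ?_
    rw [Finset.sum_comm]
    exact Finset.sum_congr rfl fun z _ => Finset.sum_congr rfl fun b _ => by ring
  have h3 := (Complex.continuous_re.tendsto _).comp ((h1.const_mul 2).sub h2)
  have h4 := le_of_tendsto' (b := (1 : ℝ)) h3 fun N => by
    simp only [Function.comp, ← mul_div_assoc, ← sub_div, Complex.div_natCast_re,
      Finset.mul_sum, ← Finset.sum_sub_distrib, Complex.re_sum]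
    refine div_le_one_of_le₀ ?_ (by positivity)
    refine (Finset.sum_le_card_nsmul _ _ 1 fun b _ => ?_).trans (by simp)
    have := abs_le.1 (hx b)
    simp only [Complex.sub_re, Complex.mul_re, Complex.mul_im, Complex.ofReal_re, Complex.ofReal_im,
      Complex.conj_re, Complex.conj_im, Complex.re_ofNat, Complex.im_ofNat]
    nlinarith [sq_nonneg (x b - (q b).re), sq_nonneg (q b).im]
  simp only [Complex.sub_re, Complex.mul_re, Complex.ofReal_re, Complex.ofReal_im,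
    Complex.re_ofNat, Complex.im_ofNat] at h4
  linarith

theorem finite_coef (𝒰 : Ultrafilter ℕ) (h𝒰 : (𝒰 : Filter ℕ) ≤ atTop) {x : ℕ → ℝ}
    (hx : ∀ t, |x t| ≤ 1) {δ : ℝ} (hδ : 0 < δ) :
    {z : ℂ | ‖z‖ = 1 ∧ δ ≤ ‖coef 𝒰 x z‖}.Finite := by
  by_contra h
  obtain ⟨m, hm⟩ := exists_nat_gt (1 / δ ^ 2)
  obtain ⟨T, hT, rfl⟩ := Set.Infinite.exists_subset_card_eq h m
  have h1 := bessel 𝒰 h𝒰 hx T fun z hz => (hT hz).1
  have h2 := Finset.card_nsmul_le_sum T (fun z => ‖coef 𝒰 x z‖ ^ 2) (δ ^ 2)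
    fun z hz => pow_le_pow_left₀ hδ.le (hT hz).2 2
  rw [div_lt_iff₀ (by positivity)] at hm
  rw [nsmul_eq_mul] at h2
  linarith

end Pool.Agent.P.MP_db6017_lc.Q1
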