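import Pool.Agent.Lib.Comp.Approx

/-!
Total functions computable in an oracle, with `fun_prop` support; binary strings of a given
length; admissible oracles (oracles that keep two functions hyperimmune).
-/

namespace Pool.Agent.P.MP_db6017_lc.Q1

open Pool.Agent.Lib.Comp Encodable

/-- An oracle, wrapped. -/
structure Orc where
  val : ℕ → Bool

/-- `f` is a total function computable in the oracle. -/
@[fun_prop] def CI0 {α β : Type} [Primcodable α] [Primcodable β] (o : Orc) (f : α → β) :
    Prop := ComputableIn {chi o.val} f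

/-- `f` is a total function computable in the oracle `Z`. -/
abbrev CI {α β : Type} [Primcodable α] [Primcodable β] (Z : ℕ → Bool) (f : α → β) : Prop :=
  CI0 ⟨Z⟩ f

section ci

variable {α β γ σ : Type} [Primcodable α] [Primcodable β] [Primcodable γ] [Primcodable σ]
  {Z : ℕ → Bool}

@[fun_prop] theorem ci_of_primrec {f : α → β} (hf : Primrec f) : CI Z f := hf.computableIn

@[fun_prop] theorem ci_id : CI Z (fun x : α => x) := ci_of_primrec Primrec.id

@[fun_prop] theorem ci_const (b : β) : CI Z (fun _ : α => b) := ci_of_primrec (Primrec.const b)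

@[fun_prop] theorem ci_comp {f : β → γ} {g : α → β} (hf : CI Z f) (hg : CI Z g) :
    CI Z (fun x => f (g x)) := by
  unfold CI CI0 ComputableIn RecursiveIn at *
  refine (Nat.RecursiveIn.comp hf hg).of_eq fun n => ?_
  cases h : (decode n : Option α) <;> simp [h]

@[fun_prop] theorem ci_pair {f : α → β} {g : α → γ} (hf : CI Z f) (hg : CI Z g) :
    CI Z (fun x => (f x, g x)) := by
  unfold CI CI0 ComputableIn RecursiveIn at *
  refine (Nat.RecursiveIn.pair hf hg).of_eq fun n => ?_
  cases h : (decode n : Option α) <;> simp [h, Seq.seq]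

@[fun_prop] theorem ci_fst {f : α → β × γ} (hf : CI Z f) : CI Z (fun x => (f x).1) :=
  ci_comp (ci_of_primrec Primrec.fst) hf

@[fun_prop] theorem ci_snd {f : α → β × γ} (hf : CI Z f) : CI Z (fun x => (f x).2) :=
  ci_comp (ci_of_primrec Primrec.snd) hf

@[fun_prop] theorem pr_pow {f g : α → ℕ} (hf : Primrec f) (hg : Primrec g) :
    Primrec (fun x => f x ^ g x) := (Primrec₂.unpaired'.1 Nat.Primrec.pow).comp hf hg

@[fun_prop] theorem ci_succ {f : α → ℕ} (hf : CI Z f) : CI Z (fun x => (f x).succ) :=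
  ci_comp (ci_of_primrec (pr_succ Primrec.id)) hf

@[fun_prop] theorem ci_unpair {f : α → ℕ} (hf : CI Z f) : CI Z (fun x => Nat.unpair (f x)) :=
  ci_comp (ci_of_primrec (pr_unpair Primrec.id)) hf

@[fun_prop] theorem ci_bodd {f : α → ℕ} (hf : CI Z f) : CI Z (fun x => Nat.bodd (f x)) :=
  ci_comp (ci_of_primrec (pr_bodd Primrec.id)) hf

@[fun_prop] theorem ci_div2 {f : α → ℕ} (hf : CI Z f) : CI Z (fun x => Nat.div2 (f x)) :=
  ci_comp (ci_of_primrec (pr_div2 Primrec.id)) hf

@[fun_prop] theorem ci_not {f : α → Bool} (hf : CI Z f) : CI Z (fun x => !f x) :=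
  ci_comp (ci_of_primrec (pr_not Primrec.id)) hf

@[fun_prop] theorem ci_some {f : α → β} (hf : CI Z f) : CI Z (fun x => some (f x)) :=
  ci_comp (ci_of_primrec (pr_some Primrec.id)) hf

@[fun_prop] theorem ci_isSome {f : α → Option β} (hf : CI Z f) : CI Z (fun x => (f x).isSome) :=
  ci_comp (ci_of_primrec (pr_isSome Primrec.id)) hf

@[fun_prop] theorem ci_length {f : α → List β} (hf : CI Z f) : CI Z (fun x => (f x).length) :=
  ci_comp (ci_of_primrec (pr_length Primrec.id)) hf

@[fun_prop] theorem ci_range {f : α → ℕ} (hf : CI Z f) : CI Z (fun x => List.range (f x)) :=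
  ci_comp (ci_of_primrec (pr_range Primrec.id)) hf

@[fun_prop] theorem ci_encode {f : α → β} (hf : CI Z f) : CI Z (fun x => encode (f x)) :=
  ci_comp (ci_of_primrec (pr_encode Primrec.id)) hf

@[fun_prop] theorem ci_decode {f : α → ℕ} (hf : CI Z f) : CI Z (fun x => (decode (f x) : Option β)) :=
  ci_comp (ci_of_primrec (pr_decode Primrec.id)) hf

@[fun_prop] theorem ci_add {f : α → ℕ} {g : α → ℕ} (hf : CI Z f) (hg : CI Z g) :
    CI Z (fun x => f x + g x) :=
  ci_comp (ci_of_primrec (pr_add Primrec.fst Primrec.snd)) (ci_pair hf hg)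

@[fun_prop] theorem ci_sub {f : α → ℕ} {g : α → ℕ} (hf : CI Z f) (hg : CI Z g) :
    CI Z (fun x => f x - g x) :=
  ci_comp (ci_of_primrec (pr_sub Primrec.fst Primrec.snd)) (ci_pair hf hg)

@[fun_prop] theorem ci_mul {f : α → ℕ} {g : α → ℕ} (hf : CI Z f) (hg : CI Z g) :
    CI Z (fun x => f x * g x) :=
  ci_comp (ci_of_primrec (pr_mul Primrec.fst Primrec.snd)) (ci_pair hf hg)

@[fun_prop] theorem ci_div {f : α → ℕ} {g : α → ℕ} (hf : CI Z f) (hg : CI Z g) :
    CI Z (fun x => f x / g x) :=
  ci_comp (ci_of_primrec (pr_div Primrec.fst Primrec.snd)) (ci_pair hf hg)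

@[fun_prop] theorem ci_mod {f : α → ℕ} {g : α → ℕ} (hf : CI Z f) (hg : CI Z g) :
    CI Z (fun x => f x % g x) :=
  ci_comp (ci_of_primrec (pr_mod Primrec.fst Primrec.snd)) (ci_pair hf hg)

@[fun_prop] theorem ci_pow {f : α → ℕ} {g : α → ℕ} (hf : CI Z f) (hg : CI Z g) :
    CI Z (fun x => f x ^ g x) :=
  ci_comp (ci_of_primrec (pr_pow Primrec.fst Primrec.snd)) (ci_pair hf hg)

@[fun_prop] theorem ci_max {f : α → ℕ} {g : α → ℕ} (hf : CI Z f) (hg : CI Z g) :
    CI Z (fun x => max (f x) (g x)) :=
  ci_comp (ci_of_primrec (pr_max Primrec.fst Primrec.snd)) (ci_pair hf hg)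

@[fun_prop] theorem ci_min {f : α → ℕ} {g : α → ℕ} (hf : CI Z f) (hg : CI Z g) :
    CI Z (fun x => min (f x) (g x)) :=
  ci_comp (ci_of_primrec (pr_min Primrec.fst Primrec.snd)) (ci_pair hf hg)

@[fun_prop] theorem ci_natPair {f : α → ℕ} {g : α → ℕ} (hf : CI Z f) (hg : CI Z g) :
    CI Z (fun x => Nat.pair (f x) (g x)) :=
  ci_comp (ci_of_primrec (pr_natPair Primrec.fst Primrec.snd)) (ci_pair hf hg)

@[fun_prop] theorem ci_and {f : α → Bool} {g : α → Bool} (hf : CI Z f) (hg : CI Z g) :
    CI Z (fun x => f x && g x) :=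
  ci_comp (ci_of_primrec (pr_and Primrec.fst Primrec.snd)) (ci_pair hf hg)

@[fun_prop] theorem ci_or {f : α → Bool} {g : α → Bool} (hf : CI Z f) (hg : CI Z g) :
    CI Z (fun x => f x || g x) :=
  ci_comp (ci_of_primrec (pr_or Primrec.fst Primrec.snd)) (ci_pair hf hg)

@[fun_prop] theorem ci_ltb {f : α → ℕ} {g : α → ℕ} (hf : CI Z f) (hg : CI Z g) :
    CI Z (fun x => ltb (f x) (g x)) :=
  ci_comp (ci_of_primrec (pr_ltb Primrec.fst Primrec.snd)) (ci_pair hf hg)

@[fun_prop] theorem ci_leb {f : α → ℕ} {g : α → ℕ} (hf : CI Z f) (hg : CI Z g) :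
    CI Z (fun x => leb (f x) (g x)) :=
  ci_comp (ci_of_primrec (pr_leb Primrec.fst Primrec.snd)) (ci_pair hf hg)

@[fun_prop] theorem ci_optGetD {f : α → Option β} {g : α → β} (hf : CI Z f) (hg : CI Z g) :
    CI Z (fun x => (f x).getD (g x)) :=
  ci_comp (ci_of_primrec (pr_optGetD Primrec.fst Primrec.snd)) (ci_pair hf hg)

@[fun_prop] theorem ci_cons {f : α → β} {g : α → List β} (hf : CI Z f) (hg : CI Z g) :
    CI Z (fun x => f x :: g x) :=
  ci_comp (ci_of_primrec (pr_cons Primrec.fst Primrec.snd)) (ci_pair hf hg)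

@[fun_prop] theorem ci_append {f : α → List β} {g : α → List β} (hf : CI Z f) (hg : CI Z g) :
    CI Z (fun x => f x ++ g x) :=
  ci_comp (ci_of_primrec (pr_append Primrec.fst Primrec.snd)) (ci_pair hf hg)

@[fun_prop] theorem ci_getElem? {f : α → List β} {g : α → ℕ} (hf : CI Z f) (hg : CI Z g) :
    CI Z (fun x => (f x)[g x]?) :=
  ci_comp (ci_of_primrec (pr_getElem? Primrec.fst Primrec.snd)) (ci_pair hf hg)

@[fun_prop] theorem ci_take {f : α → ℕ} {g : α → List β} (hf : CI Z f) (hg : CI Z g) :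
    CI Z (fun x => (g x).take (f x)) :=
  ci_comp (ci_of_primrec (pr_take Primrec.fst Primrec.snd)) (ci_pair hf hg)

@[fun_prop] theorem ci_eqb [DecidableEq β] {f g : α → β} (hf : CI Z f) (hg : CI Z g) :
    CI Z (fun x => eqb (f x) (g x)) :=
  ci_comp (ci_of_primrec (pr_eqb Primrec.fst Primrec.snd)) (ci_pair hf hg)

@[fun_prop] theorem ci_cond {c : α → Bool} {f g : α → σ} (hc : CI Z c) (hf : CI Z f)
    (hg : CI Z g) : CI Z (fun x => cond (c x) (f x) (g x)) :=
  ci_comp (f := fun p : Bool × σ × σ => cond p.1 p.2.1 p.2.2) (ci_of_primrec (by fun_prop))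
    (ci_pair hc (ci_pair hf hg))

@[fun_prop] theorem ci_getD {f : α → List β} {g : α → ℕ} {d : α → β} (hf : CI Z f)
    (hg : CI Z g) (hd : CI Z d) : CI Z (fun x => (f x).getD (g x) (d x)) :=
  ci_comp (f := fun p : List β × ℕ × β => p.1.getD p.2.1 p.2.2) (ci_of_primrec (by fun_prop))
    (ci_pair hf (ci_pair hg hd))

@[fun_prop] theorem ci_U {e s : α → ℕ} {t : α → List Bool} {z : α → ℕ} (he : CI Z e)
    (hs : CI Z s) (ht : CI Z t) (hz : CI Z z) : CI Z (fun a => U (e a) (s a) (t a) (z a)) :=
  ci_comp (f := fun p : (ℕ × ℕ) × List Bool × ℕ => U p.1.1 p.1.2 p.2.1 p.2.2)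
    (ci_of_primrec (by fun_prop)) (ci_pair (ci_pair he hs) (ci_pair ht hz))

theorem CI.of_eq {f g : α → β} (hf : CI Z f) (h : ∀ x, f x = g x) : CI Z g :=
  (funext h : f = g) ▸ hf

theorem CI.mono {f : α → β} {Y : ℕ → Bool} (hf : CI Y f) (h : TLe Y Z) : CI Z f :=
  RecursiveIn.subst hf fun g hg => by
    obtain rfl : g = chi Y := hg
    exact h

theorem ci_iff_tle {X : ℕ → Bool} : CI Z X ↔ TLe X Z := by
  constructor
  · intro h
    have h1 : CI Z (fun n => cond (X n) 1 0 : ℕ → ℕ) :=
      ci_comp (f := fun b : Bool => (cond b 1 0 : ℕ)) (ci_of_primrec (by fun_prop)) h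
    exact h1
  · intro h
    have h1 : CI Z (fun n => cond (X n) 1 0 : ℕ → ℕ) := h
    exact (ci_comp (f := fun m : ℕ => eqb m 1) (ci_of_primrec (by fun_prop)) h1).of_eq
      fun n => eqb_cond _

theorem ci_self (Z : ℕ → Bool) : CI Z Z := ci_iff_tle.2 (TLe.refl Z)

theorem CI.trans {f : α → β} {Y : ℕ → Bool} (hf : CI Y f) (h : CI Z Y) : CI Z f :=
  hf.mono (ci_iff_tle.1 h)

theorem ci_left (a b : ℕ → Bool) : CI (J a b) a := ci_iff_tle.2 (TLe.left a b)

theorem ci_right (a b : ℕ → Bool) : CI (J a b) b := ci_iff_tle.2 (TLe.right a b)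

theorem ci_join {a b : ℕ → Bool} (ha : CI Z a) (hb : CI Z b) : CI Z (J a b) :=
  ci_iff_tle.2 (TLe.join (ci_iff_tle.1 ha) (ci_iff_tle.1 hb))

@[fun_prop] theorem ci_natRec {f : α → ℕ} {d : α → σ} {g : α → ℕ → σ → σ} (hf : CI Z f)
    (hd : CI Z d) (hg : CI Z (fun p : α × ℕ × σ => g p.1 p.2.1 p.2.2)) :
    CI Z (fun x => (Nat.rec (motive := fun _ => σ) (d x) (g x) (f x) : σ)) := by
  have h : CI Z (fun p : α × ℕ => (Nat.rec (motive := fun _ => σ) (d p.1) (g p.1) p.2 : σ)) := by
    unfold CI CI0 ComputableIn RecursiveIn at *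
    refine (Nat.RecursiveIn.prec hd hg).of_eq fun n => ?_
    simp only [decode_prod_val]
    generalize n.unpair.2 = k
    cases h : (decode n.unpair.1 : Option α) with
    | none => induction k <;> simp_all
    | some a =>
      induction k with
      | zero => simp [h]
      | succ k ih =>
        simp only [h, Part.coe_some, Part.bind_some, Part.map_some, Part.bind_eq_bind,
          Nat.unpair_pair, decode_nat, Option.map_some, Option.bind_some] at ih ⊢
        rw [ih]
        simp [h]
  exact ci_comp h (ci_pair ci_id hf)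

@[fun_prop] theorem ci_optElim {f : α → Option β} {d : α → σ} {g : α → β → σ} (hf : CI Z f)
    (hd : CI Z d) (hg : CI Z (fun p : α × β => g p.1 p.2)) :
    CI Z (fun x => (f x).elim (d x) (g x)) := by
  have h0 : CI Z (fun p : α × ℕ => (decode p.2 : Option β).elim (d p.1) (g p.1)) := by
    have h1 : CI Z (fun p : α × ℕ => (Nat.rec (motive := fun _ => σ) (d p.1)
      (fun _ r => r) 0 : σ)) := ci_comp hd (ci_fst ci_id)
    unfold CI CI0 ComputableIn RecursiveIn at *
    have hs : Nat.RecursiveIn {chi Z} (fun n => Part.some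
        (cond ((decode n.unpair.2 : Option β).isSome) 1 0 : ℕ)) := totIn_primrec (by fun_prop)
    have hd' := hd.comp (totIn_primrec (O := {chi Z}) (f := fun n => n.unpair.1) (by fun_prop))
    have hg' := hg.comp (totIn_primrec (O := {chi Z}) (f := fun n => n.unpair.1) (by fun_prop))
    have h2 := (Nat.RecursiveIn.prec hd' hg').comp
      ((totIn_primrec (O := {chi Z}) (f := fun n => n) (by fun_prop)).pair hs)
    refine h2.of_eq fun n => ?_
    cases h : (decode n.unpair.1 : Option α) <;> cases h' : (decode n.unpair.2 : Option β) <;>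
      simp [h, h', Seq.seq]
  have h3 : CI Z (fun x => (Nat.rec (motive := fun _ => σ) (d x)
      (fun k _ => (decode k : Option β).elim (d x) (g x)) (encode (f x)) : σ)) :=
    ci_natRec (ci_comp (ci_of_primrec Primrec.encode) hf) hd
      (ci_comp h0 (ci_pair (ci_fst ci_id) (ci_fst (ci_snd ci_id))))
  refine h3.of_eq fun x => ?_
  cases f x <;> simp

@[fun_prop] theorem ci_foldl {f : α → List β} {d : α → σ} {g : α → σ → β → σ} (hf : CI Z f)
    (hd : CI Z d) (hg : CI Z (fun p : α × σ × β => g p.1 p.2.1 p.2.2)) :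
    CI Z (fun x => (f x).foldl (g x) (d x)) := by
  have h : CI Z (fun x => (Nat.rec (motive := fun _ => σ) (d x)
      (fun k r => ((f x)[k]?).elim r (g x r)) (f x).length : σ)) := by
    refine ci_natRec (by fun_prop) hd (ci_optElim (by fun_prop) (by fun_prop) ?_)
    exact ci_comp hg (g := fun q : (α × ℕ × σ) × β => (q.1.1, q.1.2.2, q.2)) (by fun_prop)
  refine h.of_eq fun x => ?_
  have key : ∀ k ≤ (f x).length, (Nat.rec (motive := fun _ => σ) (d x)
      (fun k r => ((f x)[k]?).elim r (g x r)) k : σ) = ((f x).take k).foldl (g x) (d x) := by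
    intro k hk
    induction k with
    | zero => rfl
    | succ k ih =>
      rw [List.take_add_one, List.foldl_append, ← ih (by omega)]
      simp [List.getElem?_eq_getElem (show k < (f x).length by omega)]
  rw [key _ le_rfl, List.take_length]

@[fun_prop] theorem ci_map {f : α → List β} {g : α → β → σ} (hf : CI Z f)
    (hg : CI Z (fun p : α × β => g p.1 p.2)) : CI Z (fun x => (f x).map (g x)) := by
  have h : CI Z (fun x => (f x).foldl (fun r b => r ++ [g x b]) []) := by
    refine ci_foldl hf (ci_const _) ?_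
    have h1 : CI Z (fun p : α × List σ × β => g p.1 p.2.2) :=
      ci_comp hg (g := fun q : α × List σ × β => (q.1, q.2.2)) (by fun_prop)
    exact ci_comp (f := fun q : List σ × σ => q.1 ++ [q.2]) (ci_of_primrec (by fun_prop))
      (ci_pair (by fun_prop) h1)
  refine h.of_eq fun x => ?_
  have key : ∀ (l : List β) (r : List σ),
      l.foldl (fun r b => r ++ [g x b]) r = r ++ l.map (g x) := by
    intro l
    induction l with
    | nil => simp
    | cons b l ih => intro r; simp [ih]
  rw [key, List.nil_append]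

@[fun_prop] theorem ci_any {f : α → List β} {g : α → β → Bool} (hf : CI Z f)
    (hg : CI Z (fun p : α × β => g p.1 p.2)) : CI Z (fun x => (f x).any (g x)) :=
  (ci_comp (f := fun l : List Bool => l.any id) (ci_of_primrec (by fun_prop))
    (ci_map hf hg)).of_eq fun x => by simp

@[fun_prop] theorem ci_all {f : α → List β} {g : α → β → Bool} (hf : CI Z f)
    (hg : CI Z (fun p : α × β => g p.1 p.2)) : CI Z (fun x => (f x).all (g x)) :=
  (ci_comp (f := fun l : List Bool => l.all id) (ci_of_primrec (by fun_prop))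
    (ci_map hf hg)).of_eq fun x => by simp

theorem sum_range_eq (f : ℕ → ℕ) (n : ℕ) :
    ∑ i ∈ Finset.range n, f i = ((List.range n).map f).foldl (fun r b => r + b) 0 := by
  induction n with
  | zero => rfl
  | succ n ih => rw [Finset.sum_range_succ, List.range_succ, List.map_append, List.foldl_append, ih]; rfl

@[fun_prop] theorem pr_sum {n : α → ℕ} {g : α → ℕ → ℕ} (hn : Primrec n)
    (hg : Primrec (fun p : α × ℕ => g p.1 p.2)) :
    Primrec (fun x => ∑ i ∈ Finset.range (n x), g x i) := by
  simp only [sum_range_eq]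
  fun_prop

@[fun_prop] theorem ci_sum {n : α → ℕ} {g : α → ℕ → ℕ} (hn : CI Z n)
    (hg : CI Z (fun p : α × ℕ => g p.1 p.2)) :
    CI Z (fun x => ∑ i ∈ Finset.range (n x), g x i) := by
  simp only [sum_range_eq]
  exact ci_comp (f := fun l : List ℕ => l.foldl (fun r b => r + b) 0)
    (ci_of_primrec (by fun_prop)) (ci_map (by fun_prop) hg)

@[fun_prop] theorem ci_res {D : α → ℕ → Bool} {k : α → ℕ}
    (hD : CI Z (fun p : α × ℕ => D p.1 p.2)) (hk : CI Z k) : CI Z (fun a => res (D a) (k a)) := by
  unfold res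
  fun_prop

/-- A relation with two complementary semi-decisions in the oracle is computable in it. -/
theorem ci_of_delta {Y : ℕ → Bool} {p q : ℕ → ℕ → Bool} (hp : CI Z fun w : ℕ × ℕ => p w.1 w.2)
    (hq : CI Z fun w : ℕ × ℕ => q w.1 w.2) (h1 : ∀ a, Y a = true ↔ ∃ b, p a b = true)
    (h2 : ∀ a, Y a = false ↔ ∃ b, q a b = true) : CI Z Y := by
  have hp' : CI Z fun z : ℕ => p z.unpair.1 z.unpair.2 := by fun_prop
  have hq' : CI Z fun z : ℕ => q z.unpair.1 z.unpair.2 := by fun_prop
  refine ci_iff_tle.2 (TLe.of_search₂ (ci_iff_tle.1 hp') (ci_iff_tle.1 hq')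
    (fun s t z => cond ((List.range s.length).any fun b => s.getD (Nat.pair z b) false)
      (some true) (cond ((List.range t.length).any fun b => t.getD (Nat.pair z b) false)
        (some false) none)) (by fun_prop) fun z => ?_)
  have key : ∀ (r : ℕ → ℕ → Bool) (k : ℕ), ((List.range (res (fun z : ℕ =>
      r z.unpair.1 z.unpair.2) k).length).any fun b => (res (fun z : ℕ =>
      r z.unpair.1 z.unpair.2) k).getD (Nat.pair z b) false) = true ↔
      ∃ b, Nat.pair z b < k ∧ r z b = true := by
    intro r k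
    simp only [length_res, List.any_eq_true, List.mem_range]
    constructor
    · rintro ⟨b, -, hb⟩
      by_cases h : Nat.pair z b < k
      · rw [getD_res _ h, Nat.unpair_pair] at hb
        exact ⟨b, h, hb⟩
      · rw [List.getD_eq_getElem?_getD, getElem?_res, if_neg h] at hb
        simp at hb
    · rintro ⟨b, h, hb⟩
      refine ⟨b, (Nat.right_le_pair z b).trans_lt h, ?_⟩
      rw [getD_res _ h, Nat.unpair_pair]
      exact hb
  constructor
  · cases hY : Y z
    · obtain ⟨b, hb⟩ := (h2 z).1 hY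
      refine ⟨Nat.pair z b + 1, ?_⟩
      rw [(key q _).2 ⟨b, Nat.lt_succ_self _, hb⟩]
      generalize List.any _ _ = c
      cases c <;> rfl
    · obtain ⟨b, hb⟩ := (h1 z).1 hY
      refine ⟨Nat.pair z b + 1, ?_⟩
      rw [(key p _).2 ⟨b, Nat.lt_succ_self _, hb⟩]
      rfl
  · intro k b hb
    have k1 := (key p k).1
    have k2 := (key q k).1
    generalize List.any _ _ = c1 at hb k1
    generalize List.any _ _ = c2 at hb k2
    cases c1
    · cases c2
      · simp at hb
      · obtain ⟨c, -, hc⟩ := k2 rfl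
        rw [(h2 z).2 ⟨c, hc⟩]
        exact (Option.some.inj hb).symm
    · obtain ⟨c, -, hc⟩ := k1 rfl
      rw [(h1 z).2 ⟨c, hc⟩]
      exact (Option.some.inj hb).symm

/-- The Boolean functions computable in `Z` can be listed. -/
theorem exists_enum (α : Type) [Primcodable α] (Z : ℕ → Bool) :
    ∃ en : ℕ → α → Bool, (∀ i, CI Z (en i)) ∧ ∀ C : α → Bool, CI Z C → ∃ i, en i = C := by
  have hc : {C : α → Bool | CI Z C}.Countable := by
    have key : ∀ C : {C : α → Bool | CI Z C}, ∃ e, Computes e Z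
        fun n => (decode n : Option α).elim false C.1 := fun C =>
      (ci_iff_tle.1 (ci_optElim (f := fun n : ℕ => (decode n : Option α)) (d := fun _ => false)
        (g := fun _ a => C.1 a) (by fun_prop) (by fun_prop)
        (ci_comp C.2 (ci_snd ci_id)))).exists_index
    choose e he using key
    refine Set.countable_coe_iff.1 (Function.Injective.countable (f := e) fun C D h => ?_)
    ext a
    obtain ⟨k, s, h1⟩ := (he C (encode a)).1
    have := (he D (encode a)).2 k s _ (h ▸ h1)
    simpa using this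
  obtain ⟨en, hen⟩ := hc.exists_eq_range ⟨fun _ => false, ci_const false⟩
  refine ⟨en, fun i => ?_, fun C hC => ?_⟩
  · have : en i ∈ {C : α → Bool | CI Z C} := hen ▸ Set.mem_range_self i
    exact this
  · have : C ∈ Set.range en := hen ▸ hC
    exact this

end ci

/-- Binary value of a string, first bit most significant. -/
def bv (σ : List Bool) : ℕ := σ.foldl (fun r b => 2 * r + cond b 1 0) 0

@[fun_prop] theorem pr_bv {α : Type} [Primcodable α] {f : α → List Bool} (hf : Primrec f) :
    Primrec (fun a => bv (f a)) := by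
  unfold bv
  fun_prop

@[fun_prop] theorem ci_bv {α : Type} [Primcodable α] {Z : ℕ → Bool} {f : α → List Bool}
    (hf : CI Z f) : CI Z (fun a => bv (f a)) := ci_comp (ci_of_primrec (pr_bv Primrec.id)) hf

theorem bv_zero (Y : ℕ → Bool) : bv (res Y 0) = 0 := rfl

theorem bv_succ (Y : ℕ → Bool) (L : ℕ) :
    bv (res Y (L + 1)) = 2 * bv (res Y L) + cond (Y L) 1 0 := by
  simp [bv, res_succ]

theorem bv_lt (Y : ℕ → Bool) (L : ℕ) : bv (res Y L) < 2 ^ L := by
  induction L with
  | zero => simp [bv_zero]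
  | succ L ih => rw [bv_succ, pow_succ]; cases Y L <;> simp <;> omega

theorem bv_div (Y : ℕ → Bool) (L d : ℕ) : bv (res Y (L + d)) / 2 ^ d = bv (res Y L) := by
  induction d with
  | zero => simp
  | succ d ih =>
    rw [← add_assoc, bv_succ, pow_succ', ← Nat.div_div_eq_div_mul, ← ih]
    congr 1
    cases Y (L + d)
    · simp
    · simp only [cond_true]; omega

/-- The bits of the number `a` written with `L` binary digits. -/
def bits (L a i : ℕ) : Bool := eqb (a / 2 ^ (L - 1 - i) % 2) 1

@[fun_prop] theorem pr_bits {α : Type} [Primcodable α] {L a i : α → ℕ} (hL : Primrec L)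
    (ha : Primrec a) (hi : Primrec i) : Primrec (fun x => bits (L x) (a x) (i x)) := by
  unfold bits
  fun_prop

@[fun_prop] theorem ci_bits {α : Type} [Primcodable α] {Z : ℕ → Bool} {L a i : α → ℕ}
    (hL : CI Z L) (ha : CI Z a) (hi : CI Z i) : CI Z (fun x => bits (L x) (a x) (i x)) := by
  unfold bits
  fun_prop

theorem bits_bv (Y : ℕ → Bool) {L i : ℕ} (h : i < L) : bits L (bv (res Y L)) i = Y i := by
  obtain ⟨d, rfl⟩ : ∃ d, L = i + 1 + d := ⟨L - 1 - i, by omega⟩
  unfold bits
  rw [show i + 1 + d - 1 - i = d by omega, bv_div, bv_succ]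
  cases Y i
  · simp
  · simp only [cond_true, eqb_true]; omega

theorem bv_bits {L a : ℕ} (h : a < 2 ^ L) : bv (res (bits L a) L) = a := by
  have key : ∀ j ≤ L, bv (res (bits L a) j) = a / 2 ^ (L - j) := by
    intro j hj
    induction j with
    | zero => rw [bv_zero, Nat.sub_zero, Nat.div_eq_of_lt h]
    | succ j ih =>
      rw [bv_succ, ih (by omega), show L - j = L - (j + 1) + 1 by omega, pow_succ,
        ← Nat.div_div_eq_div_mul]
      unfold bits
      rw [show L - 1 - j = L - (j + 1) by omega]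
      generalize a / 2 ^ (L - (j + 1)) = c
      rcases Nat.mod_two_eq_zero_or_one c with e | e
      · have : eqb (c % 2) 1 = false := by simp [e]
        rw [this]; simp; omega
      · have : eqb (c % 2) 1 = true := by simp [e]
        rw [this]; simp; omega
  simpa using key L le_rfl

/-- `Z` is admissible: no relation computable in `Z` with full domain stays above `g j`. -/
def Adm (g : Bool → ℕ → ℕ) (Z : ℕ → Bool) : Prop :=
  ∀ R : ℕ → ℕ → Bool, CI Z (fun w : ℕ × ℕ => R w.1 w.2) → (∀ n, ∃ v, R n v = true) →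
    ∀ j, ∃ n v, v < g j n ∧ R n v = true

theorem Adm.mono {g : Bool → ℕ → ℕ} {Y Z : ℕ → Bool} (h : Adm g Z) (hY : CI Z Y) : Adm g Y :=
  fun R hR => h R (hR.trans hY)

/-- Admissibility of `Z ⊕ H` in terms of initial segments of `H`. -/
theorem adm_join {g : Bool → ℕ → ℕ} {Z H : ℕ → Bool}
    (h : ∀ C : ℕ × List Bool → Bool, CI Z C → (∀ n, ∃ s, C (n, res H s) = true) →
      ∀ j, ∃ n s, s < g j n ∧ C (n, res H s) = true) : Adm g (J Z H) := by
  intro R hR htot j
  have hR' : CI (J Z H) fun z : ℕ => R z.unpair.1 z.unpair.2 := by fun_prop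
  obtain ⟨e, he⟩ := (ci_iff_tle.1 hR').exists_index
  have hZ := ci_self Z
  have key : ∀ n s, ((List.range (res H s).length).any fun v =>
      (List.range (res H s).length).any fun k => eqb (U e (res H s).length
        (res (J Z fun i => (res H s).getD i false) k) (Nat.pair n v)) (some true)) = true ↔
      ∃ v < s, ∃ k < s, U e s (res (J Z H) k) (Nat.pair n v) = some true := by
    intro n s
    simp only [length_res, List.any_eq_true, List.mem_range, eqb_true]
    refine exists_congr fun v => and_congr_right fun _ => exists_congr fun k =>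
      and_congr_right fun hk => ?_
    rw [res_congr (J_congr (fun _ _ => rfl) fun x hx => getD_res H (hx.trans hk) false)]
  obtain ⟨n, s, hs, hC⟩ := h (fun w => (List.range w.2.length).any fun v =>
      (List.range w.2.length).any fun k => eqb (U e w.2.length
        (res (J Z fun i => w.2.getD i false) k) (Nat.pair w.1 v)) (some true))
    (by unfold J; fun_prop) (fun n => by
      obtain ⟨v, hv⟩ := htot n
      obtain ⟨k, s, hk⟩ := (he (Nat.pair n v)).1
      refine ⟨max s (max k v) + 1, (key n _).2 ⟨v, by omega, k, by omega, ?_⟩⟩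
      rw [U_mono (by omega) hk]
      simp [hv]) j
  obtain ⟨v, hv, k, -, hk⟩ := (key n s).1 hC
  have := (he _).2 _ _ _ hk
  exact ⟨n, v, hv.trans hs, by simpa using this⟩

end Pool.Agent.P.MP_db6017_lc.Q1
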