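import Mathlib

/-!
Second-order arithmetic: syntax, structures, the system RCA₀ (Simpson, Subsystems of second order
arithmetic, Definitions I.2.4 and I.7.4), and the principles RT²₂, SRT²₂, HT^{=2}₂.
-/

namespace Pool.Agent.P.MP_db6017_lc.Q1

/-- Numerical terms; number variables are named by natural numbers. -/
inductive Term : Type
  | var (i : ℕ) : Term
  | zero : Term
  | one : Term
  | add (s t : Term) : Term
  | mul (s t : Term) : Term

/-- Formulas; `mem t X` is `t ∈ X` for the set variable named `X`, `all`, `ex` quantify a number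
variable and `allSet`, `exSet` a set variable. -/
inductive Fml : Type
  | eq (s t : Term) : Fml
  | lt (s t : Term) : Fml
  | mem (t : Term) (X : ℕ) : Fml
  | not (φ : Fml) : Fml
  | and (φ ψ : Fml) : Fml
  | or (φ ψ : Fml) : Fml
  | imp (φ ψ : Fml) : Fml
  | all (x : ℕ) (φ : Fml) : Fml
  | ex (x : ℕ) (φ : Fml) : Fml
  | allSet (X : ℕ) (φ : Fml) : Fml
  | exSet (X : ℕ) (φ : Fml) : Fml

/-- `φ ↔ ψ`. -/
def Fml.iff (φ ψ : Fml) : Fml := (φ.imp ψ).and (ψ.imp φ)

/-- The number variable `x` occurs in the term. -/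
def Term.Occurs (x : ℕ) : Term → Prop
  | .var i => i = x
  | .zero => False
  | .one => False
  | .add s t => s.Occurs x ∨ t.Occurs x
  | .mul s t => s.Occurs x ∨ t.Occurs x

/-- The set variable `X` occurs free in the formula. -/
def Fml.FreeSet (X : ℕ) : Fml → Prop
  | .eq _ _ => False
  | .lt _ _ => False
  | .mem _ Y => Y = X
  | .not φ => φ.FreeSet X
  | .and φ ψ => φ.FreeSet X ∨ ψ.FreeSet X
  | .or φ ψ => φ.FreeSet X ∨ ψ.FreeSet X
  | .imp φ ψ => φ.FreeSet X ∨ ψ.FreeSet X
  | .all _ φ => φ.FreeSet X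
  | .ex _ φ => φ.FreeSet X
  | .allSet Y φ => Y ≠ X ∧ φ.FreeSet X
  | .exSet Y φ => Y ≠ X ∧ φ.FreeSet X

/-- Substitution of the term `u` for the number variable `x`. -/
def Term.subst (x : ℕ) (u : Term) : Term → Term
  | .var i => if i = x then u else .var i
  | .zero => .zero
  | .one => .one
  | .add s t => .add (Term.subst x u s) (Term.subst x u t)
  | .mul s t => .mul (Term.subst x u s) (Term.subst x u t)

/-- Substitution of the term `u` for the free occurrences of the number variable `x`. It is used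
only for `u = 0` and `u = x + 1`, where no variable can be captured. -/
def Fml.subst (x : ℕ) (u : Term) : Fml → Fml
  | .eq s t => .eq (Term.subst x u s) (Term.subst x u t)
  | .lt s t => .lt (Term.subst x u s) (Term.subst x u t)
  | .mem t X => .mem (Term.subst x u t) X
  | .not φ => .not (φ.subst x u)
  | .and φ ψ => .and (φ.subst x u) (ψ.subst x u)
  | .or φ ψ => .or (φ.subst x u) (ψ.subst x u)
  | .imp φ ψ => .imp (φ.subst x u) (ψ.subst x u)
  | .all y φ => if y = x then .all y φ else .all y (φ.subst x u)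
  | .ex y φ => if y = x then .ex y φ else .ex y (φ.subst x u)
  | .allSet X φ => .allSet X (φ.subst x u)
  | .exSet X φ => .exSet X (φ.subst x u)

/-- Bounded quantifier formulas (`Σ⁰₀`): the only quantifiers are `∀ x < t` and `∃ x < t` with `x`
not occurring in `t`. -/
inductive Bounded : Fml → Prop
  | eq (s t : Term) : Bounded (.eq s t)
  | lt (s t : Term) : Bounded (.lt s t)
  | mem (t : Term) (X : ℕ) : Bounded (.mem t X)
  | not {φ : Fml} : Bounded φ → Bounded φ.not
  | and {φ ψ : Fml} : Bounded φ → Bounded ψ → Bounded (φ.and ψ)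
  | or {φ ψ : Fml} : Bounded φ → Bounded ψ → Bounded (φ.or ψ)
  | imp {φ ψ : Fml} : Bounded φ → Bounded ψ → Bounded (φ.imp ψ)
  | ball {φ : Fml} (x : ℕ) (t : Term) : ¬ t.Occurs x → Bounded φ →
      Bounded (.all x ((Fml.lt (.var x) t).imp φ))
  | bex {φ : Fml} (x : ℕ) (t : Term) : ¬ t.Occurs x → Bounded φ →
      Bounded (.ex x ((Fml.lt (.var x) t).and φ))

/-- `Σ⁰₁` formulas. -/
def Sigma1 (φ : Fml) : Prop := ∃ x θ, Bounded θ ∧ φ = .ex x θ

/-- `Π⁰₁` formulas. -/
def Pi1 (φ : Fml) : Prop := ∃ x θ, Bounded θ ∧ φ = .all x θ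

/-- The axioms of RCA₀: the eight basic axioms, `Σ⁰₁` induction, `Δ⁰₁` comprehension (free
variables are read as universally quantified). -/
inductive RCA0 : Fml → Prop
  | succ_ne : RCA0 (Fml.eq (.add (.var 0) .one) .zero).not
  | succ_inj : RCA0 ((Fml.eq (.add (.var 0) .one) (.add (.var 1) .one)).imp
      (.eq (.var 0) (.var 1)))
  | add_zero : RCA0 (.eq (.add (.var 0) .zero) (.var 0))
  | add_succ : RCA0 (.eq (.add (.var 0) (.add (.var 1) .one)) (.add (.add (.var 0) (.var 1)) .one))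
  | mul_zero : RCA0 (.eq (.mul (.var 0) .zero) .zero)
  | mul_succ : RCA0 (.eq (.mul (.var 0) (.add (.var 1) .one))
      (.add (.mul (.var 0) (.var 1)) (.var 0)))
  | not_lt_zero : RCA0 (Fml.lt (.var 0) .zero).not
  | lt_succ : RCA0 ((Fml.lt (.var 0) (.add (.var 1) .one)).iff
      ((Fml.lt (.var 0) (.var 1)).or (.eq (.var 0) (.var 1))))
  | ind (x : ℕ) (φ : Fml) : Sigma1 φ → RCA0 (((φ.subst x .zero).and
      (.all x (φ.imp (φ.subst x (.add (.var x) .one))))).imp (.all x φ))
  | comp (x X : ℕ) (φ ψ : Fml) : Sigma1 φ → Pi1 ψ → ¬ φ.FreeSet X →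
      RCA0 ((Fml.all x (φ.iff ψ)).imp (.exSet X (.all x ((Fml.mem (.var x) X).iff φ))))

/-- A structure for the language of second-order arithmetic. -/
structure Struct : Type 1 where
  Num : Type
  sets : Set (Set Num)
  sets_nonempty : sets.Nonempty
  zero : Num
  one : Num
  add : Num → Num → Num
  mul : Num → Num → Num
  lt : Num → Num → Prop

/-- The value of a term. -/
def Struct.val (M : Struct) (ρ : ℕ → M.Num) : Term → M.Num
  | .var i => ρ i
  | .zero => M.zero
  | .one => M.one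
  | .add s t => M.add (M.val ρ s) (M.val ρ t)
  | .mul s t => M.mul (M.val ρ s) (M.val ρ t)

/-- Satisfaction under assignments `ρ` of numbers and `σ` of sets; set quantifiers range over
`M.sets`. -/
def Struct.Sat (M : Struct) : Fml → (ℕ → M.Num) → (ℕ → Set M.Num) → Prop
  | .eq s t, ρ, _ => M.val ρ s = M.val ρ t
  | .lt s t, ρ, _ => M.lt (M.val ρ s) (M.val ρ t)
  | .mem t X, ρ, σ => M.val ρ t ∈ σ X
  | .not φ, ρ, σ => ¬ M.Sat φ ρ σ
  | .and φ ψ, ρ, σ => M.Sat φ ρ σ ∧ M.Sat ψ ρ σ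
  | .or φ ψ, ρ, σ => M.Sat φ ρ σ ∨ M.Sat ψ ρ σ
  | .imp φ ψ, ρ, σ => M.Sat φ ρ σ → M.Sat ψ ρ σ
  | .all x φ, ρ, σ => ∀ a, M.Sat φ (Function.update ρ x a) σ
  | .ex x φ, ρ, σ => ∃ a, M.Sat φ (Function.update ρ x a) σ
  | .allSet X φ, ρ, σ => ∀ A ∈ M.sets, M.Sat φ ρ (Function.update σ X A)
  | .exSet X φ, ρ, σ => ∃ A ∈ M.sets, M.Sat φ ρ (Function.update σ X A)

/-- The universal closure of `φ` holds in `M`. -/
def Struct.Valid (M : Struct) (φ : Fml) : Prop :=
  ∀ (ρ : ℕ → M.Num) (σ : ℕ → Set M.Num), (∀ X, σ X ∈ M.sets) → M.Sat φ ρ σ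

/-- The pairing function `(s, t) = (s + t)² + s`. -/
def pairT (s t : Term) : Term := .add (.mul (.add s t) (.add s t)) s

/-- The set variable `H` is infinite: `∀ x₀ ∃ x₁ (x₀ < x₁ ∧ x₁ ∈ H)`. -/
def infiniteF (H : ℕ) : Fml :=
  .all 0 (.ex 1 ((Fml.lt (.var 0) (.var 1)).and (.mem (.var 1) H)))

/-- `∀ x₀ x₁ (x₀ ∈ H ∧ x₁ ∈ H ∧ x₀ < x₁ → φ)`. -/
def onPairs (H : ℕ) (φ : Fml) : Fml :=
  .all 0 (.all 1 (((Fml.mem (.var 0) H).and ((Fml.mem (.var 1) H).and
    (.lt (.var 0) (.var 1)))).imp φ))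

/-- There is an infinite set `X₁` such that, for `x₀ < x₁` in `X₁`, the value of `t` is always in
`X₀` or never in `X₀`. A colouring with two colours is given by the set `X₀` of what has colour 1. -/
def homF (t : Term) : Fml :=
  .exSet 1 ((infiniteF 1).and ((onPairs 1 (.mem t 0)).or (onPairs 1 (Fml.mem t 0).not)))

/-- Hindman's theorem for sums of exactly two elements and two colours. -/
def HT : Fml := .allSet 0 (homF (.add (.var 0) (.var 1)))

/-- Ramsey's theorem for pairs and two colours. -/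
def RT : Fml := .allSet 0 (homF (pairT (.var 0) (.var 1)))

/-- The colouring `X₀` of pairs is stable:
`∀ x₀ ∃ x₁ ∀ x₂ (x₁ < x₂ → ((x₀, x₂) ∈ X₀ ↔ (x₀, x₁) ∈ X₀))`. -/
def stableF : Fml :=
  .all 0 (.ex 1 (.all 2 ((Fml.lt (.var 1) (.var 2)).imp
    ((Fml.mem (pairT (.var 0) (.var 2)) 0).iff (.mem (pairT (.var 0) (.var 1)) 0)))))

/-- Ramsey's theorem for stable colourings of pairs with two colours. -/
def SRT : Fml := .allSet 0 (stableF.imp (homF (pairT (.var 0) (.var 1))))

/-- The ω-model with second-order part `S`. -/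
def omegaModel (S : Set (Set ℕ)) (h : S.Nonempty) : Struct where
  Num := ℕ
  sets := S
  sets_nonempty := h
  zero := 0
  one := 1
  add := fun a b => a + b
  mul := fun a b => a * b
  lt := fun a b => a < b

end Pool.Agent.P.MP_db6017_lc.Q1
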