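import Pool.Agent.P.MP_db6017_lc.Q1.Base

/-!
The true code. HINT. Write `m Y = dens 𝒰 Y` (finitely additive, values in `[0,1]`) and
`Y_n = {y | γ (n + y)}`. Cut `[0, m X)` into nested half-open intervals, top-down:
`B Y L n 0 r := r < L + m (Y ∩ Y_n)` and `B Y L n (t+1) r := if r < L + m (Y ∩ Y_n) then
B (Y ∩ Y_n) L (n+1) t r else B (Y \ Y_n) (L + m (Y ∩ Y_n)) (n+1) t r` (does the pattern of the
point `r` contain `n + t`). Put `S (pair b a) := ∀ r ∈ [a / 2^lev b, (a+1) / 2^lev b), r < m X ∧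
B X 0 0 b r` (classical `decide`). Second claim: by induction on `t`, for all `Y L n` (with
`0 ≤ L`, `L + m Y ≤ 1`) the number of `a < 2^M` whose dyadic interval lies in `[L, L + m Y)` and
satisfies `B Y L n t` is at least `2^M * m (Y ∩ Y_(n+t)) - 2 * 2^t` (the two halves are disjoint).
First claim: take `r = bv (res ω M) / 2^M` for a large `M`; it lies in all the dyadic intervals
(`bv_div`); by induction on `T`, if `r ∈ [L, L + m Y)`, `F ⊆ [n, n + T)` and `B Y L n (b - n) r`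
for all `b ∈ F`, then `0 < m (cut γ Y F)`.
-/

namespace Pool.Agent.P.MP_db6017_lc.Q1

open Pool.Agent.Lib.Comp Filter Topology

theorem TrueCode_nonneg (𝒰 : Ultrafilter ℕ) (Y : ℕ → Bool) : 0 ≤ dens 𝒰 Y :=
  ge_of_tendsto' (tendsto_dens 𝒰 Y) fun N => by positivity

theorem TrueCode_le (𝒰 : Ultrafilter ℕ) (Y : ℕ → Bool) : dens 𝒰 Y ≤ 1 :=
  le_of_tendsto' (tendsto_dens 𝒰 Y) fun N =>
    div_le_one_of_le₀ (by exact_mod_cast cnt_le Y N) (by positivity)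

theorem TrueCode_add (𝒰 : Ultrafilter ℕ) {Y Y₁ Y₂ : ℕ → Bool}
    (h : ∀ y, cond (Y y) 1 0 = cond (Y₁ y) 1 0 + cond (Y₂ y) 1 0) :
    dens 𝒰 Y = dens 𝒰 Y₁ + dens 𝒰 Y₂ := by
  refine tendsto_nhds_unique (tendsto_dens 𝒰 Y)
    (((tendsto_dens 𝒰 Y₁).add (tendsto_dens 𝒰 Y₂)).congr fun N => ?_)
  rw [← add_div, ← Nat.cast_add, cnt, cnt, cnt, ← Finset.sum_add_distrib]
  simp only [h]

theorem TrueCode_mono (𝒰 : Ultrafilter ℕ) {Y Z : ℕ → Bool} (h : ∀ y, Y y = true → Z y = true) :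
    dens 𝒰 Y ≤ dens 𝒰 Z := by
  rw [TrueCode_add 𝒰 (Y := Z) (Y₁ := Y) (Y₂ := fun y => Z y && !Y y) fun y => by
    have := h y
    cases hY : Y y <;> cases hZ : Z y <;> simp_all]
  exact le_add_of_nonneg_right (TrueCode_nonneg 𝒰 _)

/-- The pattern of the point `r` contains `n + t`. -/
def TrueCode_B (𝒰 : Ultrafilter ℕ) (γ : ℕ → Bool) (r : ℝ) : ℕ → (ℕ → Bool) → ℝ → ℕ → Prop
  | 0, Y, L, n => r < L + dens 𝒰 (cut γ Y [n])
  | t + 1, Y, L, n => if r < L + dens 𝒰 (cut γ Y [n]) then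
      TrueCode_B 𝒰 γ r t (cut γ Y [n]) L (n + 1) else
      TrueCode_B 𝒰 γ r t (fun y => Y y && !γ (n + y)) (L + dens 𝒰 (cut γ Y [n])) (n + 1)

theorem TrueCode_split (𝒰 : Ultrafilter ℕ) (γ Y : ℕ → Bool) (n : ℕ) :
    dens 𝒰 Y = dens 𝒰 (cut γ Y [n]) + dens 𝒰 fun y => Y y && !γ (n + y) :=
  TrueCode_add 𝒰 fun y => by cases hY : Y y <;> cases hZ : γ (n + y) <;> simp [cut, hY, hZ]

theorem TrueCode_pt (𝒰 : Ultrafilter ℕ) (γ : ℕ → Bool) (r : ℝ) (T : ℕ) :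
    ∀ (Y : ℕ → Bool) (L : ℝ) (n : ℕ), L ≤ r → r < L + dens 𝒰 Y → ∃ Z, 0 < dens 𝒰 Z ∧
      ∀ y, Z y = true → Y y = true ∧
        ∀ t < T, TrueCode_B 𝒰 γ r t Y L n → γ (n + t + y) = true := by
  induction T with
  | zero => exact fun Y L n h1 h2 => ⟨Y, by linarith, fun y hy => ⟨hy, by simp⟩⟩
  | succ T ih =>
    intro Y L n h1 h2
    by_cases h : r < L + dens 𝒰 (cut γ Y [n])
    · obtain ⟨Z, h3, h4⟩ := ih _ L (n + 1) h1 h
      refine ⟨Z, h3, fun y hy => ?_⟩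
      obtain ⟨h5, h6⟩ := h4 y hy
      have h7 : Y y = true ∧ γ (n + y) = true := by simpa [cut] using h5
      refine ⟨h7.1, fun t ht hB => ?_⟩
      rcases t with _ | t
      · exact h7.2
      · rw [TrueCode_B, if_pos h] at hB
        rw [show n + (t + 1) = n + 1 + t by omega]
        exact h6 t (by omega) hB
    · obtain ⟨Z, h3, h4⟩ := ih (fun y => Y y && !γ (n + y)) _ (n + 1) (not_lt.1 h)
        (by rw [add_assoc, ← TrueCode_split]; exact h2)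
      refine ⟨Z, h3, fun y hy => ?_⟩
      obtain ⟨h5, h6⟩ := h4 y hy
      refine ⟨(Bool.and_eq_true_iff.1 h5).1, fun t ht hB => ?_⟩
      rcases t with _ | t
      · exact absurd hB h
      · rw [TrueCode_B, if_neg h] at hB
        rw [show n + (t + 1) = n + 1 + t by omega]
        exact h6 t (by omega) hB

theorem TrueCode_count (𝒰 : Ultrafilter ℕ) (γ : ℕ → Bool) {D : ℕ} (hD : 0 < D) (t : ℕ) :
    ∀ (Y : ℕ → Bool) (L : ℝ) (n : ℕ), 0 ≤ L → L + dens 𝒰 Y ≤ 1 → ∃ A : Finset ℕ,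
      (∀ a ∈ A, a < D ∧ ∀ r : ℝ, a ≤ r * D → r * D < a + 1 →
        L ≤ r ∧ r < L + dens 𝒰 Y ∧ TrueCode_B 𝒰 γ r t Y L n) ∧
      D * dens 𝒰 (cut γ Y [n + t]) - 2 * 2 ^ t ≤ A.card := by
  have D0 : (0 : ℝ) < D := by exact_mod_cast hD
  induction t with
  | zero =>
    intro Y L n h0 h1
    have a1 := TrueCode_split 𝒰 γ Y n
    have a2 := TrueCode_nonneg 𝒰 fun y => Y y && !γ (n + y)
    have a3 := TrueCode_nonneg 𝒰 (cut γ Y [n])
    obtain ⟨μ, hμ⟩ : ∃ μ, μ = dens 𝒰 (cut γ Y [n]) := ⟨_, rfl⟩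
    simp only [TrueCode_B, add_zero, ← hμ] at a1 a3 ⊢
    refine ⟨Finset.Ico ⌈L * D⌉₊ ⌊(L + μ) * D⌋₊, fun a ha => ?_, ?_⟩
    · obtain ⟨b1, b2⟩ := Finset.mem_Ico.1 ha
      have b3 := Nat.ceil_le.1 b1
      have b4 := (Nat.le_floor_iff (by positivity)).1 (Nat.succ_le_of_lt b2)
      push_cast at b4
      refine ⟨by exact_mod_cast (by nlinarith : (a : ℝ) < D), fun r c1 c2 => ?_⟩
      have c3 := lt_of_mul_lt_mul_right (c2.trans_le b4) D0.le
      exact ⟨le_of_mul_le_mul_right (b3.trans c1) D0, by linarith, c3⟩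
    · have b1 := Nat.ceil_lt_add_one (show 0 ≤ L * D by positivity)
      have b2 := Nat.lt_floor_add_one ((L + μ) * D)
      have b3 : (⌊(L + μ) * D⌋₊ : ℝ) ≤ ((⌊(L + μ) * D⌋₊ - ⌈L * D⌉₊ : ℕ) : ℝ) + ⌈L * D⌉₊ := by
        exact_mod_cast le_tsub_add
      rw [Nat.card_Ico]
      linarith
  | succ t ih =>
    intro Y L n h0 h1
    have a1 := TrueCode_split 𝒰 γ Y n
    have a2 := TrueCode_nonneg 𝒰 fun y => Y y && !γ (n + y)
    have a3 := TrueCode_nonneg 𝒰 (cut γ Y [n])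
    obtain ⟨A, b1, b2⟩ := ih (cut γ Y [n]) L (n + 1) h0 (by linarith)
    obtain ⟨B, b3, b4⟩ := ih (fun y => Y y && !γ (n + y)) (L + dens 𝒰 (cut γ Y [n])) (n + 1)
      (by linarith) (by linarith)
    have hd : Disjoint A B := Finset.disjoint_left.2 fun a c1 c2 => by
      have e : (a : ℝ) / D * D = a := div_mul_cancel₀ _ D0.ne'
      have c3 := (b1 a c1).2 (a / D) e.ge (by linarith)
      have c4 := (b3 a c2).2 (a / D) e.ge (by linarith)
      linarith [c3.2.1, c4.1]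
    refine ⟨A ∪ B, fun a ha => ?_, ?_⟩
    · rcases Finset.mem_union.1 ha with h | h
      · refine ⟨(b1 a h).1, fun r c1 c2 => ?_⟩
        obtain ⟨c3, c4, c5⟩ := (b1 a h).2 r c1 c2
        exact ⟨c3, by linarith, by rwa [TrueCode_B, if_pos c4]⟩
      · refine ⟨(b3 a h).1, fun r c1 c2 => ?_⟩
        obtain ⟨c3, c4, c5⟩ := (b3 a h).2 r c1 c2
        exact ⟨by linarith, by linarith, by rwa [TrueCode_B, if_neg (not_lt.2 c3)]⟩
    · rw [Finset.card_union_of_disjoint hd, show n + (t + 1) = n + 1 + t by omega,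
        TrueCode_add 𝒰 (Y := cut γ Y [n + 1 + t]) (Y₁ := cut γ (cut γ Y [n]) [n + 1 + t])
          (Y₂ := cut γ (fun y => Y y && !γ (n + y)) [n + 1 + t]) fun y => by
          cases hY : Y y <;> cases hZ : γ (n + y) <;> simp [cut, hY, hZ], pow_succ]
      push_cast
      linarith

theorem exists_code (𝒰 : Ultrafilter ℕ) (γ X : ℕ → Bool) (hX : 0 < dens 𝒰 X) :
    ∃ S : ℕ → Bool,
      (∀ (ω : ℕ → Bool) (F : List ℕ), (∀ b ∈ F, rs S ω b = true) → 0 < dens 𝒰 (cut γ X F)) ∧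
      ∀ b, dens 𝒰 (cut γ X [b]) - (1 / 2) ^ b ≤ lam S b := by
  classical
  refine ⟨fun z => decide (∀ r : ℝ, z.unpair.2 ≤ r * (2 ^ lev z.unpair.1 : ℕ) →
    r * (2 ^ lev z.unpair.1 : ℕ) < z.unpair.2 + 1 →
      r < 0 + dens 𝒰 X ∧ TrueCode_B 𝒰 γ r z.unpair.1 X 0 0), fun ω F hF => ?_, fun b => ?_⟩
  · have h1 : ∀ b ∈ F, b < F.sum + 1 := fun b hb =>
      Nat.lt_succ_of_le (List.single_le_sum (fun _ _ => Nat.zero_le _) b hb)
    obtain ⟨r, hr⟩ : ∃ r : ℝ, r = bv (res ω (lev (F.sum + 1))) / 2 ^ lev (F.sum + 1) := ⟨_, rfl⟩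
    have h2 : ∀ b ∈ F, r < 0 + dens 𝒰 X ∧ TrueCode_B 𝒰 γ r b X 0 0 := fun b hb => by
      have h3 := hF b hb
      simp only [rs, Nat.unpair_pair, decide_eq_true_eq] at h3
      obtain ⟨d, hd⟩ := Nat.exists_eq_add_of_le
        (show lev b ≤ lev (F.sum + 1) by have := h1 b hb; unfold lev; omega)
      have h4 : r * (2 ^ lev b : ℕ) = bv (res ω (lev b + d)) / (2 ^ d : ℕ) := by
        rw [hr, hd, pow_add]
        push_cast
        field_simp
      rw [← bv_div ω (lev b) d] at h3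
      refine h3 r (h4 ▸ Nat.cast_div_le) ?_
      rw [h4, div_lt_iff₀ (by positivity), add_mul, one_mul]
      exact_mod_cast Nat.lt_div_mul_add (by positivity)
    rcases F.eq_nil_or_concat' with rfl | ⟨G, b, hb⟩
    · exact hX.trans_le (TrueCode_mono 𝒰 fun y hy => by simpa [cut] using hy)
    · obtain ⟨Z, h3, h4⟩ := TrueCode_pt 𝒰 γ r (F.sum + 1) X 0 0 (by rw [hr]; positivity)
        (h2 b (by simp [hb])).1
      refine h3.trans_le (TrueCode_mono 𝒰 fun y hy => ?_)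
      simp only [cut, Bool.and_eq_true, List.all_eq_true]
      exact ⟨(h4 y hy).1, fun c hc => by simpa using (h4 y hy).2 c (h1 c hc) (h2 c hc).2⟩
  · obtain ⟨A, h1, h2⟩ := TrueCode_count 𝒰 γ (D := 2 ^ lev b) (by positivity) b X 0 0 le_rfl
      (by rw [zero_add]; exact TrueCode_le 𝒰 X)
    rw [lam, le_div_iff₀ (by positivity)]
    refine le_trans ?_ (h2.trans (Nat.cast_le.2 ?_))
    · have h3 : (1 / 2 : ℝ) ^ b * 2 ^ lev b = 4 * 2 ^ b := by
        rw [lev, pow_add, two_mul, pow_add, one_div, inv_pow]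
        field_simp
        norm_num
      have h4 : (0 : ℝ) < 2 ^ b := by positivity
      rw [sub_mul, h3, zero_add]
      push_cast
      linarith
    · rw [cs, Finset.card_eq_sum_ones]
      refine le_trans (Finset.sum_le_sum fun a ha => ?_) (Finset.sum_le_sum_of_subset
        fun a ha => Finset.mem_range.2 (h1 a ha).1)
      simp only [Nat.unpair_pair]
      rw [decide_eq_true fun r c1 c2 => ((h1 a ha).2 r c1 c2).2, cond_true]

end Pool.Agent.P.MP_db6017_lc.Q1
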