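import Pool.Agent.P.MP_db6017_lc.Q1.Base

/-!
A correlation sequence is a trigonometric polynomial up to a small mean error. HINT. For each
`N > 0` use the discrete Fourier transform on `ZMod N` (or direct sums of roots of unity): the
cyclic correlation `(1/N) ∑_t x t * y ((b + t) % N)` is `∑_ξ w ξ * ζ^(b ξ)` with
`∑ ‖w ξ‖ ≤ 1` (Cauchy-Schwarz and Parseval), and it differs from the true average by at most
`2 b / N`. Let `τ_N = ∑ ‖w ξ‖ δ_(ζ^ξ, phase of w ξ)`, a finite measure of mass `≤ 1` on the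
compact space `Circle × Circle`; take its limit `τ` along `𝒰`
(`isCompact_setOfPred_finiteMeasure_le_of_compactSpace`), so `k b = ∫ p.1^b * p.2 dτ`.
Let `A` be the finite set of `z` with `τ ({z} ×ˢ univ) ≥ η`, `a z = ∫ over {z} × univ of p.2`.
The rest `ρ b = ∫ over Aᶜ × univ` has `(1/N) ∑ ‖ρ b‖² ≤ ∫∫ ‖(1/N) ∑_b (p.1 / q.1)^b‖`, which tends
(dominated convergence) to the mass of `{p.1 = q.1}`, at most `η`. Finish by Cauchy-Schwarz.
Any other proof is welcome.
-/

namespace Pool.Agent.P.MP_db6017_lc.Q1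

open Filter Topology

section Aux

open Finset MeasureTheory
open scoped ComplexConjugate

theorem Wiener_orth {ω : ℂ} {M : ℕ} (hω : IsPrimitiveRoot ω M) {i j : ℕ} (hi : i < M)
    (hj : j < M) :
    ∑ ξ ∈ range M, (ω ^ ξ) ^ i * conj ((ω ^ ξ) ^ j) = if i = j then (M : ℂ) else 0 := by
  have n1 : ‖ω‖ = 1 := hω.norm'_eq_one (by omega)
  have c1 : ∀ n, ω ^ n * conj (ω ^ n) = 1 := fun n => by
    rw [Complex.mul_conj, Complex.normSq_eq_norm_sq, norm_pow, n1]
    simp
  have e : ∀ ξ, (ω ^ ξ) ^ i * conj ((ω ^ ξ) ^ j) = (ω ^ i * conj (ω ^ j)) ^ ξ := fun ξ => by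
    rw [mul_pow, ← map_pow, ← pow_mul, ← pow_mul, ← pow_mul, ← pow_mul, mul_comm ξ i, mul_comm ξ j]
  simp only [e]
  split_ifs with h
  · subst h
    simp only [c1, one_pow, sum_const, card_range, nsmul_eq_mul, mul_one]
  · have h1 : ω ^ i * conj (ω ^ j) ≠ 1 := fun h' => h (hω.pow_inj hi hj (by
      linear_combination ω ^ j * h' - ω ^ i * c1 j))
    have h2 : (ω ^ i * conj (ω ^ j)) ^ M = 1 := by
      rw [← e, hω.pow_eq_one]
      simp
    have := mul_neg_geom_sum (ω ^ i * conj (ω ^ j)) M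
    rw [h2, sub_self] at this
    exact (mul_eq_zero.1 this).resolve_left (sub_ne_zero.2 h1.symm)

/-- The polynomial with the first `n` values of `f` as coefficients. -/
noncomputable def Wiener_P (f : ℕ → ℝ) (n : ℕ) (u : ℂ) : ℂ := ∑ t ∈ range n, (f t : ℂ) * u ^ t

theorem Wiener_corr {ω : ℂ} {M : ℕ} (hω : IsPrimitiveRoot ω M) (f g : ℕ → ℝ) {n m b : ℕ}
    (h1 : n + b ≤ m) (h2 : m ≤ M) :
    ∑ ξ ∈ range M, (ω ^ ξ) ^ b * (Wiener_P f n (ω ^ ξ) * conj (Wiener_P g m (ω ^ ξ))) =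
      M * ((∑ t ∈ range n, f t * g (b + t) : ℝ) : ℂ) := by
  have e : ∀ u : ℂ, u ^ b * (Wiener_P f n u * conj (Wiener_P g m u)) =
      ∑ t ∈ range n, ∑ s ∈ range m, (f t : ℂ) * g s * (u ^ (b + t) * conj (u ^ s)) := fun u => by
    rw [Wiener_P, Wiener_P, map_sum, sum_mul_sum, mul_sum]
    refine sum_congr rfl fun t _ => ?_
    rw [mul_sum]
    refine sum_congr rfl fun s _ => ?_
    rw [map_mul, Complex.conj_ofReal]
    ring
  simp only [e]
  rw [sum_comm, Complex.ofReal_sum, mul_sum]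
  refine sum_congr rfl fun t ht => ?_
  rw [mem_range] at ht
  rw [sum_comm, sum_eq_single (b + t)]
  · rw [← mul_sum, Wiener_orth hω (by omega) (by omega), if_pos rfl]
    push_cast
    ring
  · intro s hs h
    rw [mem_range] at hs
    rw [← mul_sum, Wiener_orth hω (by omega) (by omega), if_neg h.symm, mul_zero]
  · intro h
    exact absurd (mem_range.2 (by omega)) h

theorem Wiener_pars {ω : ℂ} {M : ℕ} (hω : IsPrimitiveRoot ω M) {f : ℕ → ℝ} (hf : ∀ t, |f t| ≤ 1)
    {n : ℕ} (h : n ≤ M) : ∑ ξ ∈ range M, ‖Wiener_P f n (ω ^ ξ)‖ ^ 2 ≤ M * n := by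
  have h1 := Wiener_corr hω f f (b := 0) (n := n) (m := n) le_rfl h
  simp only [pow_zero, one_mul, Complex.mul_conj, Complex.normSq_eq_norm_sq, zero_add] at h1
  have h2 : ∑ ξ ∈ range M, ‖Wiener_P f n (ω ^ ξ)‖ ^ 2 = M * ∑ t ∈ range n, f t * f t := by
    exact_mod_cast h1
  rw [h2]
  refine mul_le_mul_of_nonneg_left ?_ (Nat.cast_nonneg _)
  have h3 := sum_le_card_nsmul (range n) (fun t => f t * f t) 1 fun t _ => by
    have := abs_le.1 (hf t)
    nlinarith
  simpa using h3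

theorem Wiener_data (x y : ℕ → ℝ) (hx : ∀ t, |x t| ≤ 1) (hy : ∀ t, |y t| ≤ 1) (N : ℕ) :
    ∃ (M : ℕ) (z w : ℕ → ℂ), (∀ ξ, ‖z ξ‖ = 1) ∧ ∑ ξ ∈ range M, ‖w ξ‖ ≤ 2 ∧ ∀ b ≤ N,
      ∑ ξ ∈ range M, z ξ ^ b * w ξ = (((∑ t ∈ range N, x t * y (b + t)) / N : ℝ) : ℂ) := by
  rcases Nat.eq_zero_or_pos N with rfl | hN
  · exact ⟨0, 1, 0, by simp, by simp, by simp⟩
  have hω := Complex.isPrimitiveRoot_exp (N + N) (by omega)
  generalize Complex.exp _ = ω at hω
  have n1 : ‖ω‖ = 1 := hω.norm'_eq_one (by omega)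
  have N0 : (0 : ℝ) < N := by exact_mod_cast hN
  refine ⟨N + N, fun ξ => ω ^ ξ, fun ξ => Wiener_P x N (ω ^ ξ) *
    conj (Wiener_P y (N + N) (ω ^ ξ)) / ((N + N) * N : ℝ), fun ξ => by simp [n1], ?_,
    fun b hb => ?_⟩
  · have a1 := Wiener_pars hω hx (n := N) (by omega)
    have a2 := Wiener_pars hω hy (n := N + N) le_rfl
    have a3 : ∑ ξ ∈ range (N + N), ‖Wiener_P x N (ω ^ ξ)‖ * ‖Wiener_P y (N + N) (ω ^ ξ)‖ ≤
        ∑ ξ ∈ range (N + N), (‖Wiener_P x N (ω ^ ξ)‖ ^ 2 + ‖Wiener_P y (N + N) (ω ^ ξ)‖ ^ 2) / 2 :=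
      sum_le_sum fun ξ _ => by
        nlinarith [sq_nonneg (‖Wiener_P x N (ω ^ ξ)‖ - ‖Wiener_P y (N + N) (ω ^ ξ)‖)]
    rw [← sum_div, sum_add_distrib] at a3
    simp only [norm_div, norm_mul, Complex.norm_conj, Complex.norm_real, ← sum_div]
    rw [Real.norm_of_nonneg (by positivity), Real.norm_of_nonneg (by positivity),
      div_le_iff₀ (by positivity)]
    push_cast at a1 a2
    nlinarith
  · simp only [← mul_div_assoc, ← sum_div]
    rw [Wiener_corr hω x y (by omega) le_rfl]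
    have : (N : ℂ) ≠ 0 := by exact_mod_cast hN.ne'
    have h2 : (N : ℂ) + N ≠ 0 := by
      rw [← two_mul]
      exact mul_ne_zero two_ne_zero this
    push_cast
    field_simp

/-- Pairs of a frequency and a phase. -/
abbrev Wiener_E : Type := Metric.sphere (0 : ℂ) 1 × Metric.closedBall (0 : ℂ) 1

theorem Wiener_meas (M : ℕ) (z w : ℕ → ℂ) (hz : ∀ ξ, ‖z ξ‖ = 1) (hw : ∑ ξ ∈ range M, ‖w ξ‖ ≤ 2) :
    ∃ τ : FiniteMeasure Wiener_E, τ.mass ≤ 2 ∧ ∀ b : ℕ,
      ∫ p, (p.1 : ℂ) ^ b * (p.2 : ℂ) ∂(τ : Measure Wiener_E) = ∑ ξ ∈ range M, z ξ ^ b * w ξ := by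
  have h1 : ∀ ξ, ‖w ξ / (‖w ξ‖ : ℂ)‖ ≤ 1 := fun ξ => by
    rw [norm_div, Complex.norm_real, norm_norm]
    exact div_self_le_one _
  let p : ℕ → Wiener_E := fun ξ => (⟨z ξ, mem_sphere_zero_iff_norm.2 (hz ξ)⟩,
    ⟨w ξ / (‖w ξ‖ : ℂ), mem_closedBall_zero_iff.2 (h1 ξ)⟩)
  let μ : Measure Wiener_E := ∑ ξ ∈ range M, ‖w ξ‖₊ • Measure.dirac (p ξ)
  have h2 : μ Set.univ = ((∑ ξ ∈ range M, ‖w ξ‖₊ : NNReal) : ENNReal) := by
    simp [μ, Measure.finsetSum_apply]
  have h3 : IsFiniteMeasure μ := ⟨by rw [h2]; exact ENNReal.coe_lt_top⟩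
  refine ⟨⟨μ, h3⟩, ?_, fun b => ?_⟩
  · change (μ Set.univ).toNNReal ≤ 2
    rw [h2, ENNReal.toNNReal_coe, ← NNReal.coe_le_coe, NNReal.coe_sum]
    exact hw
  · change ∫ p, (p.1 : ℂ) ^ b * (p.2 : ℂ) ∂μ = _
    rw [integral_finsetSum_measure fun ξ _ =>
      (integrable_dirac enorm_lt_top).smul_measure_nnreal]
    refine sum_congr rfl fun ξ _ => ?_
    rw [integral_smul_nnreal_measure, integral_dirac, NNReal.smul_def, coe_nnnorm,
      Complex.real_smul]
    change (‖w ξ‖ : ℂ) * (z ξ ^ b * (w ξ / (‖w ξ‖ : ℂ))) = _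
    by_cases h : w ξ = 0
    · simp [h]
    · have : (‖w ξ‖ : ℂ) ≠ 0 := by simpa using h
      field_simp

theorem Wiener_rep (𝒰 : Ultrafilter ℕ) (h𝒰 : (𝒰 : Filter ℕ) ≤ atTop) (x y : ℕ → ℝ)
    (hx : ∀ t, |x t| ≤ 1) (hy : ∀ t, |y t| ≤ 1) (k : ℕ → ℝ)
    (hk : ∀ b, Tendsto (fun N : ℕ => (∑ t ∈ Finset.range N, x t * y (b + t)) / N)
      (𝒰 : Filter ℕ) (𝓝 (k b))) : ∃ τ : FiniteMeasure Wiener_E, τ.mass ≤ 2 ∧ ∀ b : ℕ,
      ∫ p, (p.1 : ℂ) ^ b * (p.2 : ℂ) ∂(τ : Measure Wiener_E) = k b := by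
  have h : ∀ N : ℕ, ∃ τ : FiniteMeasure Wiener_E, τ.mass ≤ 2 ∧ ∀ b ≤ N,
      ∫ p, (p.1 : ℂ) ^ b * (p.2 : ℂ) ∂(τ : Measure Wiener_E) =
        (((∑ t ∈ range N, x t * y (b + t)) / N : ℝ) : ℂ) := fun N => by
    obtain ⟨M, z, w, h1, h2, h3⟩ := Wiener_data x y hx hy N
    obtain ⟨τ, h4, h5⟩ := Wiener_meas M z w h1 h2
    exact ⟨τ, h4, fun b hb => (h5 b).trans (h3 b hb)⟩
  choose τ h1 h2 using h
  obtain ⟨σ, s1, s2⟩ := (isCompact_setOfPred_finiteMeasure_le_of_compactSpace Wiener_E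
    2).ultrafilter_le_nhds (𝒰.map τ) (le_principal_iff.2 (by
      exact mem_map.2 (univ_mem' h1)))
  refine ⟨σ, s1, fun b => ?_⟩
  have s3 : Tendsto τ (𝒰 : Filter ℕ) (𝓝 σ) := s2
  have s4 := (FiniteMeasure.tendsto_iff_forall_integral_rclike_tendsto ℂ).1 s3
    (BoundedContinuousFunction.mkOfCompact ⟨fun p : Wiener_E => (p.1 : ℂ) ^ b * (p.2 : ℂ),
      by fun_prop⟩)
  refine tendsto_nhds_unique s4 (((Complex.continuous_ofReal.tendsto _).comp (hk b)).congr' ?_)
  filter_upwards [h𝒰 (eventually_ge_atTop b)] with N hN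
  exact (h2 N b hN).symm

/-- The mean of the first `N` powers. -/
noncomputable def Wiener_D (N : ℕ) (u : ℂ) : ℂ := (∑ b ∈ range N, u ^ b) / N

theorem Wiener_avg {f : ℕ → ℂ} {C : ℝ} (hC : 0 ≤ C) (h : ∀ b, ‖f b‖ ≤ C) (N : ℕ) :
    ‖(∑ b ∈ range N, f b) / N‖ ≤ C := by
  rw [norm_div, Complex.norm_natCast]
  refine div_le_of_le_mul₀ (Nat.cast_nonneg _) hC ((norm_sum_le _ _).trans ?_)
  simpa [mul_comm] using sum_le_card_nsmul (range N) (fun b => ‖f b‖) C fun b _ => h b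

theorem Wiener_D_lim {u : ℂ} (hu : ‖u‖ = 1) :
    Tendsto (fun N => Wiener_D N u) atTop (𝓝 (if u = 1 then 1 else 0)) := by
  split_ifs with h
  · refine tendsto_const_nhds.congr' ?_
    filter_upwards [eventually_gt_atTop 0] with N hN
    have : (N : ℂ) ≠ 0 := by exact_mod_cast hN.ne'
    simp [Wiener_D, h, this]
  · refine squeeze_zero_norm (a := fun N : ℕ => 2 / ‖u - 1‖ / N) (fun N => ?_)
      (tendsto_const_div_atTop_nhds_zero_nat _)
    rw [Wiener_D, geom_sum_eq h, norm_div, norm_div, Complex.norm_natCast]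
    gcongr
    refine (norm_sub_le _ _).trans ?_
    rw [norm_pow, hu, one_pow, norm_one]
    norm_num

theorem Wiener_small {E : Type} [MeasurableSpace E] (ν : Measure E) [IsFiniteMeasure ν]
    (hν : ν.real Set.univ ≤ 2) {u v : E → ℂ} (mu : Measurable u) (mv : Measurable v)
    (hu : ∀ p, ‖u p‖ = 1) (hv : ∀ p, ‖v p‖ ≤ 1) {η : ℝ} (hη : 0 < η)
    (ha : ∀ z, ν.real (u ⁻¹' {z}) ≤ η) :
    ∀ᶠ N : ℕ in atTop, ∑ b ∈ range N, ‖∫ p, u p ^ b * v p ∂ν‖ ^ 2 ≤ 3 * η * N := by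
  have bd : ∀ (f : E → ℂ) (C : ℝ), Measurable f → (∀ p, ‖f p‖ ≤ C) → Integrable f ν :=
    fun f C h1 h2 => Integrable.of_bound h1.aestronglyMeasurable C (Eventually.of_forall h2)
  have n1 : ∀ b p, ‖u p ^ b * v p‖ ≤ 1 := fun b p => by
    rw [norm_mul, norm_pow, hu, one_pow, one_mul]
    exact hv p
  have i1 : ∀ b, Integrable (fun p => u p ^ b * v p) ν := fun b =>
    bd _ 1 (by fun_prop) (n1 b)
  set ρ : ℕ → ℂ := fun b => ∫ p, u p ^ b * v p ∂ν with hρ
  have r1 : ∀ b, ‖ρ b‖ ≤ 2 := fun b =>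
    (norm_integral_le_of_norm_le_const (Eventually.of_forall (n1 b))).trans (by linarith)
  let H : ℕ → ℂ → ℂ := fun N z => (∑ b ∈ range N, ρ b * conj z ^ b) / N
  have H1 : ∀ N z, H N z = ∫ p, Wiener_D N (u p * conj z) * v p ∂ν := fun N z => by
    have : ∀ p, Wiener_D N (u p * conj z) * v p =
        (∑ b ∈ range N, u p ^ b * v p * conj z ^ b) / N := fun p => by
      rw [Wiener_D, div_mul_eq_mul_div, sum_mul]
      congr 1
      exact sum_congr rfl fun b _ => by ring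
    simp only [this]
    rw [integral_div, integral_finsetSum _ fun b _ => (i1 b).mul_const _]
    simp only [integral_mul_const]
    rfl
  have H2 : ∀ N p, ‖H N (u p)‖ ≤ 2 := fun N p => Wiener_avg (by norm_num) (fun b => by
    rw [norm_mul, norm_pow, Complex.norm_conj, hu, one_pow, mul_one]
    exact r1 b) N
  have H3 : ∀ q, Tendsto (fun N => max (‖H N (u q)‖ - η) 0) atTop (𝓝 0) := fun q => by
    have c1 : u q * conj (u q) = 1 := by
      rw [Complex.mul_conj, Complex.normSq_eq_norm_sq, hu]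
      simp
    have n2 : ∀ p, ‖u p * conj (u q)‖ = 1 := fun p => by
      rw [norm_mul, Complex.norm_conj, hu, hu, one_mul]
    have t1 := tendsto_integral_of_dominated_convergence (μ := ν)
      (F := fun N p => Wiener_D N (u p * conj (u q)) * v p)
      (f := (u ⁻¹' {u q}).indicator v) (fun _ => 1)
      (fun N => Measurable.aestronglyMeasurable (by unfold Wiener_D; fun_prop))
      (integrable_const _) (fun N => Eventually.of_forall fun p => by
        rw [norm_mul]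
        exact mul_le_one₀ (Wiener_avg zero_le_one (fun b => by rw [norm_pow, n2, one_pow]) N)
          (norm_nonneg _) (hv p))
      (Eventually.of_forall fun p => by
        have := (Wiener_D_lim (n2 p)).mul_const (v p)
        convert this using 2
        by_cases h : u p = u q
        · rw [Set.indicator_of_mem (show p ∈ u ⁻¹' {u q} from h), h, if_pos c1, one_mul]
        · rw [Set.indicator_of_notMem (show p ∉ u ⁻¹' {u q} from h), if_neg, zero_mul]
          exact fun h' => h (by linear_combination u q * h' - u p * c1))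
    rw [integral_indicator (mu (measurableSet_singleton _))] at t1
    have t2 : ‖∫ p in u ⁻¹' {u q}, v p ∂ν‖ ≤ η :=
      (norm_setIntegral_le_of_norm_le_const (measure_lt_top _ _) fun p _ => hv p).trans
        (by rw [one_mul]; exact ha _)
    have t3 := (t1.norm.sub_const η).max (tendsto_const_nhds (x := (0 : ℝ)))
    rw [max_eq_right (sub_nonpos.2 t2)] at t3
    simpa only [H1] using t3
  have mH : ∀ N, Measurable fun p => H N (u p) := fun N => by
    have := Complex.continuous_conj.measurable.comp mu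
    exact (Finset.measurable_sum _ fun b _ => (this.pow_const b).const_mul _).div_const _
  have b1 : ∀ N p, ‖max (‖H N (u p)‖ - η) 0‖ ≤ 2 := fun N p => by
    rw [Real.norm_of_nonneg (le_max_right _ _)]
    exact max_le (by linarith [H2 N p]) (by norm_num)
  have m1 : ∀ N, AEStronglyMeasurable (fun p => max (‖H N (u p)‖ - η) 0) ν := fun N =>
    (((mH N).norm.sub_const η).max measurable_const).aestronglyMeasurable
  have H4 := tendsto_integral_of_dominated_convergence (μ := ν)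
    (F := fun N p => max (‖H N (u p)‖ - η) 0) (f := fun _ => (0 : ℝ)) (fun _ => 2) m1
    (integrable_const _) (fun N => Eventually.of_forall (b1 N)) (Eventually.of_forall H3)
  rw [integral_zero] at H4
  filter_upwards [H4.eventually (gt_mem_nhds hη), eventually_gt_atTop 0] with N h1 hN
  have N0 : (0 : ℝ) < N := by exact_mod_cast hN
  have e1 : ∫ p, conj (H N (u p)) * v p ∂ν = ((∑ b ∈ range N, ‖ρ b‖ ^ 2) / N : ℝ) := by
    have : ∀ p, conj (H N (u p)) * v p = (∑ b ∈ range N, conj (ρ b) * (u p ^ b * v p)) / N :=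
      fun p => by
        simp only [H, map_div₀, map_sum, map_mul, map_pow, Complex.conj_conj, map_natCast]
        rw [div_mul_eq_mul_div, sum_mul]
        simp only [mul_assoc]
    simp only [this]
    rw [integral_div, integral_finsetSum _ fun b _ => (i1 b).const_mul _]
    simp only [integral_const_mul]
    push_cast
    congr 1
    exact sum_congr rfl fun b _ => Complex.conj_mul' (ρ b)
  have i2 : Integrable (fun p => max (‖H N (u p)‖ - η) 0) ν :=
    Integrable.of_bound (m1 N) 2 (Eventually.of_forall (b1 N))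
  have e2 := norm_integral_le_of_norm_le (f := fun p => conj (H N (u p)) * v p)
    ((integrable_const η).add i2) (Eventually.of_forall fun p => by
      rw [norm_mul, Complex.norm_conj]
      have := mul_le_of_le_one_right (norm_nonneg (H N (u p))) (hv p)
      have := le_max_left (‖H N (u p)‖ - η) 0
      simp only [Pi.add_apply]
      linarith)
  rw [e1, Complex.norm_real, Real.norm_of_nonneg (by positivity), integral_add'
    (integrable_const η) i2, integral_const, smul_eq_mul, div_le_iff₀ N0] at e2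
  refine e2.trans (mul_le_mul_of_nonneg_right ?_ N0.le)
  nlinarith

end Aux

theorem wiener (𝒰 : Ultrafilter ℕ) (h𝒰 : (𝒰 : Filter ℕ) ≤ atTop) (x y : ℕ → ℝ)
    (hx : ∀ t, |x t| ≤ 1) (hy : ∀ t, |y t| ≤ 1) (k : ℕ → ℝ)
    (hk : ∀ b, Tendsto (fun N : ℕ => (∑ t ∈ Finset.range N, x t * y (b + t)) / N)
      (𝒰 : Filter ℕ) (𝓝 (k b))) {ζ : ℝ} (hζ : 0 < ζ) :
    ∃ (r : ℕ) (z a : ℕ → ℂ), (∀ j, ‖z j‖ = 1) ∧ ∀ᶠ N : ℕ in atTop,
      ∑ b ∈ Finset.range N, |k b - (∑ j ∈ Finset.range r, a j * z j ^ b).re| ≤ ζ * N := by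
  classical
  obtain ⟨τ, t1, t2⟩ := Wiener_rep 𝒰 h𝒰 x y hx hy k hk
  have t3 : (τ : MeasureTheory.Measure Wiener_E).real Set.univ ≤ 2 := by exact_mod_cast t1
  have t4 : MeasureTheory.IsFiniteMeasure (τ : MeasureTheory.Measure Wiener_E) := inferInstance
  generalize (τ : MeasureTheory.Measure Wiener_E) = μ at t2 t3 t4
  let u : Wiener_E → ℂ := fun p => p.1
  let v : Wiener_E → ℂ := fun p => p.2
  have mu : Measurable u := by fun_prop
  have mv : Measurable v := by fun_prop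
  have hu : ∀ p, ‖u p‖ = 1 := fun p => mem_sphere_zero_iff_norm.1 p.1.2
  have hv : ∀ p, ‖v p‖ ≤ 1 := fun p => mem_closedBall_zero_iff.1 p.2.2
  have hη : 0 < ζ ^ 2 / 3 := by positivity
  have ms : ∀ z, MeasurableSet (u ⁻¹' {z}) := fun z => mu (measurableSet_singleton z)
  have fin := MeasureTheory.Measure.finite_const_le_meas_of_disjoint_iUnion μ
    (ENNReal.ofReal_pos.2 hη) ms (fun z z' h => (Set.disjoint_singleton.2 h).preimage u)
    (MeasureTheory.measure_ne_top _ _)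
  let A : Finset ℂ := fin.toFinset.filter fun z => ‖z‖ = 1
  have mA : MeasurableSet (u ⁻¹' (A : Set ℂ)) := mu A.measurableSet
  have w := Wiener_small (μ.restrict (u ⁻¹' (A : Set ℂ))ᶜ) (by
    rw [MeasureTheory.measureReal_restrict_apply_univ]
    exact (MeasureTheory.measureReal_mono (Set.subset_univ _)).trans t3) mu mv hu hv hη fun z => by
      rw [MeasureTheory.measureReal_restrict_apply (ms z)]
      rcases (u ⁻¹' {z} ∩ (u ⁻¹' (A : Set ℂ))ᶜ).eq_empty_or_nonempty with h | ⟨p, h1, h2⟩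
      · rw [h, MeasureTheory.measureReal_empty]
        exact hη.le
      · refine (MeasureTheory.measureReal_mono Set.inter_subset_left).trans
          (ENNReal.toReal_le_of_le_ofReal hη.le (not_lt.1 fun h => h2 ?_))
        have h3 : u p = z := h1
        exact Finset.mem_filter.2 ⟨fin.mem_toFinset.2 (h3 ▸ h.le), hu p⟩
  let z : ℕ → ℂ := fun j => if h : j < A.card then (A.equivFin.symm ⟨j, h⟩ : ℂ) else 1
  have hz : ∀ F : ℂ → ℂ, ∑ j ∈ Finset.range A.card, F (z j) = ∑ c ∈ A, F c := fun F => by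
    rw [Finset.sum_range, ← Finset.sum_coe_sort A, ← A.equivFin.symm.sum_comp]
    exact Finset.sum_congr rfl fun j _ => by simp only [z, dif_pos j.2]
  refine ⟨A.card, z, fun j => ∫ p in u ⁻¹' {z j}, v p ∂μ, fun j => ?_, ?_⟩
  · simp only [z]
    split_ifs with h
    · exact (Finset.mem_filter.1 (A.equivFin.symm ⟨j, h⟩).2).2
    · exact norm_one
  filter_upwards [w] with N hN
  have key : ∀ b : ℕ, |k b - (∑ j ∈ Finset.range A.card,
      (∫ p in u ⁻¹' {z j}, v p ∂μ) * z j ^ b).re| ≤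
      ζ / 2 + ‖∫ p in (u ⁻¹' (A : Set ℂ))ᶜ, u p ^ b * v p ∂μ‖ ^ 2 / (2 * ζ) := fun b => by
    have i1 : MeasureTheory.Integrable (fun p => u p ^ b * v p) μ :=
      MeasureTheory.Integrable.of_bound (Measurable.aestronglyMeasurable (by fun_prop)) 1
        (Eventually.of_forall fun p => by
          rw [norm_mul, norm_pow, hu, one_pow, one_mul]
          exact hv p)
    have e1 : ∫ p in u ⁻¹' (A : Set ℂ), u p ^ b * v p ∂μ =
        ∑ c ∈ A, (∫ p in u ⁻¹' {c}, v p ∂μ) * c ^ b := by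
      rw [show u ⁻¹' (A : Set ℂ) = ⋃ c ∈ A, u ⁻¹' {c} by ext p; simp,
        MeasureTheory.integral_biUnion_finset A (fun c _ => ms c)
          (fun c _ c' _ h => (Set.disjoint_singleton.2 h).preimage u) fun c _ => i1.integrableOn]
      refine Finset.sum_congr rfl fun c _ => ?_
      rw [← MeasureTheory.integral_mul_const]
      refine MeasureTheory.setIntegral_congr_fun (ms c) fun p hp => ?_
      have h3 : u p = c := hp
      simp only [h3, mul_comm]
    have e2 := MeasureTheory.integral_add_compl mA i1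
    rw [e1, t2 b] at e2
    rw [hz fun c => (∫ p in u ⁻¹' {c}, v p ∂μ) * c ^ b, ← Complex.ofReal_re (k b), ← e2,
      Complex.add_re, add_sub_cancel_left]
    refine (Complex.abs_re_le_norm _).trans ?_
    generalize ‖∫ p in (u ⁻¹' (A : Set ℂ))ᶜ, u p ^ b * v p ∂μ‖ = t
    rw [div_add_div _ _ two_ne_zero (by positivity), le_div_iff₀ (by positivity)]
    nlinarith [sq_nonneg (t - ζ)]
  refine (Finset.sum_le_sum fun b _ => key b).trans ?_
  rw [Finset.sum_add_distrib, Finset.sum_const, Finset.card_range, nsmul_eq_mul, ← Finset.sum_div]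
  have : 3 * (ζ ^ 2 / 3) * N / (2 * ζ) = ζ * N / 2 := by field_simp
  have := div_le_div_of_nonneg_right hN (show 0 ≤ 2 * ζ by positivity)
  linarith

end Pool.Agent.P.MP_db6017_lc.Q1
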