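import Pool.Agent.P.MP_db6017_lc.Q1.Phase
import Pool.Agent.P.MP_db6017_lc.Q1.TrueCode
import Pool.Agent.P.MP_db6017_lc.Q1.Wiener

/-!
Every admissible set of positive upper density carries, for one of the two colours, a random set of
good extensions whose expected density is large computably often.
-/

namespace Pool.Agent.P.MP_db6017_lc.Q1

open Pool.Agent.Lib.Comp Filter Topology

/-- There is a random set all of whose finite parts leave a reservoir of positive density, and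
whose expected density in `X` is large computably often. -/
def Star (g : Bool → ℕ → ℕ) (Z γ X : ℕ → Bool) : Prop :=
  ∃ Z', Adm g Z' ∧ CI Z' Z ∧ CI Z' X ∧ ∃ S : ℕ → Bool,
    (∀ (ω : ℕ → Bool) (F : List ℕ), (∀ b ∈ F, rs S ω b = true) → PosDens (cut γ X F)) ∧
    ∃ (K : ℕ) (R : ℕ → ℕ → Bool), CI Z' (fun w : ℕ × ℕ => R w.1 w.2) ∧ (∀ n, ∃ v, R n v = true) ∧
      ∀ n v, R n v = true → ∃ N, n ≤ N ∧ N ≤ v ∧ Good K X S N = true

variable {g : Bool → ℕ → ℕ} {Z Z' γ c X : ℕ → Bool}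

theorem star_of (h1 : Adm g Z') (h2 : CI Z' Z) (h3 : CI Z' X) {𝒰 : Ultrafilter ℕ}
    (h𝒰 : (𝒰 : Filter ℕ) ≤ atTop) (hd : 0 < dens 𝒰 X) {ε : ℝ} (hε : 0 < ε) {R : ℕ → ℕ → Bool}
    (hR : CI Z' fun w : ℕ × ℕ => R w.1 w.2) (htot : ∀ n, ∃ v, R n v = true) (n0 : ℕ)
    (h : ∀ n v, n0 ≤ n → R n v = true → ∃ N, n ≤ N ∧ N ≤ v ∧
      ε * N ≤ ∑ b ∈ Finset.range N, ind X b * dens 𝒰 (cut γ X [b])) : Star g Z γ X := by
  obtain ⟨S, hS, hlam⟩ := exists_code 𝒰 γ X hd
  obtain ⟨K, hK⟩ := exists_nat_ge (4 / ε)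
  rw [div_le_iff₀ hε] at hK
  refine ⟨Z', h1, h2, h3, S, fun ω F hF => posDens_of_dens h𝒰 (hS ω F hF), K,
    fun n v => R (n + n0 + K) v, by fun_prop, fun n => htot _, fun n v hv => ?_⟩
  obtain ⟨N, a1, a2, a3⟩ := h _ v (by omega) hv
  refine ⟨N, by omega, a2, good_iff.2 ?_⟩
  have a4 : ∑ b ∈ Finset.range N, (ind X b * dens 𝒰 (cut γ X [b]) - (1 / 2) ^ b) ≤
      ∑ b ∈ Finset.range N, if X b = true then lam S b else 0 := by
    refine Finset.sum_le_sum fun b _ => ?_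
    unfold ind
    split_ifs
    · rw [one_mul]; exact hlam b
    · rw [zero_mul, zero_sub, neg_nonpos]; positivity
  rw [Finset.sum_sub_distrib] at a4
  have a5 := sum_geometric_two_le N
  have a6 : (K : ℝ) ≤ N := by exact_mod_cast (by omega : K ≤ N)
  have a7 := mul_le_mul_of_nonneg_left (show ε * N - 2 ≤ _ from by linarith [a4] : ε * N - 2 ≤
    ∑ b ∈ Finset.range N, if X b = true then lam S b else 0) (by positivity : (0 : ℝ) ≤ K)
  have a8 := mul_le_mul_of_nonneg_right hK (by positivity : (0 : ℝ) ≤ N)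
  have a9 : (0 : ℝ) ≤ N := by positivity
  linarith

theorem cnt_cut (γ X : ℕ → Bool) (b N : ℕ) :
    (cnt (cut γ X [b]) N : ℝ) = ∑ t ∈ Finset.range N, ind X t * ind γ (b + t) := by
  rw [cnt_cast]
  refine Finset.sum_congr rfl fun t _ => ?_
  unfold ind cut
  cases X t <;> cases h : γ (b + t) <;> simp [h]

theorem dens_cut_add (𝒰 : Ultrafilter ℕ) (c X : ℕ → Bool) (b : ℕ) :
    dens 𝒰 (cut c X [b]) + dens 𝒰 (cut (fun t => !c t) X [b]) = dens 𝒰 X := by
  refine tendsto_nhds_unique ((tendsto_dens 𝒰 _).add (tendsto_dens 𝒰 _))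
    ((tendsto_dens 𝒰 X).congr fun N => ?_)
  rw [← add_div, cnt_cut, cnt_cut, cnt_cast, ← Finset.sum_add_distrib]
  refine congrArg (· / (N : ℝ)) (Finset.sum_congr rfl fun t _ => ?_)
  unfold ind
  cases X t <;> cases h : c (b + t) <;> simp [h]

theorem star_or (hX : Adm g (J Z X)) (hp : PosDens X) (c : ℕ → Bool) :
    Star g Z c X ∨ Star g Z (fun t => !c t) X := by
  obtain ⟨K, hK⟩ := hp
  have hne : NeBot (atTop ⊓ 𝓟 {N | leb N (K * cnt X N) = true}) :=
    frequently_iff_neBot.1 (frequently_atTop.2 fun n => by simpa using hK n)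
  obtain ⟨𝒰, h𝒰⟩ := Ultrafilter.exists_le (atTop ⊓ 𝓟 {N | leb N (K * cnt X N) = true})
  rw [le_inf_iff, le_principal_iff] at h𝒰
  obtain ⟨h𝒰, hD⟩ := h𝒰
  have hKd : 1 ≤ K * dens 𝒰 X := by
    refine ge_of_tendsto ((tendsto_dens 𝒰 X).const_mul (K : ℝ)) ?_
    filter_upwards [hD, h𝒰 (eventually_gt_atTop 0)] with N h1 h2
    have h3 : (0 : ℝ) < N := by exact_mod_cast h2
    rw [← mul_div_assoc, le_div_iff₀ h3, one_mul]
    exact_mod_cast leb_true.1 h1
  have hK0 : (0 : ℝ) < K := by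
    refine (Nat.cast_nonneg K).lt_of_ne fun e => ?_
    rw [← e] at hKd
    linarith
  have hd : 0 < dens 𝒰 X := pos_of_mul_pos_left (by rw [mul_comm]; linarith) hK0.le
  obtain ⟨ε, hε⟩ : ∃ ε, ε = dens 𝒰 X / K := ⟨_, rfl⟩
  have hε0 : 0 < ε := hε ▸ div_pos hd hK0
  obtain ⟨r, z, a, hz, hw⟩ := wiener 𝒰 h𝒰 (ind X) (ind c) (abs_ind_le X) (abs_ind_le c)
    (fun b => dens 𝒰 (cut c X [b]))
    (fun b => by simpa only [cnt_cut] using tendsto_dens 𝒰 (cut c X [b])) (ζ := ε / 8)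
    (by positivity)
  obtain ⟨n0, hn0⟩ := eventually_atTop.1 hw
  have hr := ci_right Z X
  obtain ⟨v, Z', h1, h2, R, h3, h4, h5⟩ := phase (D := fun N => leb N (K * cnt X N)) hX hr
    (by unfold cnt; fun_prop) 𝒰 h𝒰 hD r z a hz (ζ := ε / 8) (by positivity)
  have key : ∀ n w, n0 ≤ n → R n w = true → ∃ N, n ≤ N ∧ N ≤ w ∧ ε * N ≤ dens 𝒰 X * cnt X N ∧
      |∑ b ∈ Finset.range N, ind X b * dens 𝒰 (cut c X [b]) - v * N| ≤ ε / 4 * N := by
    intro n w hn hw
    obtain ⟨N, a1, a2, a3, a4⟩ := h5 n w hw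
    refine ⟨N, a1, a2, ?_, ?_⟩
    · have : (N : ℝ) ≤ K * cnt X N := by exact_mod_cast leb_true.1 a3
      rw [hε, div_mul_eq_mul_div, div_le_iff₀ hK0, mul_assoc, mul_comm _ (K : ℝ)]
      gcongr
    · have a5 : |∑ b ∈ Finset.range N, ind X b * dens 𝒰 (cut c X [b]) - trig X r a z N| ≤
          ε / 8 * N := by
        rw [trig, ← Finset.sum_sub_distrib]
        refine (Finset.abs_sum_le_sum_abs _ _).trans ((Finset.sum_le_sum fun b _ => ?_).trans
          (hn0 N (hn.trans a1)))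
        unfold ind
        split_ifs <;> simp
      exact (abs_sub_le _ (trig X r a z N) _).trans (by linarith)
  have hZ := (ci_left Z X).trans h2
  have hX' := hr.trans h2
  rcases le_total (ε / 2) v with hv | hv
  · refine Or.inl (star_of h1 hZ hX' h𝒰 hd (ε := ε / 4) (by positivity) h3 h4 n0
      fun n w hn hw => ?_)
    obtain ⟨N, a1, a2, -, a4⟩ := key n w hn hw
    have := mul_le_mul_of_nonneg_right hv (by positivity : (0 : ℝ) ≤ N)
    exact ⟨N, a1, a2, by linarith [(abs_le.1 a4).1]⟩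
  · refine Or.inr (star_of h1 hZ hX' h𝒰 hd (ε := ε / 4) (by positivity) h3 h4 n0
      fun n w hn hw => ?_)
    obtain ⟨N, a1, a2, a3, a4⟩ := key n w hn hw
    have := mul_le_mul_of_nonneg_right hv (by positivity : (0 : ℝ) ≤ N)
    have e : ∑ b ∈ Finset.range N, ind X b * dens 𝒰 (cut c X [b]) +
        ∑ b ∈ Finset.range N, ind X b * dens 𝒰 (cut (fun t => !c t) X [b]) =
        dens 𝒰 X * cnt X N := by
      rw [← Finset.sum_add_distrib, cnt_cast, Finset.mul_sum]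
      exact Finset.sum_congr rfl fun b _ => by rw [← mul_add, dens_cut_add, mul_comm, ind]
    exact ⟨N, a1, a2, by linarith [(abs_le.1 a4).2]⟩

end Pool.Agent.P.MP_db6017_lc.Q1
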