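import Pool.Agent.P.MP_db6017_lc.Q1.Random
import Pool.Agent.P.MP_db6017_lc.Q1.Star

/-!
The forcing construction: every colouring of numbers has an infinite set with homogeneous sums of
two elements that keeps admissibility.
-/

namespace Pool.Agent.P.MP_db6017_lc.Q1

open Pool.Agent.Lib.Comp Filter Topology

theorem PosDens.tail {X : ℕ → Bool} (h : PosDens X) (l : ℕ) :
    PosDens fun y => leb l y && X y := by
  obtain ⟨K, hK⟩ := h
  refine ⟨2 * K, fun n => ?_⟩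
  obtain ⟨N, h1, h2⟩ := hK (n + 2 * (K * l))
  have key : ∀ N, cnt X N ≤ cnt (fun y => leb l y && X y) N + min N l := by
    intro N
    induction N with
    | zero => simp [cnt]
    | succ N ih =>
      unfold cnt at ih ⊢
      simp only [Finset.sum_range_succ] at ih ⊢
      by_cases h : l ≤ N
      · rw [leb_true.2 h, Bool.true_and]; omega
      · rw [leb_false.2 (not_le.1 h), Bool.false_and]
        cases X N <;> simp only [cond_true, cond_false] <;> omega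
  have h3 := Nat.mul_le_mul_left K ((key N).trans (Nat.add_le_add_left (min_le_right _ _) _))
  refine ⟨N, by omega, ?_⟩
  rw [mul_add] at h3
  rw [mul_assoc]
  omega

theorem PosDens.exists {X : ℕ → Bool} (h : PosDens X) : ∃ y, X y = true := by
  obtain ⟨K, hK⟩ := h
  obtain ⟨N, h1, h2⟩ := hK 1
  by_contra hc
  have : cnt X N = 0 := Finset.sum_eq_zero fun y _ => by
    rw [Bool.eq_false_iff.2 fun e => hc ⟨y, e⟩]; rfl
  rw [this] at h2
  omega

section ci

variable {α : Type} [Primcodable α] {Z : ℕ → Bool}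

@[fun_prop] theorem ci_lev {b : α → ℕ} (hb : CI Z b) : CI Z fun a => lev (b a) := by
  unfold lev
  fun_prop

@[fun_prop] theorem ci_rs {S ω : α → ℕ → Bool} {b : α → ℕ}
    (hS : CI Z fun p : α × ℕ => S p.1 p.2) (hω : CI Z fun p : α × ℕ => ω p.1 p.2) (hb : CI Z b) :
    CI Z fun a => rs (S a) (ω a) (b a) := by
  unfold rs
  fun_prop

@[fun_prop] theorem ci_good {K : ℕ} {X : ℕ → Bool} {S : α → ℕ → Bool} {N : α → ℕ} (hX : CI Z X)
    (hS : CI Z fun p : α × ℕ => S p.1 p.2) (hN : CI Z N) :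
    CI Z fun a => Good K X (S a) (N a) := by
  unfold Good cs
  fun_prop

end ci

theorem pair_lt_bd {b a t : ℕ} (hb : b < t) (ha : a < 2 ^ lev b) :
    Nat.pair b a < (t + 2 ^ lev t) ^ 2 := by
  have : 2 ^ lev b ≤ 2 ^ lev t := Nat.pow_le_pow_right two_pos (by unfold lev; omega)
  exact (Nat.pair_lt_max_add_one_sq _ _).trans_le (Nat.pow_le_pow_left (by omega) 2)

/-- The sums of two different elements of `H` lie in `γ`. -/
def Hom (γ H : ℕ → Bool) : Prop := ∀ x y, x < y → H x = true → H y = true → γ (x + y) = true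

/-- Forcing conditions: a finite set `F` below `l` and a reservoir `X`. -/
structure Cn where
  F : ℕ → Bool
  l : ℕ
  X : ℕ → Bool

/-- Valid conditions. -/
def Cond (g : Bool → ℕ → ℕ) (Z γ : ℕ → Bool) (p : Cn) : Prop :=
  (Adm g (J Z p.X) ∧ PosDens p.X) ∧ (∀ y, p.X y = true → p.l ≤ y) ∧
    (∀ x, p.F x = true → x < p.l) ∧ Hom γ p.F ∧
    ∀ x y, p.F x = true → p.X y = true → γ (x + y) = true

/-- `H` extends the condition `p`. -/
def Ext (p : Cn) (H : ℕ → Bool) : Prop :=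
  (∀ i < p.l, H i = p.F i) ∧ ∀ i, p.l ≤ i → H i = true → p.X i = true

/-- `q` is stronger than `p`. -/
def Le (q p : Cn) : Prop := p.l ≤ q.l ∧ Ext p q.F ∧ ∀ y, q.X y = true → p.X y = true

theorem Le.ext {p q : Cn} (h : Le q p) {H : ℕ → Bool} (hH : Ext q H) : Ext p H := by
  refine ⟨fun i hi => (hH.1 i (hi.trans_le h.1)).trans (h.2.1.1 i hi), fun i hi e => ?_⟩
  rcases lt_or_ge i q.l with h1 | h1
  · exact h.2.1.2 i hi ((hH.1 i h1).symm.trans e)
  · exact h.2.2 i (hH.2 i h1 e)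

theorem Le.trans {p q r : Cn} (h1 : Le r q) (h2 : Le q p) : Le r p :=
  ⟨h2.1.trans h1.1, h2.ext h1.2.1, fun y hy => h2.2.2 y (h1.2.2 y hy)⟩

variable {g : Bool → ℕ → ℕ} {Z γ : ℕ → Bool}

theorem Cond.shrink {p : Cn} (hp : Cond g Z γ p) {Y : ℕ → Bool} (h1 : Adm g (J Z Y))
    (h2 : PosDens Y) (h3 : ∀ y, Y y = true → p.X y = true) :
    Cond g Z γ ⟨p.F, p.l, Y⟩ ∧ Le ⟨p.F, p.l, Y⟩ p :=
  ⟨⟨⟨h1, h2⟩, fun y hy => hp.2.1 y (h3 y hy), hp.2.2.1, hp.2.2.2.1,
    fun x y hx hy => hp.2.2.2.2 x y hx (h3 y hy)⟩, le_rfl,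
    ⟨fun _ _ => rfl, fun i hi e => absurd (hp.2.2.1 i e) (not_lt.2 hi)⟩, h3⟩

/-- `φ` is a homogeneous extension of `p` of length `t` inside the random set with code `P` at the
sample point `ω` and its initial segment of length `s` satisfies `C`. -/
def wit (γ : ℕ → Bool) (p : Cn) (C : ℕ × List Bool → Bool) (P : ℕ → Bool) (n t : ℕ)
    (φ ω : ℕ → Bool) (s : ℕ) : Bool :=
  leb p.l t && ((List.range t).all fun i =>
    cond (ltb i p.l) (eqb (φ i) (p.F i)) (!φ i || (p.X i && rs P ω i))) &&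
  ((List.range t).all fun x => (List.range t).all fun y =>
    !(ltb x y && φ x && φ y) || γ (x + y)) && C (n, res φ s)

theorem wit_iff {p : Cn} {C : ℕ × List Bool → Bool} {P : ℕ → Bool} {n t : ℕ} {φ ω : ℕ → Bool}
    {s : ℕ} : wit γ p C P n t φ ω s = true ↔ ((p.l ≤ t ∧ ∀ i < t, (i < p.l → φ i = p.F i) ∧
      (p.l ≤ i → φ i = true → p.X i = true ∧ rs P ω i = true)) ∧
      ∀ x < t, ∀ y < t, x < y → φ x = true → φ y = true → γ (x + y) = true) ∧
      C (n, res φ s) = true := by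
  simp only [wit, Bool.and_eq_true, List.all_eq_true, List.mem_range, leb_true]
  refine and_congr_left' (and_congr (and_congr_right' (forall₂_congr fun i _ => ?_))
    (forall₄_congr fun x _ y _ => ?_))
  · rcases lt_or_ge i p.l with h | h
    · simp [ltb_true.2 h, h]
    · cases φ i <;> simp [ltb_false.2 h, h]
  · rcases lt_or_ge x y with h | h
    · cases φ x <;> cases φ y <;> simp [ltb_true.2 h, h]
    · simp [ltb_false.2 h, not_lt.2 h]

theorem wit_congr {p : Cn} {C : ℕ × List Bool → Bool} {P P' : ℕ → Bool} {n t : ℕ}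
    {φ φ' ω ω' : ℕ → Bool} {s : ℕ} (hs : s ≤ t) (hP : ∀ i < (t + 2 ^ lev t) ^ 2, P i = P' i)
    (hφ : ∀ i < t, φ i = φ' i) (hω : ∀ i < lev t, ω i = ω' i)
    (h : wit γ p C P n t φ ω s = true) : wit γ p C P' n t φ' ω' s = true := by
  rw [wit_iff] at h ⊢
  obtain ⟨⟨⟨h1, h2⟩, h3⟩, h4⟩ := h
  refine ⟨⟨⟨h1, fun i hi => ?_⟩, fun x hx y hy => ?_⟩, ?_⟩
  · rw [← hφ i hi, rs, ← res_congr (D := ω) fun k hk => hω k (by unfold lev at hk ⊢; omega),
      ← hP _ (pair_lt_bd hi (bv_lt _ _))]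
    exact h2 i hi
  · rw [← hφ x hx, ← hφ y hy]
    exact h3 x hx y hy
  · rwa [← res_congr (D := φ) fun k hk => hφ k (hk.trans_le hs)]

theorem ci_wit {α : Type} [Primcodable α] {p : Cn} {C : ℕ × List Bool → Bool}
    {P φ ω : α → ℕ → Bool} {n t s : α → ℕ} (hγ : CI Z γ) (hF : CI Z p.F) (hX : CI Z p.X)
    (hC : CI Z C) (hP : CI Z fun w : α × ℕ => P w.1 w.2) (hφ : CI Z fun w : α × ℕ => φ w.1 w.2)
    (hω : CI Z fun w : α × ℕ => ω w.1 w.2) (hn : CI Z n) (ht : CI Z t) (hs : CI Z s) :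
    CI Z fun a => wit γ p C (P a) (n a) (t a) (φ a) (ω a) (s a) := by
  unfold wit
  fun_prop

theorem step (hγ : CI Z γ) {p : Cn} (hp : Cond g Z γ p) (hs : Star g Z γ p.X)
    {C : ℕ × List Bool → Bool} (hC : CI Z C) (j : Bool) : ∃ q, Cond g Z γ q ∧ Le q p ∧
      ((∃ n, ∀ H, Ext q H → Hom γ H → ∀ s, C (n, res H s) = false) ∨
        ∃ n s, s < g j n ∧ s ≤ q.l ∧ C (n, res q.F s) = true) := by
  obtain ⟨Z', hZ', hZ, hX, S, hS, K, R, hR, htot, hgood⟩ := hs
  have hF : CI Z' p.F := CI.of_eq (f := fun i => (res p.F p.l).getD i false) (by fun_prop)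
    fun i => by
      rcases lt_or_ge i p.l with h | h
      · exact getD_res _ h _
      · rw [List.getD_eq_getElem?_getD, getElem?_res, if_neg (not_lt.2 h), eq_comm]
        exact Bool.eq_false_iff.2 fun e => absurd (hp.2.2.1 i e) (not_lt.2 h)
  obtain ⟨W, hW, key⟩ : ∃ W : (ℕ → Bool) → ℕ → ℕ → Bool,
      CI Z' (fun w : List Bool × ℕ × ℕ => W (fun i => w.1.getD i false) w.2.1 w.2.2) ∧
      ∀ P n t, W P n t = true ↔ (R t.unpair.1 t.unpair.2 = true ∧ ∀ N ≤ t.unpair.2,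
        t.unpair.1 ≤ N → Good K p.X P N = false) ∨
        ∃ φ ω, ∃ s ≤ t, wit γ p C P n t φ ω s = true := by
    refine ⟨fun P n t => (R t.unpair.1 t.unpair.2 && (List.range (t.unpair.2 + 1)).all fun N =>
      !(leb t.unpair.1 N && Good K p.X P N)) || (List.range (2 ^ t)).any fun a =>
      (List.range (2 ^ lev t)).any fun b => (List.range (t + 1)).any fun s =>
        wit γ p C P n t (bits t a) (bits (lev t) b) s, ci_or (by fun_prop) ?_, fun P n t => ?_⟩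
    · refine ci_any (by fun_prop) (ci_any (by fun_prop) (ci_any (by fun_prop) ?_))
      exact ci_wit (hγ.trans hZ) hF hX (hC.trans hZ) (by fun_prop) (by fun_prop) (by fun_prop)
        (by fun_prop) (by fun_prop) (by fun_prop)
    · simp only [Bool.or_eq_true, Bool.and_eq_true, List.all_eq_true, List.any_eq_true,
        List.mem_range, Nat.lt_succ_iff, Bool.not_eq_true', Bool.and_eq_false_imp, leb_true]
      refine or_congr_right ⟨fun ⟨_, _, _, _, h⟩ => ⟨_, _, h⟩, fun ⟨φ, ω, s, hs, h⟩ =>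
        ⟨_, bv_lt φ t, _, bv_lt ω _, s, hs, wit_congr hs (fun _ _ => rfl)
          (fun i hi => (bits_bv φ hi).symm) (fun i hi => (bits_bv ω hi).symm) h⟩⟩
  have hloc : ∀ P P' n t, (∀ i < (t + 2 ^ lev t) ^ 2, P i = P' i) → W P n t = true →
      W P' n t = true := by
    intro P P' n t h
    rw [key, key]
    refine Or.imp (And.imp_right fun h1 N hN h2 => ?_) fun ⟨φ, ω, s, hs, h1⟩ =>
      ⟨φ, ω, s, hs, wit_congr hs h (fun _ _ => rfl) (fun _ _ => rfl) h1⟩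
    rw [← h1 N hN h2, Good, Good, Finset.sum_congr rfl fun b hb => ?_]
    rw [cs, cs, Finset.sum_congr rfl fun a ha => ?_]
    rw [h _ (pair_lt_bd ((Finset.mem_range.1 hb).trans_le (hN.trans (Nat.unpair_right_le t)))
      (Finset.mem_range.1 ha))]
  rcases basis hZ' W (fun t => (t + 2 ^ lev t) ^ 2) (by fun_prop) (fun P P' n t h =>
    Bool.eq_iff_iff.2 ⟨hloc P P' n t h, hloc P' P n t fun i hi => (h i hi).symm⟩) hW with
    ⟨n, P, hno, hP⟩ | ⟨R', h1, h2, h3⟩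
  · have hno' : ∀ t, ¬ _ := fun t e => absurd ((key P n t).2 e) (by simp [hno t])
    obtain ⟨ω, hω, hd⟩ := exists_random hP K p.X P fun m => by
      obtain ⟨v, hv⟩ := htot m
      by_contra hc
      refine hno' (Nat.pair m v) (Or.inl ?_)
      rw [Nat.unpair_pair]
      exact ⟨hv, fun N _ h => Bool.eq_false_iff.2 fun e => hc ⟨N, h, e⟩⟩
    have e1 := ci_left (J Z' P) ω
    have e2 := ci_right (J Z' P) ω
    have e3 := (ci_left Z' P).trans e1
    have e4 := (ci_right Z' P).trans e1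
    have e5 := hX.trans e3
    obtain ⟨c1, c2⟩ := hp.shrink (hω.mono (ci_join (hZ.trans e3) (by fun_prop))) hd
      fun y hy => (Bool.and_eq_true_iff.1 hy).1
    refine ⟨_, c1, c2, Or.inl ⟨n, fun H hH hom s => Bool.eq_false_iff.2 fun e => ?_⟩⟩
    exact hno' (max p.l s) (Or.inr ⟨H, ω, s, le_max_right _ _, wit_iff.2
      ⟨⟨⟨le_max_left _ _, fun i _ => ⟨hH.1 i, fun a b => Bool.and_eq_true_iff.1 (hH.2 i a b)⟩⟩,
        fun x _ y _ => hom x y⟩, e⟩⟩)
  · obtain ⟨n, v, hv, hR'⟩ := hZ' R' h1 h2 j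
    obtain ⟨t, ht, hW⟩ := h3 n v hR' S
    rcases (key S n t).1 hW with ⟨a1, a2⟩ | ⟨φ, ω, s, hs, hw⟩
    · obtain ⟨N, b1, b2, b3⟩ := hgood _ _ a1
      rw [a2 N b2 b1] at b3
      exact absurd b3 (by simp)
    obtain ⟨⟨⟨a1, a2⟩, a3⟩, a4⟩ := wit_iff.1 hw
    obtain ⟨L, hL⟩ : ∃ L : List ℕ, ∀ b, b ∈ L ↔ b < t ∧ p.l ≤ b ∧ φ b = true :=
      ⟨(List.range t).filter fun b => leb p.l b && φ b, fun b => by simp⟩
    have hd := (hS ω L fun b hb =>
      ((a2 b ((hL b).1 hb).1).2 ((hL b).1 hb).2.1 ((hL b).1 hb).2.2).2).tail t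
    have hγ' := hγ.trans hZ
    refine ⟨⟨fun i => ltb i t && φ i, t, fun y => leb t y && cut γ p.X L y⟩,
      ⟨⟨hZ'.mono (ci_join hZ (by unfold cut; fun_prop)), hd⟩, ?_, ?_, ?_, ?_⟩, ⟨a1, ⟨?_, ?_⟩, ?_⟩,
      Or.inr ⟨n, s, by omega, hs, ?_⟩⟩ <;>
      simp only [Hom, cut, Bool.and_eq_true, leb_true, ltb_true, List.all_eq_true]
    · exact fun y hy => hy.1
    · exact fun y hy => hy.1
    · exact fun x y hxy hx hy => a3 x hx.1 y hy.1 hxy hx.2 hy.2
    · intro x y hx hy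
      rcases lt_or_ge x p.l with h | h
      · exact hp.2.2.2.2 x y (((a2 x hx.1).1 h).symm.trans hx.2) hy.2.1
      · exact hy.2.2 x ((hL x).2 ⟨hx.1, h, hx.2⟩)
    · intro i hi
      rw [ltb_true.2 (hi.trans_le a1), Bool.true_and]
      exact (a2 i (hi.trans_le a1)).1 hi
    · exact fun i hi h => ((a2 i h.1).2 hi h.2).1
    · exact fun y hy => hy.2.1
    · rwa [res_congr (D' := φ) fun i hi => by rw [ltb_true.2 (hi.trans_le hs), Bool.true_and]]

theorem grow (hγ : CI Z γ) {p : Cn} (hp : Cond g Z γ p) (hs : Star g Z γ p.X) :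
    ∃ q, Cond g Z γ q ∧ Le q p ∧ ∃ i, p.l ≤ i ∧ i < q.l ∧ q.F i = true := by
  obtain ⟨q, hq, hle, h⟩ := step hγ hp hs (C := fun w => (List.range w.2.length).any fun i =>
    leb p.l i && w.2.getD i false) (by fun_prop) false
  simp only [length_res, List.any_eq_true, List.mem_range, Bool.and_eq_true, leb_true,
    ← Bool.not_eq_true] at h
  rcases h with ⟨n, h⟩ | ⟨n, s, -, hs, i, h1, h2, h3⟩
  · obtain ⟨b, hb⟩ := hq.1.2.exists
    have h1 := hq.2.1 b hb
    refine (h (fun i => q.F i || eqb i b) ⟨fun i hi => ?_, fun i hi e => ?_⟩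
      (fun x y hxy hx hy => ?_) (b + 1) ⟨b, Nat.lt_succ_self b, hle.1.trans h1, ?_⟩).elim
    · simp only [eqb_false.2 (hi.trans_le h1).ne, Bool.or_false]
    · rcases Bool.or_eq_true_iff.1 e with e | e
      · exact absurd (hq.2.2.1 i e) (not_lt.2 hi)
      · exact eqb_true.1 e ▸ hb
    · simp only [Bool.or_eq_true_iff, eqb_true] at hx hy
      rcases hy with hy | rfl
      · have := hq.2.2.1 y hy
        exact hq.2.2.2.1 x y hxy (hx.resolve_right (by omega)) hy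
      · exact hq.2.2.2.2 x y (hx.resolve_right hxy.ne) hb
    · rw [getD_res _ (Nat.lt_succ_self b)]
      simp
  · exact ⟨q, hq, hle, i, h2, h1.trans_le hs, (getD_res _ h1 false).symm.trans h3⟩

theorem generic (hγ : CI Z γ) {X : ℕ → Bool} (h1 : Adm g (J Z X)) (h2 : PosDens X)
    (h : ∀ Y, Adm g (J Z Y) → PosDens Y → (∀ y, Y y = true → X y = true) → ∃ Y', Adm g (J Z Y') ∧
      PosDens Y' ∧ (∀ y, Y' y = true → Y y = true) ∧ Star g Z γ Y') :
    ∃ H, Adm g (J Z H) ∧ (∀ n, ∃ v, n ≤ v ∧ H v = true) ∧ Hom γ H := by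
  obtain ⟨en, e1, e2⟩ := exists_enum (ℕ × List Bool) Z
  let T := {p : Cn // Cond g Z γ p ∧ ∀ y, p.X y = true → X y = true}
  have st : ∀ p : T, ∃ q, Cond g Z γ q ∧ Le q p.1 ∧ Star g Z γ q.X := fun p => by
    obtain ⟨Y, a1, a2, a3, a4⟩ := h _ p.2.1.1.1 p.2.1.1.2 p.2.2
    exact ⟨_, (p.2.1.shrink a1 a2 a3).1, (p.2.1.shrink a1 a2 a3).2, a4⟩
  have nx : ∀ (k : ℕ) (p : T), ∃ q : T, Le q.1 p.1 ∧
      (∃ i, p.1.l ≤ i ∧ i < q.1.l ∧ q.1.F i = true) ∧ ∀ H, Ext q.1 H → Hom γ H →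
      (∀ n, ∃ s, en k.div2 (n, res H s) = true) →
        ∃ n s, s < g k.bodd n ∧ en k.div2 (n, res H s) = true := fun k p => by
    obtain ⟨p1, a1, a2, a3⟩ := st p
    obtain ⟨p2, b1, b2, b3⟩ := step hγ a1 a3 (e1 k.div2) k.bodd
    obtain ⟨p3, c1, c2, c3⟩ := st ⟨p2, b1, fun y hy => p.2.2 y ((b2.trans a2).2.2 y hy)⟩
    obtain ⟨p4, d1, d2, i, d3, d4⟩ := grow hγ c1 c3
    have l2 := d2.trans c2
    have l0 := (l2.trans b2).trans a2
    refine ⟨⟨p4, d1, fun y hy => p.2.2 y (l0.2.2 y hy)⟩, l0,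
      ⟨i, ((c2.trans b2).trans a2).1.trans d3, d4⟩, fun H hH hom ht => ?_⟩
    have hH2 := l2.ext hH
    rcases b3 with ⟨n, b3⟩ | ⟨n, s, b3, b4, b5⟩
    · obtain ⟨s, hs⟩ := ht n
      rw [b3 H hH2 hom s] at hs
      exact absurd hs (by simp)
    · exact ⟨n, s, b3, by rwa [res_congr fun i hi => hH2.1 i (hi.trans_le b4)]⟩
  choose nx n1 n2 n3 using nx
  let sq : ℕ → T := fun k => Nat.rec ⟨⟨fun _ => false, 0, X⟩,
    ⟨⟨h1, h2⟩, by simp, by simp, by simp [Hom], by simp⟩, fun _ hy => hy⟩ nx k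
  have mono : ∀ k m, k ≤ m → Le (sq m).1 (sq k).1 := fun k m hkm => by
    induction hkm with
    | refl => exact ((sq k).2.1.shrink (sq k).2.1.1.1 (sq k).2.1.1.2 fun _ hy => hy).2
    | step _ ih => exact (n1 _ _).trans ih
  have len : ∀ k, k ≤ (sq k).1.l := fun k => by
    induction k with
    | zero => exact Nat.zero_le _
    | succ k ih =>
      obtain ⟨i, a1, a2, -⟩ := n2 k (sq k)
      exact (ih.trans a1).trans_lt a2
  have ext : ∀ k, Ext (sq k).1 fun i => (sq (i + 1)).1.F i := fun k => by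
    refine ⟨fun i hi => ?_, fun i hi e => ?_⟩
    · exact ((mono _ _ (le_max_left (i + 1) k)).2.1.1 i (len (i + 1))).symm.trans
        ((mono _ _ (le_max_right (i + 1) k)).2.1.1 i hi)
    · exact (mono k (i + 1) (by have := len k; omega)).2.1.2 i hi e
  have hom : Hom γ fun i => (sq (i + 1)).1.F i := fun x y hxy hx hy =>
    (sq (y + 1)).2.1.2.2.2.1 x y hxy
      (((ext (y + 1)).1 x (hxy.trans (len (y + 1)))).symm.trans hx) hy
  refine ⟨fun i => (sq (i + 1)).1.F i, adm_join fun C hC ht j => ?_, fun n => ?_, hom⟩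
  · obtain ⟨e, rfl⟩ := e2 C hC
    have := n3 (Nat.bit j e) (sq _) _ (ext (Nat.bit j e + 1)) hom
    rw [Nat.div2_bit, Nat.bodd_bit] at this
    exact this ht
  · obtain ⟨i, a1, a2, a3⟩ := n2 n (sq n)
    exact ⟨i, (len n).trans a1, ((ext (n + 1)).1 i a2).trans a3⟩

/-- Hindman's theorem for sums of two elements keeps admissibility. -/
theorem preserve (hZ : Adm g Z) {c : ℕ → Bool} (hc : CI Z c) : ∃ H, Adm g (J Z H) ∧
    (∀ n, ∃ v, n ≤ v ∧ H v = true) ∧ (Hom c H ∨ Hom (fun t => !c t) H) := by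
  by_cases h : ∃ X, Adm g (J Z X) ∧ PosDens X ∧ ∀ Y, Adm g (J Z Y) → PosDens Y →
      (∀ y, Y y = true → X y = true) → ¬ Star g Z c Y
  · obtain ⟨X, h1, h2, h3⟩ := h
    obtain ⟨H, a1, a2, a3⟩ := generic (γ := fun t => !c t) (by fun_prop) h1 h2
      fun Y b1 b2 b3 => ⟨Y, b1, b2, fun _ hy => hy, (star_or b1 b2 c).resolve_left (h3 Y b1 b2 b3)⟩
    exact ⟨H, a1, a2, Or.inr a3⟩
  · push Not at h
    obtain ⟨H, a1, a2, a3⟩ := generic (X := fun _ => true) hc
      (hZ.mono (ci_join (ci_self Z) (ci_const true))) ⟨1, fun n => ⟨n, le_rfl, by simp [cnt]⟩⟩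
      fun Y b1 b2 _ => h Y b1 b2
    exact ⟨H, a1, a2, Or.inl a3⟩

end Pool.Agent.P.MP_db6017_lc.Q1
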