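import Pool.Agent.P.MP_db6017_lc.Q1.Comp

/-!
A computable stable colouring of pairs whose homogeneous sets are not admissible. Markers:
`n_0 = 0`; for the requirement `ρ` (index `e = ρ.div2`) let `t` be least such that, for
`t = pair (pair k s) v`, `U e s (res (fun _ => false) k) (pair n_ρ v) = some true`, and put
`n_(ρ+1) = max n_ρ t + 1` (`n_ρ + 1` if there is no such `t`). At stage `y` search only `t < y`;
each marker is eventually right. The interval `[n_ρ, n_(ρ+1))` has colour `bodd ρ`.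
-/

namespace Pool.Agent.P.MP_db6017_lc.Q1

open Pool.Agent.Lib.Comp Filter

/-- The number `t` codes a computation that satisfies the requirement `ρ` at the marker `n`. -/
def Inst_T (ρ n t : ℕ) : Bool :=
  eqb (U ρ.div2 t.unpair.1.unpair.2 (res (fun _ => false) t.unpair.1.unpair.1)
    (Nat.pair n t.unpair.2)) (some true)

/-- The markers at stage `y`. -/
def Inst_m (y ρ : ℕ) : ℕ :=
  Nat.rec (motive := fun _ => ℕ) 0
    (fun ρ n => max n (((List.range y).find? fun t => Inst_T ρ n t).getD 0) + 1) ρ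

/-- The colour of `x` for the markers `m`. -/
def Inst_col (m : ℕ → ℕ) (x : ℕ) : Bool :=
  (((List.range (x + 1)).find? fun ρ => ltb x (m (ρ + 1))).getD 0).bodd

theorem Inst_pr : Primrec fun w : ℕ × ℕ => Inst_col (Inst_m w.2) w.1 := by
  unfold Inst_col Inst_m Inst_T
  fun_prop

theorem Inst_col_eq {m : ℕ → ℕ} {x ρ : ℕ} (h1 : ρ ≤ x) (h2 : x < m (ρ + 1))
    (h3 : ∀ j < ρ, m (j + 1) ≤ x) : Inst_col m x = ρ.bodd := by
  rw [Inst_col, List.find?_range_eq_some.2 ⟨by simpa using h2, List.mem_range.2 (by omega),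
    fun j hj => by simpa using h3 j hj⟩]
  rfl

theorem Inst_lim (P : ℕ → Bool) : ∃ c, (∀ᶠ y in atTop, ((List.range y).find? P).getD 0 = c) ∧
    ((∃ t, P t = true) → P c = true) := by
  by_cases h : ∃ t, P t = true
  · refine ⟨Nat.find h, ?_, fun _ => Nat.find_spec h⟩
    filter_upwards [eventually_gt_atTop (Nat.find h)] with y hy
    rw [List.find?_range_eq_some.2 ⟨Nat.find_spec h, List.mem_range.2 hy,
      fun j hj => by simpa using Nat.find_min h hj⟩]
    rfl
  · refine ⟨0, .of_forall fun y => ?_, fun h' => absurd h' h⟩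
    rw [List.find?_eq_none.2 fun t _ ht => h ⟨t, ht⟩]
    rfl

/-- The final markers. -/
theorem Inst_markers : ∃ N : ℕ → ℕ, N 0 = 0 ∧ StrictMono N ∧
    (∀ ρ, ∀ᶠ y in atTop, Inst_m y ρ = N ρ) ∧
    ∀ ρ, (∃ t, Inst_T ρ (N ρ) t = true) → ∃ t < N (ρ + 1), Inst_T ρ (N ρ) t = true := by
  choose c h1 h2 using Inst_lim
  refine ⟨fun ρ => Nat.rec (motive := fun _ => ℕ) 0 (fun ρ n => max n (c (Inst_T ρ n)) + 1) ρ,
    rfl, strictMono_nat_of_lt_succ fun ρ => Nat.lt_succ_of_le (le_max_left _ _), fun ρ => ?_,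
    fun ρ h => ⟨_, Nat.lt_succ_of_le (le_max_right _ _), h2 _ h⟩⟩
  induction ρ with
  | zero => exact .of_forall fun _ => rfl
  | succ ρ ih =>
    filter_upwards [ih, h1 (Inst_T ρ _)] with y a b
    change max (Inst_m y ρ) (((List.range y).find? fun t => Inst_T ρ (Inst_m y ρ) t).getD 0) + 1 = _
    rw [a]
    exact congrArg (fun z => max _ z + 1) b

theorem exists_instance : ∃ (f : ℕ → ℕ → Bool) (g : Bool → ℕ → ℕ),
    Primrec (fun w : ℕ × ℕ => f w.1 w.2) ∧ (∀ x, ∃ c, ∀ᶠ y in atTop, f x y = c) ∧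
    Adm g (fun _ => false) ∧
    ∀ (H : ℕ → Bool) (j : Bool), (∀ n, ∃ v, n ≤ v ∧ H v = true) →
      (∀ x y, x < y → H x = true → H y = true → f x y = j) → ¬ Adm g H := by
  obtain ⟨N, N0, Nm, hlim, hreq⟩ := Inst_markers
  have hcol : ∀ ρ x, N ρ ≤ x → x < N (ρ + 1) → Inst_col N x = ρ.bodd := fun ρ x a b =>
    Inst_col_eq ((Nm.id_le ρ).trans a) b fun j hj => (Nm.monotone hj).trans a
  have hA : ∀ x, ∀ᶠ y in atTop, Inst_col (Inst_m y) x = Inst_col N x := fun x => by
    have h : ∃ ρ, x < N (ρ + 1) := ⟨x, Nm.id_le (x + 1)⟩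
    have h1 : ∀ j < Nat.find h, N (j + 1) ≤ x := fun j hj => not_lt.1 (Nat.find_min h hj)
    have h2 : Nat.find h ≤ x := Nat.find_min' h (Nm.id_le (x + 1))
    filter_upwards [eventually_forall_lt (T := Nat.find h + 1) fun j _ => hlim (j + 1)] with y hy
    rw [Inst_col_eq h2 (Nat.find_spec h) h1, Inst_col_eq h2
      ((hy _ (Nat.lt_succ_self _)).symm ▸ Nat.find_spec h)
      fun j hj => (hy j (by omega)).symm ▸ h1 j hj]
  have hinf : ∀ (j : Bool) (n : ℕ), ∃ x, n ≤ x ∧ Inst_col N x = j := fun j n => by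
    refine ⟨N (Nat.bit j n), le_trans ?_ (Nm.id_le _), ?_⟩
    · rw [id, Nat.bit_val]
      omega
    · rw [hcol _ _ le_rfl (Nm (Nat.lt_succ_self _)), Nat.bodd_bit]
  refine ⟨fun x y => Inst_col (Inst_m y) x, fun j n => Nat.find (hinf j n), Inst_pr,
    fun x => ⟨_, hA x⟩, fun R hR htot j => ?_, fun H j hH hom hadm => ?_⟩
  · have hR' : CI (fun _ => false) fun z : ℕ => R z.unpair.1 z.unpair.2 := by fun_prop
    obtain ⟨e, he⟩ := (ci_iff_tle.1 hR').exists_index
    obtain ⟨t, ht, hT⟩ := hreq (Nat.bit (!j) e) (by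
      obtain ⟨v, hv⟩ := htot (N (Nat.bit (!j) e))
      obtain ⟨k, s, hk⟩ := (he (Nat.pair (N (Nat.bit (!j) e)) v)).1
      refine ⟨Nat.pair (Nat.pair k s) v, ?_⟩
      simp only [Inst_T, Nat.unpair_pair, Nat.div2_bit, eqb_true, hk, hv])
    rw [Inst_T, eqb_true, Nat.div2_bit] at hT
    have h1 := (he _).2 _ _ _ hT
    refine ⟨N (Nat.bit (!j) e), t.unpair.2, ?_, by simpa using h1⟩
    have h2 := Nat.find_spec (hinf j (N (Nat.bit (!j) e)))
    refine ((Nat.unpair_right_le t).trans_lt ht).trans_le (not_lt.1 fun hc => ?_)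
    have h3 := hcol _ _ h2.1 hc
    rw [h2.2, Nat.bodd_bit] at h3
    simp at h3
  · have hs := ci_self H
    obtain ⟨n, v, h1, h2⟩ := hadm (fun n v => leb n v && H v) (by fun_prop) (fun n => by
      obtain ⟨v, a, b⟩ := hH n
      exact ⟨v, by simp [a, b]⟩) j
    rw [Bool.and_eq_true, leb_true] at h2
    refine Nat.find_min (hinf j n) h1 ⟨h2.1, ?_⟩
    obtain ⟨Y, hY⟩ := eventually_atTop.1 (hA v)
    obtain ⟨y, a, b⟩ := hH (max Y (v + 1))
    rw [← hY y ((le_max_left _ _).trans a)]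
    exact hom v y ((le_max_right _ _).trans a) h2.2 b

end Pool.Agent.P.MP_db6017_lc.Q1
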