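import Pool.Agent.P.MP_db6017_lc.Q1.Defs
import Pool.Agent.P.MP_db6017_lc.Q1.Comp

/-!
The sets computable in an increasing sequence of oracles form an ω-model of RCA₀. HINT. Terms:
if `E w` is an assignment with `Primrec fun w => E w i` for each `i` (`w : ℕ`), then
`fun w => val (E w) t` is primitive recursive. Bounded formulas, by induction on `Bounded`, for all
such `E`: there are `k` and `p : ℕ → Bool` with `CI (Zs k) p`, `p w = true ↔ Sat θ (E w) σ` (for a
bounded quantifier use `E' w = Function.update (E w.unpair.1) x w.unpair.2`, `ci_all`, `ci_any`;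
the bound does not depend on the variable). Comprehension: `ci_of_delta`, and `Sat φ ρ σ` does not
depend on a set variable that is not free. Induction: substitution lemma
`Sat (φ.subst x u) ρ σ ↔ Sat φ (update ρ x (val ρ u)) σ` when only `x` may occur in `u`.
-/

namespace Pool.Agent.P.MP_db6017_lc.Q1

open Pool.Agent.Lib.Comp

/-- The sets computable in some `Zs k`. -/
def idealOf (Zs : ℕ → ℕ → Bool) : Set (Set ℕ) :=
  {A | ∃ (k : ℕ) (Y : ℕ → Bool), CI (Zs k) Y ∧ A = {n | Y n = true}}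

theorem idealOf_nonempty (Zs : ℕ → ℕ → Bool) : (idealOf Zs).Nonempty :=
  ⟨_, 0, fun _ => false, ci_const false, rfl⟩

theorem Logic_val_upd (M : Struct) {x : ℕ} (ρ : ℕ → M.Num) (a : M.Num) {t : Term}
    (h : ¬ t.Occurs x) : M.val (Function.update ρ x a) t = M.val ρ t := by
  induction t with
  | var i => exact Function.update_of_ne h _ _
  | zero => rfl
  | one => rfl
  | add s t hs ht => rw [Struct.val, Struct.val, hs (not_or.1 h).1, ht (not_or.1 h).2]
  | mul s t hs ht => rw [Struct.val, Struct.val, hs (not_or.1 h).1, ht (not_or.1 h).2]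

theorem Logic_lt (M : Struct) {x : ℕ} {t : Term} (h : ¬ t.Occurs x) (ρ : ℕ → M.Num)
    (σ : ℕ → Set M.Num) (a : M.Num) :
    M.Sat (.lt (.var x) t) (Function.update ρ x a) σ ↔ M.lt a (M.val ρ t) := by
  rw [Struct.Sat, Struct.val, Function.update_self, Logic_val_upd M ρ a h]

theorem Logic_val_subst (M : Struct) (x : ℕ) (ρ : ℕ → M.Num) (u t : Term) :
    M.val ρ (Term.subst x u t) = M.val (Function.update ρ x (M.val ρ u)) t := by
  induction t with
  | var i =>
    rw [Term.subst, Struct.val, Function.update_apply]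
    split_ifs <;> rfl
  | zero => rfl
  | one => rfl
  | add s t hs ht => rw [Term.subst, Struct.val, Struct.val, hs, ht]
  | mul s t hs ht => rw [Term.subst, Struct.val, Struct.val, hs, ht]

theorem Logic_subst (M : Struct) {x : ℕ} {u : Term} (hu : ∀ y, y ≠ x → ¬ u.Occurs y) (φ : Fml)
    (ρ : ℕ → M.Num) (σ : ℕ → Set M.Num) :
    M.Sat (φ.subst x u) ρ σ ↔ M.Sat φ (Function.update ρ x (M.val ρ u)) σ := by
  induction φ generalizing ρ σ with
  | all y φ ih =>
    by_cases h : y = x
    · simp only [Fml.subst, h, if_true, Struct.Sat, Function.update_idem]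
    · simp only [Fml.subst, h, if_false, Struct.Sat, ih, Logic_val_upd M _ _ (hu y h),
        Function.update_comm h]
  | ex y φ ih =>
    by_cases h : y = x
    · simp only [Fml.subst, h, if_true, Struct.Sat, Function.update_idem]
    · simp only [Fml.subst, h, if_false, Struct.Sat, ih, Logic_val_upd M _ _ (hu y h),
        Function.update_comm h]
  | _ => simp only [Fml.subst, Struct.Sat, Logic_val_subst, *]

theorem Logic_ind (M : Struct) (x : ℕ) (φ : Fml) (ρ : ℕ → M.Num) (σ : ℕ → Set M.Num) :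
    (M.Sat (φ.subst x .zero) ρ σ → M.Sat φ (Function.update ρ x M.zero) σ) ∧
    ∀ a, M.Sat (φ.subst x (.add (.var x) .one)) (Function.update ρ x a) σ →
      M.Sat φ (Function.update ρ x (M.add a M.one)) σ := by
  refine ⟨(Logic_subst M (u := .zero) (fun _ _ => id) φ ρ σ).1, fun a h => ?_⟩
  have h2 := (Logic_subst M (u := .add (.var x) .one)
    (fun _ hy e => e.elim (fun e => hy e.symm) id) φ _ σ).1 h
  rwa [Function.update_idem, Struct.val, Struct.val, Function.update_self] at h2

theorem Logic_free (M : Struct) {X : ℕ} (A : Set M.Num) {φ : Fml} (h : ¬ φ.FreeSet X)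
    (ρ : ℕ → M.Num) (σ : ℕ → Set M.Num) :
    M.Sat φ ρ (Function.update σ X A) ↔ M.Sat φ ρ σ := by
  induction φ generalizing ρ σ with
  | eq s t => rfl
  | lt s t => rfl
  | mem t Y => rw [Struct.Sat, Struct.Sat, Function.update_of_ne h]
  | not φ ih => exact not_congr (ih h _ _)
  | and φ ψ ih ih' => exact and_congr (ih (not_or.1 h).1 _ _) (ih' (not_or.1 h).2 _ _)
  | or φ ψ ih ih' => exact or_congr (ih (not_or.1 h).1 _ _) (ih' (not_or.1 h).2 _ _)
  | imp φ ψ ih ih' => exact imp_congr (ih (not_or.1 h).1 _ _) (ih' (not_or.1 h).2 _ _)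
  | all y φ ih => exact forall_congr' fun a => ih h _ _
  | ex y φ ih => exact exists_congr fun a => ih h _ _
  | allSet Y φ ih =>
    by_cases e : Y = X
    · simp only [Struct.Sat, e, Function.update_idem]
    · simp only [Struct.Sat, ← Function.update_comm e, ih fun a => h ⟨e, a⟩]
  | exSet Y φ ih =>
    by_cases e : Y = X
    · simp only [Struct.Sat, e, Function.update_idem]
    · simp only [Struct.Sat, ← Function.update_comm e, ih fun a => h ⟨e, a⟩]

theorem Logic_comp (M : Struct) {x X : ℕ} {φ : Fml} (h : ¬ φ.FreeSet X) (ρ : ℕ → M.Num)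
    (σ : ℕ → Set M.Num) {A : Set M.Num} (hA : A ∈ M.sets)
    (h' : ∀ a, a ∈ A ↔ M.Sat φ (Function.update ρ x a) σ) :
    M.Sat (.exSet X (.all x ((Fml.mem (.var x) X).iff φ))) ρ σ := by
  refine ⟨A, hA, fun a => ?_⟩
  simp only [Fml.iff, Struct.Sat, Struct.val, Function.update_self, Logic_free M A h, h', imp_self,
    and_self]

theorem Logic_val_pr {S : Set (Set ℕ)} (hS : S.Nonempty) {α : Type} [Primcodable α]
    {E : α → ℕ → ℕ} (hE : ∀ i, Primrec fun w => E w i) (t : Term) :
    Primrec (β := ℕ) fun w => (omegaModel S hS).val (E w) t := by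
  induction t with
  | var i => exact hE i
  | zero => exact Primrec.const 0
  | one => exact Primrec.const 1
  | add s t hs ht => exact pr_add hs ht
  | mul s t hs ht => exact pr_mul hs ht

theorem Logic_upd_pr {α : Type} [Primcodable α] {E : α → ℕ → ℕ}
    (hE : ∀ i, Primrec fun w => E w i) (x i : ℕ) :
    Primrec fun w : α × ℕ => Function.update (E w.1) x w.2 i := by
  by_cases h : i = x
  · simpa only [h, Function.update_self] using Primrec.snd
  · simpa only [Function.update_of_ne h] using (hE i).comp Primrec.fst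

/-- The predicate is decided by some `Zs k`. -/
def Logic_Dec (Zs : ℕ → ℕ → Bool) {α : Type} [Primcodable α] (P : α → Prop) : Prop :=
  ∃ (k : ℕ) (p : α → Bool), CI (Zs k) p ∧ ∀ w, p w = true ↔ P w

theorem Logic_both {Zs : ℕ → ℕ → Bool} (h : ∀ k, CI (Zs (k + 1)) (Zs k)) {α : Type}
    [Primcodable α] {P Q : α → Prop} (hP : Logic_Dec Zs P) (hQ : Logic_Dec Zs Q) :
    ∃ (k : ℕ) (p q : α → Bool), CI (Zs k) p ∧ CI (Zs k) q ∧ (∀ w, p w = true ↔ P w) ∧
      ∀ w, q w = true ↔ Q w := by
  have h1 : ∀ k m, k ≤ m → CI (Zs m) (Zs k) := fun k m hk => by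
    induction hk with
    | refl => exact ci_self _
    | step _ ih => exact ih.trans (h _)
  obtain ⟨k, p, hp, hp'⟩ := hP
  obtain ⟨m, q, hq, hq'⟩ := hQ
  exact ⟨max k m, p, q, hp.trans (h1 _ _ (le_max_left _ _)), hq.trans (h1 _ _ (le_max_right _ _)),
    hp', hq'⟩

theorem Logic_bounded {Zs : ℕ → ℕ → Bool} (h : ∀ k, CI (Zs (k + 1)) (Zs k)) {σ : ℕ → Set ℕ}
    (hσ : ∀ X, σ X ∈ idealOf Zs) {θ : Fml} (hθ : Bounded θ) {α : Type} [Primcodable α]
    {E : α → ℕ → ℕ} (hE : ∀ i, Primrec fun w => E w i) : Logic_Dec Zs fun w =>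
      (omegaModel (idealOf Zs) (idealOf_nonempty Zs)).Sat θ (E w) σ := by
  have hn := idealOf_nonempty Zs
  induction hθ generalizing α with
  | eq s t =>
    exact ⟨0, _, ci_of_primrec (pr_eqb (Logic_val_pr hn hE s) (Logic_val_pr hn hE t)),
      fun w => eqb_true⟩
  | lt s t =>
    exact ⟨0, _, ci_of_primrec (pr_ltb (Logic_val_pr hn hE s) (Logic_val_pr hn hE t)),
      fun w => ltb_true⟩
  | mem t X =>
    obtain ⟨k, Y, hY, e⟩ := hσ X
    exact ⟨k, _, ci_comp hY (ci_of_primrec (Logic_val_pr hn hE t)), fun w =>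
      (Set.ext_iff.1 e _).symm⟩
  | not _ ih =>
    obtain ⟨k, p, hp, hp'⟩ := ih hE
    exact ⟨k, _, ci_not hp, fun w => by simp [Struct.Sat, ← hp']⟩
  | and _ _ ih ih' =>
    obtain ⟨k, p, q, hp, hq, hp', hq'⟩ := Logic_both h (ih hE) (ih' hE)
    exact ⟨k, _, ci_and hp hq, fun w => by simp [Struct.Sat, ← hp', ← hq']⟩
  | or _ _ ih ih' =>
    obtain ⟨k, p, q, hp, hq, hp', hq'⟩ := Logic_both h (ih hE) (ih' hE)
    exact ⟨k, _, ci_or hp hq, fun w => by simp [Struct.Sat, ← hp', ← hq']⟩
  | imp _ _ ih ih' =>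
    obtain ⟨k, p, q, hp, hq, hp', hq'⟩ := Logic_both h (ih hE) (ih' hE)
    refine ⟨k, _, ci_or (ci_not hp) hq, fun w => ?_⟩
    refine Iff.trans ?_ (imp_congr (hp' w) (hq' w))
    cases p w <;> simp
  | ball x t ht _ ih =>
    obtain ⟨k, p, hp, hp'⟩ := ih (Logic_upd_pr hE x)
    refine ⟨k, _, ci_all (g := fun w a => p (w, a))
      (ci_range (ci_of_primrec (Logic_val_pr hn hE t))) hp, fun w => ?_⟩
    rw [List.all_eq_true]
    exact forall_congr' fun a => imp_congr
      (List.mem_range.trans (Logic_lt (omegaModel _ hn) ht (E w) σ a).symm) (hp' (w, a))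
  | bex x t ht _ ih =>
    obtain ⟨k, p, hp, hp'⟩ := ih (Logic_upd_pr hE x)
    refine ⟨k, _, ci_any (g := fun w a => p (w, a))
      (ci_range (ci_of_primrec (Logic_val_pr hn hE t))) hp, fun w => ?_⟩
    rw [List.any_eq_true]
    exact exists_congr fun a => and_congr
      (List.mem_range.trans (Logic_lt (omegaModel _ hn) ht (E w) σ a).symm) (hp' (w, a))

theorem valid_rca0 (Zs : ℕ → ℕ → Bool) (h : ∀ k, CI (Zs (k + 1)) (Zs k)) (φ : Fml)
    (hφ : RCA0 φ) : (omegaModel (idealOf Zs) (idealOf_nonempty Zs)).Valid φ := by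
  intro ρ σ hσ
  cases hφ with
  | succ_ne => exact Nat.succ_ne_zero _
  | succ_inj => exact Nat.succ.inj
  | add_zero => rfl
  | add_succ => rfl
  | mul_zero => rfl
  | mul_succ => rfl
  | not_lt_zero => exact Nat.not_lt_zero _
  | lt_succ => exact ⟨Nat.lt_succ_iff_lt_or_eq.1, Nat.lt_succ_iff_lt_or_eq.2⟩
  | ind x φ _ =>
    obtain ⟨h0, h1⟩ := Logic_ind _ x φ ρ σ
    exact fun h2 a => Nat.rec (h0 h2.1) (fun a ih => h1 a (h2.2 a ih)) a
  | comp x X φ ψ h1 h2 h3 =>
    obtain ⟨y, θ, hθ, rfl⟩ := h1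
    obtain ⟨z, η, hη, rfl⟩ := h2
    intro h4
    have hE := Logic_upd_pr (E := fun _ : ℕ => ρ) (fun i => Primrec.const _) x
    have hE' : ∀ i, Primrec (β := ℕ) fun a : ℕ => Function.update ρ x a i := fun i =>
      (hE i).comp (Primrec.pair Primrec.id Primrec.id)
    obtain ⟨k, p, q, hp, hq, hp', hq'⟩ := Logic_both h
      (Logic_bounded h hσ hθ (Logic_upd_pr hE' y)) (Logic_bounded h hσ hη.not (Logic_upd_pr hE' z))
    classical
    have h5 : CI (Zs k) fun a => decide (∃ b, p (a, b) = true) :=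
      ci_of_delta (p := fun a b => p (a, b)) (q := fun a b => q (a, b)) hp hq
        (fun a => decide_eq_true_iff) fun a => by
          simp only [decide_eq_false_iff_not, hp', hq']
          exact (not_congr ⟨(h4 a).1, (h4 a).2⟩).trans not_forall
    exact Logic_comp _ h3 ρ σ ⟨k, _, h5, rfl⟩ fun a =>
      decide_eq_true_iff.trans (exists_congr fun b => hp' (a, b))

end Pool.Agent.P.MP_db6017_lc.Q1
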