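import Pool.Agent.P.MP_db6017_lc.Q1.Force
import Pool.Agent.P.MP_db6017_lc.Q1.Inst
import Pool.Agent.P.MP_db6017_lc.Q1.Logic

/-!
A Turing ideal of admissible sets that is closed under Hindman's theorem for sums of two elements.
-/

namespace Pool.Agent.P.MP_db6017_lc.Q1

open Pool.Agent.Lib.Comp

/-- The left half of an oracle. -/
def lf (Z : ℕ → Bool) (x : ℕ) : Bool := Z (2 * x)

theorem ci_lf (Z : ℕ → Bool) (m : ℕ) : CI Z (lf^[m] Z) := by
  induction m with
  | zero => exact ci_self Z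
  | succ m ih =>
    rw [Function.iterate_succ_apply']
    exact ci_comp ih (g := fun x => 2 * x) (by fun_prop)

theorem exists_ideal {g : Bool → ℕ → ℕ} (h0 : Adm g fun _ => false) :
    ∃ Zs : ℕ → ℕ → Bool, (∀ k, Adm g (Zs k)) ∧ (∀ k, CI (Zs (k + 1)) (Zs k)) ∧
      ∀ k c, CI (Zs k) c → ∃ m H, CI (Zs m) H ∧ (∀ n, ∃ v, n ≤ v ∧ H v = true) ∧
        (Hom c H ∨ Hom (fun t => !c t) H) := by
  choose en e1 e2 using exists_enum ℕ
  choose sol s1 s2 using fun (k : ℕ) (Z : {Z // Adm g Z}) => preserve Z.2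
    ((e1 (lf^[k - k.unpair.1] Z.1) k.unpair.2).trans (ci_lf Z.1 _))
  let sq : ℕ → {Z // Adm g Z} := fun k =>
    Nat.rec ⟨_, h0⟩ (fun k Z => ⟨J Z.1 (sol k Z), s1 k Z⟩) k
  have key : ∀ i m, lf^[m] (sq (i + m)).1 = (sq i).1 := fun i m => by
    induction m with
    | zero => rfl
    | succ m ih =>
      rw [Function.iterate_succ_apply, ← ih]
      exact congrArg _ (funext fun x => J_even _ _ x)
  refine ⟨fun k => (sq k).1, fun k => (sq k).2, fun k => ci_left _ _, fun i c hc => ?_⟩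
  obtain ⟨e, rfl⟩ := e2 _ c hc
  refine ⟨Nat.pair i e + 1, sol _ (sq (Nat.pair i e)), ci_right _ _, ?_⟩
  have h1 := s2 (Nat.pair i e) (sq (Nat.pair i e))
  have h2 := key i (Nat.pair i e - i)
  rw [Nat.add_sub_cancel' (Nat.left_le_pair i e)] at h2
  simpa only [Nat.unpair_pair, h2] using h1

end Pool.Agent.P.MP_db6017_lc.Q1
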