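import Pool.Agent.P.MP_db6017_lc.Q1.Ang
import Pool.Agent.P.MP_db6017_lc.Q1.Basis
import Pool.Agent.P.MP_db6017_lc.Q1.Bessel

/-!
The averages of a trigonometric polynomial over an admissible set are close to one value
computably often.
-/

namespace Pool.Agent.P.MP_db6017_lc.Q1

open Pool.Agent.Lib.Comp Filter Topology

/-- The indicator function. -/
def ind (X : ℕ → Bool) (b : ℕ) : ℝ := if X b = true then 1 else 0

theorem abs_ind_le (X : ℕ → Bool) (b : ℕ) : |ind X b| ≤ 1 := by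
  unfold ind; split_ifs <;> simp

theorem tendsto_trig (𝒰 : Ultrafilter ℕ) (X : ℕ → Bool) (r : ℕ) (a : ℕ → ℂ) {z : ℕ → ℂ}
    (hz : ∀ j, ‖z j‖ = 1) : Tendsto (fun N : ℕ => trig X r a z N / N) (𝒰 : Filter ℕ)
      (𝓝 (∑ j ∈ Finset.range r, a j * coef 𝒰 (ind X) (z j)).re) := by
  refine ((Complex.continuous_re.tendsto _).comp (tendsto_finsetSum _ fun j _ =>
    (tendsto_coef 𝒰 (abs_ind_le X) (hz j)).const_mul (a j))).congr fun N => ?_
  simp only [Function.comp, ← mul_div_assoc, ← Finset.sum_div, Complex.div_natCast_re, trig,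
    Finset.mul_sum]
  rw [Finset.sum_comm, Complex.re_sum]
  refine congrArg (· / (N : ℝ)) (Finset.sum_congr rfl fun b _ => ?_)
  unfold ind
  split_ifs <;> simp

theorem coef_small (𝒰 : Ultrafilter ℕ) (h𝒰 : (𝒰 : Filter ℕ) ≤ atTop) {x : ℕ → ℝ}
    (hx : ∀ t, |x t| ≤ 1) {δ : ℝ} (hδ : 0 < δ) (t : ℝ) : ∀ᶠ M : ℕ in atTop, ∀ s,
      2 ^ M * |s - t| ≤ 1 → ee s ≠ ee t → ‖coef 𝒰 x (ee s)‖ < δ := by
  obtain ⟨ε, hε, h⟩ := Metric.isOpen_iff.1
    ((finite_coef 𝒰 h𝒰 hx hδ).sdiff (t := {ee t})).isClosed.isOpen_compl (ee t) (by simp)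
  filter_upwards [(tendsto_pow_atTop_atTop_of_one_lt (one_lt_two (α := ℝ))).eventually
    (eventually_gt_atTop (8 / ε))] with M hM s hs hne
  by_contra hc
  refine h (a := ee s) ?_ ⟨⟨norm_ee s, not_lt.1 hc⟩, hne⟩
  rw [div_lt_iff₀ hε] at hM
  refine (dist_eq_norm _ _).trans_lt ((norm_ee_sub s t).trans_lt ?_)
  refine lt_of_mul_lt_mul_left ?_ (by positivity : (0 : ℝ) ≤ 2 ^ M)
  linarith

theorem phase {g : Bool → ℕ → ℕ} {Z X D : ℕ → Bool} (hZ : Adm g Z) (hX : CI Z X) (hD : CI Z D)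
    (𝒰 : Ultrafilter ℕ) (h𝒰 : (𝒰 : Filter ℕ) ≤ atTop) (hD𝒰 : ∀ᶠ N in (𝒰 : Filter ℕ), D N = true)
    (r : ℕ) (z a : ℕ → ℂ) (hz : ∀ j, ‖z j‖ = 1) {ζ : ℝ} (hζ : 0 < ζ) :
    ∃ (v : ℝ) (Z' : ℕ → Bool), Adm g Z' ∧ CI Z' Z ∧ ∃ R : ℕ → ℕ → Bool,
      CI Z' (fun w : ℕ × ℕ => R w.1 w.2) ∧ (∀ n, ∃ w, R n w = true) ∧ ∀ n w, R n w = true →
        ∃ N, n ≤ N ∧ N ≤ w ∧ D N = true ∧ |trig X r a z N - v * N| ≤ ζ * N := by
  classical
  obtain ⟨T, hT, hmax⟩ := Finset.exists_max_image ((Finset.range r).powerset.filter fun T =>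
    ∃ x, Adm g (J Z x) ∧ ∀ j ∈ T, ∃ t, Rep (col x j) t ∧ ee t = z j) Finset.card
    ⟨∅, by simpa using ⟨fun _ => false, hZ.mono (ci_join (ci_self Z) (ci_const false))⟩⟩
  simp only [Finset.mem_filter, Finset.mem_powerset] at hT hmax
  obtain ⟨hTr, x, hx, hxT⟩ := hT
  have hQ : ∀ j, ∃ Q t, Rep Q t ∧ ee t = z j ∧ (j ∈ T → Q = col x j) := fun j => by
    by_cases hj : j ∈ T
    · obtain ⟨t, h1, h2⟩ := hxT j hj
      exact ⟨_, t, h1, h2, fun _ => rfl⟩
    · obtain ⟨t, h0, h1, h2⟩ := exists_ee (hz j)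
      obtain ⟨Q, h3⟩ := exists_rep_seq h0 h1
      exact ⟨Q, t, h3, h2, fun h => absurd h hj⟩
  choose Q t hQ ht hQT using hQ
  obtain ⟨y, hy⟩ : ∃ y : ℕ → Bool, ∀ j, col y j = Q j :=
    ⟨fun i => Q i.unpair.1 i.unpair.2, fun j => funext fun n => by simp [col]⟩
  obtain ⟨A, hA⟩ : ∃ A, A = ∑ j ∈ Finset.range r, ‖a j‖ := ⟨_, rfl⟩
  have hA0 : 0 ≤ A := hA ▸ Finset.sum_nonneg fun _ _ => norm_nonneg _
  obtain ⟨M, hM⟩ := ((Finset.eventually_all (Finset.range r)).2 fun j _ =>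
    coef_small 𝒰 h𝒰 (abs_ind_le X) (δ := ζ / 4 / (A + 1)) (by positivity) (t j)).exists
  obtain ⟨v, hv⟩ : ∃ v, v = (∑ j ∈ T, a j * coef 𝒰 (ind X) (z j)).re := ⟨_, rfl⟩
  obtain ⟨Ts, K, hloc, hci, hTs⟩ := exists_test X r a v hζ
  have hl := ci_left Z x
  have hr := ci_right Z x
  have hX' := hX.trans hl
  have hD' := hD.trans hl
  have hci' := hci _ hX'
  obtain ⟨σ, hσ⟩ : ∃ σ, σ = res y ((r + M) ^ 2) := ⟨_, rfl⟩
  obtain ⟨l, hlT⟩ : ∃ l : List ℕ, ∀ j, (l.any fun i => eqb i j) = true ↔ j ∈ T :=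
    ⟨T.toList, fun j => by simp⟩
  rcases basis hx (fun P n N => !eqb (res P ((r + M) ^ 2)) σ ||
      ((l.any fun i => eqb i N.unpair.1) && !eqb (P N) (x N)) || (leb n N && D N && Ts P N))
    (fun N => (r + M) ^ 2 + N + 1 + (r + N + K) ^ 2) (by fun_prop) (fun P P' n N h => by
      rw [res_congr fun i hi => h i (by omega), h N (by omega),
        hloc P P' N fun i hi => h i (by omega)])
    (ci_or (by fun_prop) (ci_and (by fun_prop) (ci_comp hci'
      (g := fun w : List Bool × ℕ × ℕ => (w.1, w.2.2)) (by fun_prop)))) with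
    ⟨n, P, hW, hP⟩ | ⟨R, h1, h2, h3⟩
  · exfalso
    simp only [Bool.or_eq_false_iff, Bool.and_eq_false_imp, Bool.not_eq_false', eqb_true, hlT,
      Bool.and_eq_true, leb_true] at hW
    have hPT : ∀ j ∈ T, col P j = Q j := fun j hj => by
      rw [hQT j hj]
      exact funext fun n => (hW (Nat.pair j n)).1.2 (by simpa using hj)
    have hs : ∀ j, ∃ s, Rep (col P j) s ∧ (j ∈ T → s = t j) := fun j => by
      by_cases hj : j ∈ T
      · exact ⟨t j, hPT j hj ▸ hQ j, fun _ => rfl⟩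
      · obtain ⟨s, h⟩ := exists_rep_val (col P j)
        exact ⟨s, h, fun h => absurd h hj⟩
    choose s hs hsT using hs
    have hsm : ∀ j ∈ Finset.range r \ T, ‖coef 𝒰 (ind X) (ee (s j))‖ ≤ ζ / 4 / (A + 1) := by
      intro j hj
      rw [Finset.mem_sdiff] at hj
      refine (hM j hj.1 _ ((hs j).near (hQ j) ?_) fun e => ?_).le
      · rw [← hy]
        refine res_congr fun i hi => ?_
        have hlt : Nat.pair j i < (r + M) ^ 2 := (Nat.pair_lt_max_add_one_sq _ _).trans_le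
          (Nat.pow_le_pow_left (by have := Finset.mem_range.1 hj.1; omega) 2)
        rw [col, col, ← getD_res P hlt false, (hW 0).1.1, hσ, getD_res y hlt]
      · have := hmax (insert j T) ⟨Finset.insert_subset hj.1 hTr, P, hP.mono (ci_join
          (hl.trans (ci_left _ _)) (ci_right _ _)), fun i hi => ⟨s i, hs i, by
            rcases Finset.mem_insert.1 hi with rfl | hi
            · rw [e, ht]
            · rw [hsT i hi, ht]⟩⟩
        rw [Finset.card_insert_of_notMem hj.2] at this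
        omega
    have hlim : |(∑ j ∈ Finset.range r, a j * coef 𝒰 (ind X) (ee (s j))).re - v| < ζ / 2 := by
      rw [hv, ← Finset.sum_sdiff hTr, Finset.sum_congr rfl (s₁ := T)
        (g := fun j => a j * coef 𝒰 (ind X) (z j)) fun j hj => by rw [hsT j hj, ht],
        Complex.add_re, add_sub_cancel_right]
      refine (Complex.abs_re_le_norm _).trans_lt ((norm_sum_le _ _).trans_lt ?_)
      calc _ ≤ ∑ j ∈ Finset.range r \ T, ‖a j‖ * (ζ / 4 / (A + 1)) :=
            Finset.sum_le_sum fun j hj => by rw [norm_mul]; gcongr; exact hsm j hj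
        _ ≤ (A + 1) * (ζ / 4 / (A + 1)) := by
            rw [← Finset.sum_mul]
            gcongr
            exact (Finset.sum_le_sum_of_subset_of_nonneg Finset.sdiff_subset
              fun _ _ _ => norm_nonneg _).trans (by linarith)
        _ < ζ / 2 := by rw [mul_div_cancel₀ _ (by positivity)]; linarith
    obtain ⟨N, e1, e2, e3⟩ := (((((tendsto_trig 𝒰 X r a fun j => norm_ee (s j)).sub_const
      v).abs).eventually (gt_mem_nhds hlim)).and (hD𝒰.and (h𝒰 (eventually_ge_atTop (n + 1))))).exists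
    have hN : (0 : ℝ) < N := by exact_mod_cast (by omega : 0 < N)
    have e4 := (hTs P s N fun j _ => hs j).2 (by
      rw [div_sub' hN.ne', abs_div, abs_of_pos hN, div_lt_iff₀ hN, mul_comm (N : ℝ)] at e1
      exact e1.le)
    rw [(hW N).2 ⟨by omega, e2⟩] at e4
    exact absurd e4 (by simp)
  · refine ⟨v, J Z x, hx, hl, R, h1, h2, fun n w hw => ?_⟩
    obtain ⟨N, hN, h⟩ := h3 n w hw y
    simp only [Bool.or_eq_true, Bool.and_eq_true, Bool.not_eq_true', eqb_false, hlT,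
      leb_true] at h
    rcases h with (h | h) | h
    · exact absurd hσ.symm h
    · refine absurd ?_ h.2
      have := congrFun ((hy _).trans (hQT _ h.1)) N.unpair.2
      simpa [col] using this
    · have := (hTs y t N fun j _ => hy j ▸ hQ j).1 h.2
      simp only [ht] at this
      exact ⟨N, h.1.1, hN, h.1.2, this⟩

end Pool.Agent.P.MP_db6017_lc.Q1
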