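import Pool.Agent.P.MP_db6017_lc.Q1.Base

/-!
Random oracles keep admissibility. HINT. Fair coin measure `mu` on `ℕ → Bool` (copy `coin`, `mu`
from `P/MP_471da3_lc/Meas.lean`); `mu {ω | q (bv (res ω L))} = #{a < 2^L | q a} / 2^L`, and
`res (bits L (bv (res ω L))) s = res ω s` for `s ≤ L` (`bits_bv`).
(1) For almost every `ω`, `Adm g (J Z ω)`: by `adm_join` and `exists_enum` it suffices to show
that for each `C` with `CI Z C` and each `j` the set `B = T ∩ N` is null, where
`T = {∀ n, ∃ s, C (n, res ω s)}`, `N = {∀ n, ∀ s < g j n, ¬ C (n, res ω s)}`. If `mu B = β > 0`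
take `k` with `mu (N_k \ N) < β / 4` (`N_k`: only `n < k`; the values `g j n`, `n < k`, are a
fixed list) and `R n l :=` (`l ≥` all `g j n`, `n < k`) and more than a fraction `q`
(`β/4 < q < β` rational) of the `a < 2^l` give a string in `N_k` with some `s ≤ l`,
`C (n, res (bits l a) s)`. `R` has full domain, `CI Z R` is `fun_prop`; `Adm` gives `l < g j n`
with `R n l`, so some `ω ∈ N` has `s ≤ l < g j n` with `C (n, res ω s)`.
(2) If `Good K X S N` then the event `N ≤ 2 K cnt (X ∩ rs S ω) N` has probability at least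
`1 / (2 K)` (the expectation of `cnt` is the sum in `good_iff`, and `cnt ≤ N`); the limsup of these
events has probability at least `1 / (2 K)`.
-/

namespace Pool.Agent.P.MP_db6017_lc.Q1

open Pool.Agent.Lib.Comp Filter Topology

section meas

open MeasureTheory

/-- The fair coin. -/
noncomputable def Random_coin : Measure Bool := (PMF.uniformOfFintype Bool).toMeasure

instance Random_coin_prob : IsProbabilityMeasure Random_coin := by
  unfold Random_coin; infer_instance

/-- The fair coin measure on Cantor space. -/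
noncomputable def Random_mu : Measure (ℕ → Bool) := Measure.infinitePi fun _ : ℕ => Random_coin

instance Random_mu_prob : IsProbabilityMeasure Random_mu := by unfold Random_mu; infer_instance

theorem Random_coin_single (b : Bool) : Random_coin {b} = 2⁻¹ := by
  unfold Random_coin
  rw [PMF.toMeasure_apply_singleton _ _ (measurableSet_singleton b)]
  simp

theorem Random_res (ω : ℕ → Bool) {L s : ℕ} (h : s ≤ L) :
    res (bits L (bv (res ω L))) s = res ω s :=
  res_congr fun _ hx => bits_bv ω (hx.trans_le h)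

theorem Random_fibre {L a : ℕ} (h : a < 2 ^ L) : (fun ω => bv (res ω L)) ⁻¹' {a} =
    Set.pi (Finset.range L : Set ℕ) fun i => {bits L a i} := by
  ext ω
  simp only [Set.mem_preimage, Set.mem_singleton_iff, Set.mem_pi, Finset.coe_range, Set.mem_Iio]
  constructor
  · rintro rfl i hi
    exact (bits_bv ω hi).symm
  · intro H
    rw [res_congr H, bv_bits h]

theorem Random_meas_bv (L : ℕ) : Measurable fun ω => bv (res ω L) := by
  refine measurable_to_countable fun ω => ?_
  rw [Random_fibre (bv_lt ω L)]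
  exact MeasurableSet.pi (Finset.range L).countable_toSet fun i _ => measurableSet_singleton _

theorem Random_meas (P : List Bool → Prop) (s : ℕ) : MeasurableSet {ω | P (res ω s)} := by
  have e : {ω | P (res ω s)} = (fun ω => bv (res ω s)) ⁻¹' {a | P (res (bits s a) s)} := by
    ext ω
    simp only [Set.mem_preimage, Set.mem_ofPred_eq, Random_res ω le_rfl]
  rw [e]
  exact Random_meas_bv s MeasurableSet.of_discrete

theorem Random_cyl (L : ℕ) (q : ℕ → Bool) : Random_mu.real {ω | q (bv (res ω L)) = true} =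
    ((∑ a ∈ Finset.range (2 ^ L), cond (q a) 1 0 : ℕ) : ℝ) / 2 ^ L := by
  have e : {ω | q (bv (res ω L)) = true} = (fun ω => bv (res ω L)) ⁻¹'
      ((Finset.range (2 ^ L)).filter (fun a => q a = true) : Finset ℕ) := by
    ext ω
    simp [bv_lt]
  rw [e, ← sum_measureReal_preimage_singleton _
    (fun a _ => Random_meas_bv L (measurableSet_singleton a)), Finset.sum_filter]
  push_cast
  rw [Finset.sum_div]
  refine Finset.sum_congr rfl fun a ha => ?_
  cases q a
  · simp
  · rw [Random_fibre (Finset.mem_range.1 ha), Measure.real, Random_mu,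
      Measure.infinitePi_pi _ fun i _ => measurableSet_singleton _]
    simp [Random_coin_single]

theorem Random_down {A : ℕ → Set (ℕ → Bool)} (hA : ∀ k, MeasurableSet (A k)) (h : Antitone A) :
    Tendsto (fun k => Random_mu.real (A k)) atTop (𝓝 (Random_mu.real (⋂ k, A k))) :=
  (ENNReal.tendsto_toReal (measure_ne_top _ _)).comp (tendsto_measure_iInter_atTop
    (fun k => (hA k).nullMeasurableSet) h ⟨0, measure_ne_top _ _⟩)

theorem Random_up {A : ℕ → Set (ℕ → Bool)} (h : Monotone A) :
    Tendsto (fun k => Random_mu.real (A k)) atTop (𝓝 (Random_mu.real (⋃ k, A k))) :=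
  (ENNReal.tendsto_toReal (measure_ne_top _ _)).comp (tendsto_measure_iUnion_atTop h)

/-- The test applied to the string with code `a`. -/
def Random_test (C : ℕ × List Bool → Bool) (P : List (ℕ × ℕ)) (n l a : ℕ) : Bool :=
  (P.all fun p => (List.range p.2).all fun s => !C (p.1, res (bits l a) s)) &&
    (List.range (l + 1)).any fun s => C (n, res (bits l a) s)

theorem Random_null {g : Bool → ℕ → ℕ} {Z : ℕ → Bool} (hZ : Adm g Z) {C : ℕ × List Bool → Bool}
    (hC : CI Z C) (j : Bool) : ∀ᵐ ω ∂(Random_mu), (∀ n, ∃ s, C (n, res ω s) = true) →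
      ∃ n s, s < g j n ∧ C (n, res ω s) = true := by
  set N : ℕ → Set (ℕ → Bool) := fun k => {ω | ∀ n < k, ∀ s < g j n, ¬ C (n, res ω s) = true}
    with hN
  set B : Set (ℕ → Bool) := {ω | ¬ ((∀ n, ∃ s, C (n, res ω s) = true) →
      ∃ n s, s < g j n ∧ C (n, res ω s) = true)} with hB
  have mN : ∀ k, MeasurableSet (N k) := by
    intro k
    simp only [hN, Set.ofPred_forall]
    exact MeasurableSet.iInter fun n => MeasurableSet.iInter fun _ => MeasurableSet.iInter fun s =>
      MeasurableSet.iInter fun _ => Random_meas (fun σ => ¬ C (n, σ) = true) s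
  have aN : Antitone N := fun k k' h ω hω n hn => hω n (hn.trans_le h)
  rw [ae_iff]
  by_contra hne
  have hβ : 0 < Random_mu.real B := ENNReal.toReal_pos hne (measure_ne_top _ _)
  obtain ⟨M, hM⟩ := exists_nat_one_div_lt hβ
  have h1 := Random_down (A := fun k => N k \ ⋂ i, N i)
    (fun k => (mN k).diff (MeasurableSet.iInter mN)) fun k k' h => Set.sdiff_subset_sdiff_left (aN h)
  have e1 : ⋂ k, (N k \ ⋂ i, N i) = ∅ :=
    Set.eq_empty_of_forall_notMem fun ω hω =>
      (Set.mem_iInter.1 hω 0).2 (Set.mem_iInter.2 fun i => (Set.mem_iInter.1 hω i).1)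
  rw [e1, measureReal_empty] at h1
  obtain ⟨k, hk⟩ := (h1.eventually (gt_mem_nhds
    (show (0 : ℝ) < 1 / ((M : ℝ) + 1) by positivity))).exists
  set P : List (ℕ × ℕ) := (List.range k).map fun n => (n, g j n) with hP
  set G : ℕ := (Finset.range k).sup (g j) with hG
  set F : ℕ → ℕ → Set (ℕ → Bool) := fun n l => N k ∩ {ω | ∃ s ≤ l, C (n, res ω s) = true} with hF
  have e2 : ∀ n l, G ≤ l → F n l = {ω | Random_test C P n l (bv (res ω l)) = true} := by
    intro n l hl
    ext ω
    simp only [hF, hN, hP, Random_test, Set.mem_inter_iff, Set.mem_ofPred_eq, Bool.and_eq_true,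
      List.all_eq_true, List.any_eq_true, List.mem_map, List.mem_range, Bool.not_eq_true',
      forall_exists_index, and_imp, forall_apply_eq_imp_iff₂, Bool.not_eq_true]
    refine and_congr (forall₂_congr fun n' hn' => forall₂_congr fun s hs => ?_)
      (exists_congr fun s => ?_)
    · have : g j n' ≤ G := Finset.le_sup (f := g j) (Finset.mem_range.2 hn')
      rw [Random_res ω (by omega)]
    · rw [Nat.lt_succ_iff]
      exact and_congr_right fun hs => by rw [Random_res ω hs]
  have e3 : ∀ n l, (leb G l && ltb (2 ^ l) ((M + 1) *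
      ∑ a ∈ Finset.range (2 ^ l), cond (Random_test C P n l a) 1 0)) = true ↔
      G ≤ l ∧ 1 / ((M : ℝ) + 1) < Random_mu.real (F n l) := by
    intro n l
    rw [Bool.and_eq_true, leb_true, ltb_true]
    refine and_congr_right fun hl => ?_
    rw [e2 n l hl, Random_cyl, div_lt_div_iff₀ (by positivity) (by positivity), one_mul,
      ← Nat.cast_lt (α := ℝ), mul_comm]
    push_cast
    rfl
  obtain ⟨n, l, hl, hR⟩ := hZ (fun n l => leb G l && ltb (2 ^ l) ((M + 1) *
      ∑ a ∈ Finset.range (2 ^ l), cond (Random_test C P n l a) 1 0))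
    (by unfold Random_test; fun_prop) (fun n => by
      have h2 := Random_up (A := F n) fun l l' h ω hω =>
        ⟨hω.1, hω.2.imp fun s hs => ⟨hs.1.trans h, hs.2⟩⟩
      have h3 : B ⊆ ⋃ l, F n l := by
        intro ω hω
        obtain ⟨a, b⟩ := Classical.not_imp.1 hω
        obtain ⟨s, hs⟩ := a n
        exact Set.mem_iUnion.2 ⟨s, fun n' _ s' hs' hc => b ⟨n', s', hs', hc⟩, s, le_rfl, hs⟩
      obtain ⟨l, a, b⟩ := ((eventually_ge_atTop G).and (h2.eventually
        (lt_mem_nhds (hM.trans_le (measureReal_mono h3 (measure_ne_top _ _)))))).exists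
      exact ⟨l, (e3 n l).2 ⟨a, b⟩⟩) j
  have h4 := hk.trans ((e3 n l).1 hR).2
  refine absurd (measureReal_mono (fun ω hω => ?_) (measure_ne_top _ _)) h4.not_ge
  obtain ⟨a, s, hs, hc⟩ := hω
  exact ⟨a, fun hi => Set.mem_iInter.1 hi (n + 1) n (Nat.lt_succ_self n) s (hs.trans_lt hl) hc⟩

theorem Random_adm {g : Bool → ℕ → ℕ} {Z : ℕ → Bool} (hZ : Adm g Z) :
    ∀ᵐ ω ∂(Random_mu), Adm g (J Z ω) := by
  obtain ⟨en, h1, h2⟩ := exists_enum (ℕ × List Bool) Z
  filter_upwards [ae_all_iff.2 fun i => ae_all_iff.2 fun j => Random_null hZ (h1 i) j] with ω hω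
  refine adm_join fun C hC htot j => ?_
  obtain ⟨i, rfl⟩ := h2 C hC
  exact hω i j htot

theorem Random_meas_rs (X S : ℕ → Bool) (b : ℕ) :
    MeasurableSet {ω | (X b && rs S ω b) = true} :=
  Random_meas (fun σ => (X b && S (Nat.pair b (bv σ))) = true) (lev b)

theorem Random_cnt (X S : ℕ → Bool) (N : ℕ) : (fun ω => (cnt (fun b => X b && rs S ω b) N : ℝ)) =
    fun ω => ∑ b ∈ Finset.range N, {ω | (X b && rs S ω b) = true}.indicator (fun _ => (1 : ℝ)) ω := by
  funext ω
  rw [cnt_cast]
  refine Finset.sum_congr rfl fun b _ => ?_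
  simp only [Set.indicator_apply, Set.mem_ofPred_eq]

theorem Random_meas_ev (K : ℕ) (X S : ℕ → Bool) (N : ℕ) :
    MeasurableSet {ω | N ≤ K * cnt (fun b => X b && rs S ω b) N} := by
  have h : Measurable fun ω => (cnt (fun b => X b && rs S ω b) N : ℝ) := by
    rw [Random_cnt]
    exact Finset.measurable_sum _ fun b _ => measurable_const.indicator (Random_meas_rs X S b)
  have e : {ω | N ≤ K * cnt (fun b => X b && rs S ω b) N} =
      {ω | (N : ℝ) ≤ K * (cnt (fun b => X b && rs S ω b) N : ℝ)} := by
    ext ω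
    simp only [Set.mem_ofPred_eq]
    norm_cast
  rw [e]
  exact measurableSet_le measurable_const (h.const_mul _)

theorem Random_good {K N : ℕ} {X S : ℕ → Bool} (hN : 0 < N) (h : Good K X S N = true) :
    1 ≤ 2 * K * Random_mu.real {ω | N ≤ 2 * K * cnt (fun b => X b && rs S ω b) N} := by
  rw [good_iff] at h
  have mE := Random_meas_ev (2 * K) X S N
  set E := {ω | N ≤ 2 * K * cnt (fun b => X b && rs S ω b) N} with hE
  have i0 : ∀ b, Integrable ({ω | (X b && rs S ω b) = true}.indicator fun _ => (1 : ℝ))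
      Random_mu := fun b => (integrable_const _).indicator (Random_meas_rs X S b)
  have i1 : Integrable (fun ω => (cnt (fun b => X b && rs S ω b) N : ℝ)) Random_mu := by
    rw [Random_cnt]
    exact integrable_finsetSum _ fun b _ => i0 b
  have e1 : ∫ ω, (cnt (fun b => X b && rs S ω b) N : ℝ) ∂(Random_mu) =
      ∑ b ∈ Finset.range N, if X b = true then lam S b else 0 := by
    rw [Random_cnt, integral_finsetSum _ fun b _ => i0 b]
    refine Finset.sum_congr rfl fun b _ => ?_
    rw [integral_indicator_const _ (Random_meas_rs X S b), smul_eq_mul, mul_one]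
    cases X b
    · simp
    · simp only [Bool.true_and, if_true]
      exact Random_cyl (lev b) fun a => S (Nat.pair b a)
  have i2 : Integrable (E.indicator fun _ => (2 * K * N : ℝ)) Random_mu :=
    (integrable_const _).indicator mE
  have h2 := integral_mono (i1.const_mul (2 * K)) (i2.add (integrable_const (N : ℝ))) fun ω => by
    have a : (cnt (fun b => X b && rs S ω b) N : ℝ) ≤ N := by exact_mod_cast cnt_le _ N
    simp only [Pi.add_apply]
    by_cases hω : ω ∈ E
    · rw [Set.indicator_of_mem hω]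
      have := mul_le_mul_of_nonneg_left a (show (0 : ℝ) ≤ 2 * K by positivity)
      linarith [Nat.cast_nonneg (α := ℝ) N]
    · rw [Set.indicator_of_notMem hω, zero_add]
      have : 2 * K * cnt (fun b => X b && rs S ω b) N ≤ N := (not_le.1 hω).le
      exact_mod_cast this
  rw [integral_const_mul, e1, integral_add' i2 (integrable_const _),
    integral_indicator_const _ mE, integral_const, probReal_univ, one_smul, smul_eq_mul] at h2
  have hN' : (0 : ℝ) < N := by exact_mod_cast hN
  refine le_of_mul_le_mul_right ?_ hN'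
  linarith

end meas

theorem exists_random {g : Bool → ℕ → ℕ} {Z : ℕ → Bool} (hZ : Adm g Z) (K : ℕ) (X S : ℕ → Bool)
    (h : ∀ n, ∃ N, n ≤ N ∧ Good K X S N = true) :
    ∃ ω : ℕ → Bool, Adm g (J Z ω) ∧ PosDens fun b => X b && rs S ω b := by
  set U : ℕ → Set (ℕ → Bool) := fun n =>
    ⋃ N, ⋃ _ : n ≤ N, {ω | N ≤ 2 * K * cnt (fun b => X b && rs S ω b) N} with hU
  have mU : ∀ n, MeasurableSet (U n) := fun n => MeasurableSet.iUnion fun N =>
    MeasurableSet.iUnion fun _ => Random_meas_ev (2 * K) X S N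
  have aU : Antitone U := fun n n' hn ω hω => by
    obtain ⟨N, a, b⟩ := Set.mem_iUnion₂.1 hω
    exact Set.mem_iUnion₂.2 ⟨N, hn.trans a, b⟩
  have h1 : (1 : ℝ) ≤ 2 * K * Random_mu.real (⋂ n, U n) := by
    refine ge_of_tendsto' ((Random_down mU aU).const_mul (2 * K : ℝ)) fun n => ?_
    obtain ⟨N, a, b⟩ := h (n + 1)
    refine (Random_good (by omega) b).trans (mul_le_mul_of_nonneg_left
      (MeasureTheory.measureReal_mono (fun ω hω => ?_) (MeasureTheory.measure_ne_top _ _))
      (by positivity))
    exact Set.mem_iUnion₂.2 ⟨N, by omega, hω⟩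
  have h2 : Random_mu (⋂ n, U n) ≠ 0 := fun h0 => by
    rw [MeasureTheory.measureReal_def, h0] at h1
    norm_num at h1
  obtain ⟨ω, a, b⟩ := MeasureTheory.Measure.exists_mem_of_measure_ne_zero_of_ae h2
    (MeasureTheory.ae_restrict_of_ae (Random_adm hZ))
  refine ⟨ω, b, 2 * K, fun n => ?_⟩
  obtain ⟨N, c, d⟩ := Set.mem_iUnion₂.1 (Set.mem_iInter.1 a n)
  exact ⟨N, c, d⟩

end Pool.Agent.P.MP_db6017_lc.Q1
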